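import Mathlib
import Pool.Agent.Run7.h166.TS.Lists

/-!
# Circles with good windows

`G` is a hereditary property of finite sets. Suppose that every subset of `V` of at least `R₀` elements contains
a good set of `M` elements (a block), and that of any `D + 1` disjoint blocks there are two which are linked: some
good set has at least `2 k` elements in both. Then `V` with fewer than `R₀` exceptions can be arranged in `D`
circles all of whose windows of length at most `k` are good: by the theorem of Pósa the graph of the blocks is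
covered by at most `D` circles (a vertex and an edge are circles, too).
-/

set_option autoImplicit false
set_option linter.unusedSectionVars false

namespace Pool.Agent.Run7.h756.CC

open Finset
open Pool.Agent.Run7.h166.TS (Win)

/-! ### The theorem of Pósa -/

section posa

variable {β : Type} [DecidableEq β] {adj : β → β → Prop}

/-- a circle; one vertex, and two adjacent vertices, are circles, too -/
def PCirc (adj : β → β → Prop) (l : List β) : Prop :=
  l.Nodup ∧ l.IsChain adj ∧ ∀ x ∈ l.head?, ∀ y ∈ l.getLast?, x = y ∨ adj y x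

theorem longest (V : Finset β) : ∃ P : List β, (P.Nodup ∧ P.IsChain adj) ∧ (∀ x ∈ P, x ∈ V) ∧
    ∀ Q : List β, (Q.Nodup ∧ Q.IsChain adj) → (∀ x ∈ Q, x ∈ V) → Q.length ≤ P.length := by
  classical
  set S : Set ℕ := {n | ∃ Q : List β, (Q.Nodup ∧ Q.IsChain adj) ∧ (∀ x ∈ Q, x ∈ V) ∧ Q.length = n} with hS
  have hne : S.Nonempty := ⟨0, [], ⟨List.nodup_nil, List.isChain_nil⟩, by simp, rfl⟩
  have hb : BddAbove S := by
    refine ⟨V.card, ?_⟩
    rintro n ⟨Q, hQ, hQV, rfl⟩
    rw [← List.toFinset_card_of_nodup hQ.1]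
    exact card_le_card fun x hx => hQV x (List.mem_toFinset.1 hx)
  obtain ⟨P, hP, hPV, hPn⟩ := Nat.sSup_mem hne hb
  refine ⟨P, hP, hPV, fun Q hQ hQV => ?_⟩
  rw [hPn]
  exact le_csSup hb ⟨Q, hQ, hQV, rfl⟩

/-- **Pósa.** A graph without `D + 1` pairwise nonadjacent vertices is covered by `D` disjoint circles. -/
theorem posa (hs : ∀ x y, adj x y → adj y x) (D : ℕ) : ∀ V : Finset β,
    (∀ T ⊆ V, T.card = D + 1 → ∃ x ∈ T, ∃ y ∈ T, x ≠ y ∧ adj x y) →
    ∃ e : Fin D → List β, (∀ i, PCirc adj (e i)) ∧ (∀ i j, i ≠ j → List.Disjoint (e i) (e j)) ∧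
      (∀ i, ∀ x ∈ e i, x ∈ V) ∧ ∀ x ∈ V, ∃ i, x ∈ e i := by
  induction D with
  | zero =>
    intro V h
    refine ⟨fun i => i.elim0, fun i => i.elim0, fun i => i.elim0, fun i => i.elim0, fun x hx => ?_⟩
    obtain ⟨y, hy, z, hz, hyz, -⟩ := h {x} (singleton_subset_iff.2 hx) (card_singleton x)
    rw [mem_singleton] at hy hz
    exact absurd (hy.trans hz.symm) hyz
  | succ D ih =>
    intro V h
    obtain ⟨P, hP, hPV, hmax⟩ := longest (adj := adj) V
    cases P with
    | nil =>
      refine ⟨fun _ => [], fun _ => ⟨List.nodup_nil, List.isChain_nil, fun x hx => by simp at hx⟩,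
        fun i j _ x hx => by simp at hx, fun i x hx => by simp at hx, fun x hx => ?_⟩
      have := hmax [x] ⟨List.nodup_singleton x, List.isChain_singleton x⟩ (by
        intro y hy
        rw [List.mem_singleton.1 hy]
        exact hx)
      simp at this
    | cons p P =>
      set L := p :: P with hL
      have hLpos : 0 < L.length := by simp [hL]
      have hp0 : L[0] = p := rfl
      -- the last neighbour of `p`
      obtain ⟨i, hi, hadj, himax⟩ : ∃ i, ∃ hi : i < L.length, (i = 0 ∨ adj p L[i]) ∧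
          ∀ j, ∀ hj : j < L.length, adj p L[j] → j ≤ i := by
        have hb : BddAbove {j | ∃ hj : j < L.length, (j = 0 ∨ adj p L[j])} := ⟨L.length, fun j hj => hj.1.le⟩
        obtain ⟨h1, h2⟩ := Nat.sSup_mem (s := {j | ∃ hj : j < L.length, (j = 0 ∨ adj p L[j])})
          ⟨0, hLpos, Or.inl rfl⟩ hb
        exact ⟨_, h1, h2, fun j hj hadj => le_csSup hb ⟨hj, Or.inr hadj⟩⟩
      set l := L.take (i + 1) with hl
      have hlen : l.length = i + 1 := by rw [hl, List.length_take]; omega
      have hlsub : l.Sublist L := List.take_sublist _ _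
      set R := V.filter (fun x => x ∉ l) with hR
      have hno : ∀ x ∈ R, ¬ adj p x := by
        intro x hx hpx
        obtain ⟨hxV, hxl⟩ := mem_filter.1 hx
        by_cases hxL : x ∈ L
        · obtain ⟨j, hj, rfl⟩ := List.mem_iff_getElem.1 hxL
          have h1 := himax j hj hpx
          apply hxl
          rw [hl, List.mem_take_iff_getElem]
          exact ⟨j, by omega, rfl⟩
        · have := hmax (x :: L) ⟨List.nodup_cons.2 ⟨hxL, hP.1⟩, by
            rw [hL, List.isChain_cons_cons]
            exact ⟨hs _ _ hpx, hP.2⟩⟩ (by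
            intro y hy
            rcases List.mem_cons.1 hy with rfl | hy
            · exact hxV
            · exact hPV y hy)
          simp at this
      have hpl : p ∈ l := by
        rw [hl, List.mem_take_iff_getElem]
        exact ⟨0, by omega, rfl⟩
      obtain ⟨e, he1, he2, he3, he4⟩ := ih R (by
        intro T hT hTc
        have hpT : p ∉ T := fun h => (mem_filter.1 (hT h)).2 hpl
        obtain ⟨x, hx, y, hy, hxy, hadj⟩ := h (insert p T) (by
          intro x hx
          rcases mem_insert.1 hx with rfl | hx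
          · exact hPV x (by simp [hL])
          · exact (mem_filter.1 (hT hx)).1) (by rw [card_insert_of_notMem hpT, hTc])
        rcases mem_insert.1 hx with hx1 | hx1
        · rcases mem_insert.1 hy with hy1 | hy1
          · exact absurd (hx1.trans hy1.symm) hxy
          · rw [hx1] at hadj
            exact absurd hadj (hno y (hT hy1))
        · rcases mem_insert.1 hy with hy1 | hy1
          · rw [hy1] at hadj
            exact absurd (hs _ _ hadj) (hno x (hT hx1))
          · exact ⟨x, hx1, y, hy1, hxy, hadj⟩)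
      refine ⟨Fin.cons l e, ?_, ?_, ?_, ?_⟩
      · intro a
        refine Fin.cases ?_ (fun a => ?_) a
        · refine ⟨hP.1.sublist hlsub, hP.2.take _, ?_⟩
          intro x hx y hy
          have hx' : x = p := by
            rw [Fin.cons_zero, hl, List.head?_take, if_neg (by omega), hL, List.head?_cons] at hx
            simpa using hx.symm
          have hy' : y = L[i] := by
            rw [Fin.cons_zero, List.getLast?_eq_getElem?, hlen, hl, List.getElem?_take_of_lt (by omega),
              List.getElem?_eq_getElem (by omega)] at hy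
            simp only [Option.mem_def, Option.some.injEq] at hy
            rw [← hy]
            congr 1
          rcases hadj with h0 | h0
          · left
            rw [hx', hy']
            subst h0
            rfl
          · right
            rw [hx', hy']
            exact hs _ _ h0
        · exact he1 a
      · intro a b
        refine Fin.cases ?_ (fun a => ?_) a <;> refine Fin.cases ?_ (fun b => ?_) b
        · exact fun h => absurd rfl h
        · intro _ x hx hx'
          exact (mem_filter.1 (he3 b x hx')).2 hx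
        · intro _ x hx hx'
          exact (mem_filter.1 (he3 a x hx)).2 hx'
        · intro hab
          exact he2 a b (fun h => hab (by rw [h]))
      · intro a
        refine Fin.cases ?_ (fun a => ?_) a
        · exact fun x hx => hPV x (hlsub.subset hx)
        · exact fun x hx => (mem_filter.1 (he3 a x hx)).1
      · intro x hx
        by_cases hxl : x ∈ l
        · exact ⟨0, hxl⟩
        · obtain ⟨a, ha⟩ := he4 x (mem_filter.2 ⟨hx, hxl⟩)
          exact ⟨a.succ, ha⟩

end posa

/-! ### From circles of blocks to circles of elements -/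

variable {α : Type} [DecidableEq α] {G : Finset α → Prop}

/-- some good set has at least `2 k` elements in both blocks -/
def Lk (G : Finset α → Prop) (k : ℕ) (Q Q' : Finset α) : Prop :=
  ∃ s, G s ∧ 2 * k ≤ (s ∩ Q).card ∧ 2 * k ≤ (s ∩ Q').card

theorem lk_symm {k : ℕ} (Q Q' : Finset α) (h : Lk G k Q Q') : Lk G k Q' Q := by
  obtain ⟨s, h1, h2, h3⟩ := h
  exact ⟨s, h1, h3, h2⟩

/-- the block `Q` with the parts `B` and `A` at the ends -/
theorem piece {Q A B : Finset α} (hA : A ⊆ Q) (hB : B ⊆ Q) (hAB : Disjoint A B) :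
    ∃ w : List α, (B.toList ++ w ++ A.toList).Nodup ∧ ∀ x, x ∈ B.toList ++ w ++ A.toList ↔ x ∈ Q := by
  refine ⟨((Q \ A) \ B).toList, ?_, ?_⟩
  · rw [List.append_assoc, List.nodup_append, List.nodup_append]
    refine ⟨nodup_toList _, ⟨nodup_toList _, nodup_toList _, ?_⟩, ?_⟩
    · intro a ha b hb hab
      subst hab
      rw [mem_toList, mem_sdiff, mem_sdiff] at ha
      rw [mem_toList] at hb
      exact ha.1.2 hb
    · intro a ha b hb hab
      subst hab
      rw [mem_toList] at ha
      rw [List.mem_append, mem_toList, mem_toList, mem_sdiff, mem_sdiff] at hb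
      rcases hb with hb | hb
      · exact hb.2 ha
      · exact (disjoint_left.1 hAB) hb ha
  · intro x
    rw [List.mem_append, List.mem_append, mem_toList, mem_toList, mem_toList, mem_sdiff, mem_sdiff]
    constructor
    · rintro ((h | h) | h)
      · exact hB h
      · exact h.1.1
      · exact hA h
    · intro h
      by_cases h1 : x ∈ A
      · exact Or.inr h1
      · by_cases h2 : x ∈ B
        · exact Or.inl (Or.inl h2)
        · exact Or.inl (Or.inr ⟨⟨h, h1⟩, h2⟩)

theorem avoiding {k : ℕ} {Z B : Finset α} (hZ : 2 * k ≤ Z.card) (hB : B.card = k) :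
    ∃ A ⊆ Z, A.card = k ∧ Disjoint A B := by
  have h1 : k ≤ (Z \ B).card := by
    have h2 := card_sdiff_add_card_inter Z B
    have h3 : (Z ∩ B).card ≤ B.card := card_le_card inter_subset_right
    omega
  obtain ⟨A, hA, hAc⟩ := exists_subset_card_eq h1
  exact ⟨A, hA.trans sdiff_subset, hAc, disjoint_left.2 fun x hx hx' => (mem_sdiff.1 (hA hx)).2 hx'⟩

/-- a path of blocks, opened at given sets -/
theorem openPath (hh : ∀ s t : Finset α, s ⊆ t → G t → G s) {k : ℕ} : ∀ (L : List (Finset α)) (Q B Z : Finset α),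
    (Q :: L).IsChain (Lk G k) → (∀ q ∈ Q :: L, G q) → (Q :: L).Pairwise Disjoint → B ⊆ Q → B.card = k →
    (∀ q ∈ (Q :: L).getLast?, Z ⊆ q) → 2 * k ≤ Z.card →
    ∃ (l l₂ l₃ : List α) (A : Finset α), l = B.toList ++ l₂ ∧ l = l₃ ++ A.toList ∧ A ⊆ Z ∧ A.card = k ∧
      l.Nodup ∧ Win G k l ∧ ∀ x, x ∈ l ↔ ∃ q ∈ Q :: L, x ∈ q := by
  intro L
  induction L with
  | nil =>
    intro Q B Z _ hG _ hB hBc hZ hZc
    have hZQ : Z ⊆ Q := hZ Q (by simp)
    obtain ⟨A, hA, hAc, hAB⟩ := avoiding hZc hBc
    obtain ⟨w, hw1, hw2⟩ := piece (hA.trans hZQ) hB hAB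
    refine ⟨B.toList ++ w ++ A.toList, w ++ A.toList, B.toList ++ w, A, by rw [List.append_assoc], rfl, hA, hAc,
      hw1, ?_, ?_⟩
    · refine Win.of_good hh (hh _ Q ?_ (hG Q (by simp)))
      intro x hx
      exact (hw2 x).1 (List.mem_toFinset.1 hx)
    · intro x
      rw [hw2]
      simp
  | cons Q' L ih =>
    intro Q B Z hch hG hd hB hBc hZ hZc
    rw [List.isChain_cons_cons] at hch
    rw [List.pairwise_cons] at hd
    obtain ⟨⟨s, hs, hs1, hs2⟩, hch'⟩ := hch
    obtain ⟨B', hB', hB'c⟩ := exists_subset_card_eq (show k ≤ (s ∩ Q').card by omega)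
    obtain ⟨A, hA, hAc, hAB⟩ := avoiding hs1 hBc
    obtain ⟨w, hw1, hw2⟩ := piece (hA.trans inter_subset_right) hB hAB
    obtain ⟨l, l₂, l₃, A', hl2, hl3, hA', hA'c, hnd, hwin, hmem⟩ := ih Q' B' Z hch'
      (fun q hq => hG q (List.mem_cons_of_mem _ hq)) hd.2 (hB'.trans inter_subset_right) hB'c
      (fun q hq => hZ q (by simpa using hq)) hZc
    refine ⟨B.toList ++ w ++ A.toList ++ l, w ++ A.toList ++ l, B.toList ++ w ++ A.toList ++ l₃, A', by simp, by
      rw [hl3]; simp, hA', hA'c, ?_, ?_, ?_⟩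
    · rw [List.nodup_append]
      refine ⟨hw1, hnd, ?_⟩
      intro a ha b hb hab
      subst hab
      have h1 := (hw2 a).1 ha
      obtain ⟨q, hq, h2⟩ := (hmem a).1 hb
      exact (disjoint_left.1 (hd.1 q hq)) h1 h2
    · have e1 : Win G k (B.toList ++ w ++ A.toList) := by
        refine Win.of_good hh (hh _ Q ?_ (hG Q (by simp)))
        intro x hx
        exact (hw2 x).1 (List.mem_toFinset.1 hx)
      have e2 : Win G k (A.toList ++ B'.toList) := by
        refine Win.of_good hh (hh _ s ?_ hs)
        intro x hx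
        rw [List.mem_toFinset, List.mem_append, mem_toList, mem_toList] at hx
        rcases hx with hx | hx
        · exact (mem_inter.1 (hA hx)).1
        · exact (mem_inter.1 (hB' hx)).1
      have e3 := Win.glue e1 e2 (by rw [length_toList, hAc])
      rw [hl2] at hwin ⊢
      have e4 := Win.glue e3 hwin (by rw [length_toList, hB'c])
      simpa [List.append_assoc] using e4
    · intro x
      rw [List.mem_append, hw2, hmem]
      constructor
      · rintro (h | ⟨q, hq, h⟩)
        · exact ⟨Q, by simp, h⟩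
        · exact ⟨q, List.mem_cons_of_mem _ hq, h⟩
      · rintro ⟨q, hq, h⟩
        rcases List.mem_cons.1 hq with rfl | hq
        · exact Or.inl h
        · exact Or.inr ⟨q, hq, h⟩

/-- a circle of blocks gives a circle of elements -/
theorem closePath (hh : ∀ s t : Finset α, s ⊆ t → G t → G s) (h0 : G ∅) {k : ℕ} (L : List (Finset α))
    (hc : PCirc (Lk G k) L) (hG : ∀ q ∈ L, G q) (hd : L.Pairwise Disjoint) :
    ∃ l : List α, l.Nodup ∧ Win G k (l ++ l) ∧ ∀ x, x ∈ l ↔ ∃ q ∈ L, x ∈ q := by
  obtain ⟨hnd, hch, hcl⟩ := hc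
  cases L with
  | nil =>
    refine ⟨[], List.nodup_nil, ?_, by simp⟩
    refine Win.of_good hh ?_
    simpa using h0
  | cons Q L =>
    obtain ⟨Y, hY⟩ : ∃ Y, (Q :: L).getLast? = some Y := ⟨(Q :: L).getLast (by simp), List.getLast?_eq_some_getLast _⟩
    rcases hcl Q (by simp) Y (by rw [hY]; rfl) with hQY | ⟨s, hs, hs1, hs2⟩
    · -- one block
      have hL : L = [] := by
        by_contra hne
        have h1 : Y ∈ L := by
          have h2 : (Q :: L).getLast? = L.getLast? := by
            obtain ⟨a, L', rfl⟩ := List.exists_cons_of_ne_nil hne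
            simp
          rw [h2] at hY
          exact List.mem_of_getLast? hY
        rw [← hQY] at h1
        exact (List.nodup_cons.1 hnd).1 h1
      subst hL
      refine ⟨Q.toList, nodup_toList _, ?_, by simp⟩
      refine Win.of_good hh (hh _ Q ?_ (hG Q (by simp)))
      intro x hx
      rw [List.mem_toFinset, List.mem_append, mem_toList] at hx
      exact hx.elim id id
    · obtain ⟨B, hB, hBc⟩ := exists_subset_card_eq (show k ≤ (s ∩ Q).card by omega)
      obtain ⟨l, l₂, l₃, A, hl2, hl3, hA, hAc, hnd', hwin, hmem⟩ := openPath hh L Q B (s ∩ Y) hch hG hd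
        (hB.trans inter_subset_right) hBc (fun q hq => by
          rw [hY] at hq
          rw [← Option.some.inj hq]
          exact inter_subset_right) hs1
      refine ⟨l, hnd', ?_, hmem⟩
      have e2 : Win G k (A.toList ++ B.toList) := by
        refine Win.of_good hh (hh _ s ?_ hs)
        intro x hx
        rw [List.mem_toFinset, List.mem_append, mem_toList, mem_toList] at hx
        rcases hx with hx | hx
        · exact (mem_inter.1 (hA hx)).1
        · exact (mem_inter.1 (hB hx)).1
      have e1 : Win G k (l₃ ++ A.toList) := by rw [← hl3]; exact hwin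
      have e3 := Win.glue e1 e2 (by rw [length_toList, hAc])
      have e4 : Win G k (B.toList ++ l₂) := by rw [← hl2]; exact hwin
      have e5 := Win.glue e3 e4 (by rw [length_toList, hBc])
      have e6 : l ++ l = l₃ ++ A.toList ++ B.toList ++ l₂ := by
        calc l ++ l = (l₃ ++ A.toList) ++ (B.toList ++ l₂) := by rw [← hl3, ← hl2]
          _ = _ := by simp [List.append_assoc]
      rw [e6]
      exact e5

/-- the windows of a circle -/
theorem cyc_win {k : ℕ} {l : List α} (h : Win G k (l ++ l)) (j : ℕ) : G (((l.rotate j).take k).toFinset) := by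
  refine h _ ?_ (by rw [List.length_take]; exact min_le_left _ _)
  refine (List.take_prefix _ _).isInfix.trans ?_
  rcases Nat.eq_zero_or_pos l.length with h0 | h0
  · rw [List.eq_nil_of_length_eq_zero h0]
    simp
  · rw [← List.rotate_mod, List.rotate_eq_drop_append_take (Nat.mod_lt _ h0).le]
    refine ⟨l.take (j % l.length), l.drop (j % l.length), ?_⟩
    calc l.take (j % l.length) ++ (l.drop (j % l.length) ++ l.take (j % l.length)) ++ l.drop (j % l.length) =
        (l.take (j % l.length) ++ l.drop (j % l.length)) ++ (l.take (j % l.length) ++ l.drop (j % l.length)) := by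
          simp only [List.append_assoc]
      _ = l ++ l := by rw [List.take_append_drop]

/-- a maximal family of disjoint blocks -/
theorem max_blocks {V : Finset α} {M R₀ : ℕ} (hM : 1 ≤ M) (hCl : ∀ Y ⊆ V, R₀ ≤ Y.card → ∃ Q ⊆ Y, Q.card = M ∧ G Q) :
    ∃ F : Finset (Finset α), (∀ Q ∈ F, Q ⊆ V ∧ Q.card = M ∧ G Q) ∧ (∀ Q ∈ F, ∀ Q' ∈ F, Q ≠ Q' → Disjoint Q Q') ∧
      (V.filter (fun x => ∀ Q ∈ F, x ∉ Q)).card < R₀ := by
  classical
  have main : ∀ n : ℕ, ∀ F : Finset (Finset α), (∀ Q ∈ F, Q ⊆ V ∧ Q.card = M ∧ G Q) →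
      (∀ Q ∈ F, ∀ Q' ∈ F, Q ≠ Q' → Disjoint Q Q') → (V.filter (fun x => ∀ Q ∈ F, x ∉ Q)).card ≤ n →
      ∃ F : Finset (Finset α), (∀ Q ∈ F, Q ⊆ V ∧ Q.card = M ∧ G Q) ∧
        (∀ Q ∈ F, ∀ Q' ∈ F, Q ≠ Q' → Disjoint Q Q') ∧ (V.filter (fun x => ∀ Q ∈ F, x ∉ Q)).card < R₀ := by
    intro n
    induction n using Nat.strong_induction_on with
    | _ n ih =>
      intro F hF hd hn
      by_cases hR : (V.filter (fun x => ∀ Q ∈ F, x ∉ Q)).card < R₀
      · exact ⟨F, hF, hd, hR⟩
      push Not at hR
      obtain ⟨Q, hQ, hQc, hQG⟩ := hCl _ (filter_subset _ _) hR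
      have hQF : ∀ x ∈ Q, ∀ Q' ∈ F, x ∉ Q' := fun x hx => (mem_filter.1 (hQ hx)).2
      obtain ⟨q, hq⟩ := card_pos.1 (by omega : 0 < Q.card)
      refine ih _ (lt_of_lt_of_le (card_lt_card ?_) hn) (insert Q F) ?_ ?_ le_rfl
      · rw [ssubset_iff_of_subset]
        · refine ⟨q, hQ hq, fun h => ?_⟩
          exact (mem_filter.1 h).2 Q (mem_insert_self _ _) hq
        · intro x hx
          obtain ⟨h1, h2⟩ := mem_filter.1 hx
          exact mem_filter.2 ⟨h1, fun Q' hQ' => h2 Q' (mem_insert_of_mem hQ')⟩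
      · intro Q' hQ'
        rcases mem_insert.1 hQ' with rfl | hQ'
        · exact ⟨fun x hx => (mem_filter.1 (hQ hx)).1, hQc, hQG⟩
        · exact hF Q' hQ'
      · intro Q₁ h1 Q₂ h2 hne
        rcases mem_insert.1 h1 with e1 | e1
        · rcases mem_insert.1 h2 with e2 | e2
          · exact absurd (e1.trans e2.symm) hne
          · rw [e1]
            exact disjoint_left.2 fun x hx => hQF x hx Q₂ e2
        · rcases mem_insert.1 h2 with e2 | e2
          · rw [e2]
            exact disjoint_left.2 fun x hx hx' => hQF x hx' Q₁ e1 hx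
          · exact hd Q₁ e1 Q₂ e2 hne
  exact main V.card ∅ (by simp) (by simp) (card_le_card (filter_subset _ _))

/-- **Circles with good windows.** -/
theorem win_circles (hh : ∀ s t : Finset α, s ⊆ t → G t → G s) (h0 : G ∅) {V : Finset α} {k M R₀ D : ℕ}
    (hM : 1 ≤ M) (hCl : ∀ Y ⊆ V, R₀ ≤ Y.card → ∃ Q ⊆ Y, Q.card = M ∧ G Q)
    (hLink : ∀ Q : Fin (D + 1) → Finset α, (∀ i, Q i ⊆ V ∧ (Q i).card = M ∧ G (Q i)) →
      (∀ i j, i ≠ j → Disjoint (Q i) (Q j)) → ∃ i j, i ≠ j ∧ Lk G k (Q i) (Q j)) :
    ∃ e : Fin D → List α, (∀ i, (e i).Nodup) ∧ (∀ i j, i ≠ j → List.Disjoint (e i) (e j)) ∧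
      (∀ i, ∀ x ∈ e i, x ∈ V) ∧ (V.filter (fun x => ∀ i, x ∉ e i)).card < R₀ ∧
      ∀ i j, G ((((e i).rotate j).take k).toFinset) := by
  classical
  obtain ⟨F, hF, hd, hR⟩ := max_blocks hM hCl
  obtain ⟨E, hE1, hE2, hE3, hE4⟩ := posa (adj := Lk G k) (fun x y => lk_symm x y) D F (by
    intro T hT hTc
    set τ : Fin (D + 1) ≃ T := (T.equivFinOfCardEq hTc).symm with hτ
    obtain ⟨i, j, hij, hL⟩ := hLink (fun i => (τ i : Finset α)) (fun i => hF _ (hT (τ i).2)) (fun i j hij =>
      hd _ (hT (τ i).2) _ (hT (τ j).2) (fun h => hij (τ.injective (Subtype.ext h))))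
    exact ⟨τ i, (τ i).2, τ j, (τ j).2, fun h => hij (τ.injective (Subtype.ext h)), hL⟩)
  have hcl : ∀ i, ∃ l : List α, l.Nodup ∧ Win G k (l ++ l) ∧ ∀ x, x ∈ l ↔ ∃ q ∈ E i, x ∈ q := by
    intro i
    refine closePath hh h0 (E i) (hE1 i) (fun q hq => (hF q (hE3 i q hq)).2.2) ?_
    refine (hE1 i).1.imp_of_mem ?_
    intro a b ha hb hab
    exact hd a (hE3 i a ha) b (hE3 i b hb) hab
  choose e he1 he2 he3 using hcl
  refine ⟨e, he1, ?_, ?_, ?_, fun i j => cyc_win (he2 i) j⟩
  · intro i j hij x hx hx'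
    obtain ⟨q, hq, hxq⟩ := (he3 i x).1 hx
    obtain ⟨q', hq', hxq'⟩ := (he3 j x).1 hx'
    have hne : q ≠ q' := by
      rintro rfl
      exact hE2 i j hij hq hq'
    exact disjoint_left.1 (hd q (hE3 i q hq) q' (hE3 j q' hq') hne) hxq hxq'
  · intro i x hx
    obtain ⟨q, hq, hxq⟩ := (he3 i x).1 hx
    exact (hF q (hE3 i q hq)).1 hxq
  · refine lt_of_le_of_lt (card_le_card ?_) hR
    intro x hx
    obtain ⟨h1, h2⟩ := mem_filter.1 hx
    refine mem_filter.2 ⟨h1, fun Q hQ hxQ => ?_⟩
    obtain ⟨i, hi⟩ := hE4 Q hQ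
    exact h2 i ((he3 i x).2 ⟨Q, hi, hxQ⟩)

end Pool.Agent.Run7.h756.CC
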