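import Mathlib
import Pool.Agent.Run7.h756.CC.Win
import Pool.Agent.R493.SI.Nest

/-!
# Circles with windows which are good for several properties at once

`MTc good V m K`: of any `t ≤ m` classes of `K` elements of `V` at least `5 t / 18` are represented in a good set.
If this holds for `R` hereditary properties (for suitable `m`, `K`), then `V` with a bounded number of exceptions
can be arranged in `mR R` circles (`mR 1 = 3`, `mR 2 = 10`, `mR 3 = 36`) whose windows of length `k` are good for
all the `R` properties. The box lemma of Erdős (`Pool.Agent.H362R2.CM.box_lemma`) and the nested cliques are taken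
from the starting files (`Pool.Agent.R493.SI`).
-/

set_option autoImplicit false
set_option linter.unusedSectionVars false

namespace Pool.Agent.Run7.h756.CC

open Finset
open Pool.Agent.R493.SI (mR mR_pos)

def MTc {α : Type} [DecidableEq α] (good : Finset α → Prop) (V : Finset α) (m K : ℕ) : Prop :=
  ∀ t : Finset (Fin m), t.Nonempty → ∀ A : Fin m → Fin K → α,
    Function.Injective (fun u : Fin m × Fin K => A u.1 u.2) → (∀ i k, A i k ∈ V) →
    ∃ S ⊆ t, 5 * t.card ≤ 18 * S.card ∧ ∃ c : Fin m → Fin K, good (S.image (fun i => A i (c i)))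

/-- **A transversal with a pattern.** -/
theorem pattern (R m K : ℕ) (hK : 1 ≤ K) : ∃ N : ℕ, 1 ≤ N ∧ ∀ {α : Type} [DecidableEq α]
    (good : Fin R → Finset α → Prop) (V : Finset α), (∀ ρ, MTc (good ρ) V m K) →
    ∀ Y : Fin m → Finset α, (∀ i, Y i ⊆ V) → (∀ i, N ≤ (Y i).card) → (∀ i j, i ≠ j → Disjoint (Y i) (Y j)) →
    ∃ (x : Fin m → α) (σ : Fin R → Finset (Finset (Fin m))), (∀ i, x i ∈ Y i) ∧
      (∀ ρ, ∀ J ∈ σ ρ, good ρ (J.image x)) ∧
      ∀ ρ, ∀ t : Finset (Fin m), t.Nonempty → ∃ S ⊆ t, 5 * t.card ≤ 18 * S.card ∧ S ∈ σ ρ := by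
  classical
  set Pat := Fin R → Finset (Finset (Fin m)) with hPat
  set M : ℕ := Fintype.card Pat with hM
  obtain ⟨N, hN⟩ := Pool.Agent.H362R2.CM.box_lemma m K (1 / (M + 1)) (by positivity)
  refine ⟨N + 1, by omega, fun {α} _ good V hMT Y hYV hY hYd => ?_⟩
  set f : (Fin m → α) → Pat := fun x ρ => univ.filter (fun J => good ρ (J.image x)) with hf
  have hP0 : (0 : ℝ) ≤ ∏ i, ((Y i).card : ℝ) := Finset.prod_nonneg (fun i _ => Nat.cast_nonneg _)
  obtain ⟨σ, _, hσ⟩ := Finset.exists_le_card_fiber_of_nsmul_le_card_of_maps_to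
    (s := Fintype.piFinset Y) (t := (univ : Finset Pat)) (f := f) (fun _ _ => mem_univ _)
    (⟨fun _ => ∅, mem_univ _⟩) (b := 1 / ((M : ℝ) + 1) * ∏ i, ((Y i).card : ℝ)) (by
      rw [nsmul_eq_mul, card_univ, ← hM, Fintype.card_piFinset]
      push_cast
      rw [← mul_assoc]
      refine mul_le_of_le_one_left hP0 ?_
      rw [mul_one_div, div_le_one (by positivity)]
      linarith)
  obtain ⟨A, hA1, hA2⟩ := hN α Y (fun i => (Nat.le_succ N).trans (hY i))
    ((Fintype.piFinset Y).filter (fun x => f x = σ)) (filter_subset _ _) hσ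
  have hmem : ∀ i k, A i k ∈ Y i := by
    intro i k
    have h1 := (mem_filter.1 (hA2 (fun _ => k))).1
    rw [Fintype.mem_piFinset] at h1
    exact h1 i
  have hpat : ∀ c : Fin m → Fin K, ∀ ρ J, J ∈ σ ρ ↔ good ρ (J.image (fun i => A i (c i))) := by
    intro c ρ J
    have h1 := (mem_filter.1 (hA2 c)).2
    rw [← h1]
    simp only [hf, mem_filter, mem_univ, true_and]
  refine ⟨fun i => A i ⟨0, hK⟩, σ, fun i => hmem i _, fun ρ J hJ => (hpat (fun _ => ⟨0, hK⟩) ρ J).1 hJ, ?_⟩
  intro ρ t ht
  obtain ⟨S, hS, hSc, c, hc⟩ := hMT ρ t ht A (by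
    rintro ⟨i, k⟩ ⟨j, l⟩ h
    have hij : i = j := by
      by_contra hne
      have h1 := hmem i k
      have h2 := hmem j l
      simp only at h
      rw [← h] at h2
      exact disjoint_left.1 (hYd i j hne) h1 h2
    subst hij
    exact Prod.ext rfl (hA1 i h)) (fun i k => hYV i (hmem i k))
  exact ⟨S, hS, hSc, (hpat c ρ S).2 hc⟩

section nested

variable {α : Type} [DecidableEq α] {R m : ℕ} {good : Fin R → Finset α → Prop} {x : Fin m → α}
  {σ : Fin R → Finset (Finset (Fin m))}

/-- a large set of classes, represented in a set which is good for all properties -/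
theorem nest_frac (hh : ∀ ρ (s t : Finset α), s ⊆ t → good ρ t → good ρ s)
    (h1 : ∀ ρ, ∀ J ∈ σ ρ, good ρ (J.image x))
    (h2 : ∀ ρ, ∀ t : Finset (Fin m), t.Nonempty → ∃ S ⊆ t, 5 * t.card ≤ 18 * S.card ∧ S ∈ σ ρ) (hm : 1 ≤ m) :
    ∃ J : Finset (Fin m), (∀ ρ, good ρ (J.image x)) ∧ 5 ^ R * m ≤ 18 ^ R * J.card := by
  have key : ∀ n ≤ R, ∃ J : Finset (Fin m), (∀ ρ : Fin R, (ρ : ℕ) < n → good ρ (J.image x)) ∧ J.Nonempty ∧
      5 ^ n * m ≤ 18 ^ n * J.card := by
    intro n
    induction n with
    | zero =>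
      intro _
      refine ⟨univ, fun ρ hρ => absurd hρ (by omega), ⟨⟨0, hm⟩, mem_univ _⟩, ?_⟩
      rw [card_univ, Fintype.card_fin]
      simp
    | succ n ih =>
      intro hn
      obtain ⟨J, hJ1, hJ2, hJ3⟩ := ih (by omega)
      obtain ⟨S, hS, hSc, hSσ⟩ := h2 ⟨n, by omega⟩ J hJ2
      refine ⟨S, ?_, ?_, ?_⟩
      · intro ρ hρ
        by_cases h3 : (ρ : ℕ) < n
        · exact hh ρ _ _ (image_subset_image hS) (hJ1 ρ h3)
        · have h4 : ρ = ⟨n, by omega⟩ := Fin.ext (by simp only; omega)
          rw [h4]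
          exact h1 _ S hSσ
      · rw [← card_pos]
        have := card_pos.2 hJ2
        omega
      · calc 5 ^ (n + 1) * m = 5 * (5 ^ n * m) := by ring
          _ ≤ 5 * (18 ^ n * J.card) := Nat.mul_le_mul_left _ hJ3
          _ = 18 ^ n * (5 * J.card) := by ring
          _ ≤ 18 ^ n * (18 * S.card) := Nat.mul_le_mul_left _ hSc
          _ = 18 ^ (n + 1) * S.card := by ring
  obtain ⟨J, hJ1, -, hJ3⟩ := key R le_rfl
  exact ⟨J, fun ρ => hJ1 ρ ρ.2, hJ3⟩

/-- two groups of classes with many representatives in a set which is good for all properties -/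
theorem nest_link (hh : ∀ ρ (s t : Finset α), s ⊆ t → good ρ t → good ρ s)
    (h1 : ∀ ρ, ∀ J ∈ σ ρ, good ρ (J.image x))
    (h2 : ∀ ρ, ∀ t : Finset (Fin m), t.Nonempty → ∃ S ⊆ t, 5 * t.card ≤ 18 * S.card ∧ S ∈ σ ρ) {k : ℕ}
    (hk : 1 ≤ k) (π : Fin m → Fin (mR R + 1))
    (hπ : ∀ i, (18 * (mR R + 1) + 1) ^ R * (2 * k) ≤ (univ.filter (fun u => π u = i)).card) :
    ∃ J : Finset (Fin m), (∀ ρ, good ρ (J.image x)) ∧ ∃ i j, i ≠ j ∧
      2 * k ≤ (J.filter (fun u => π u = i)).card ∧ 2 * k ≤ (J.filter (fun u => π u = j)).card := by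
  classical
  set c : ℕ := 18 * (mR R + 1) + 1 with hc
  have key : ∀ n ≤ R, ∃ J : Finset (Fin m), (∀ ρ : Fin R, (ρ : ℕ) < n → good ρ (J.image x)) ∧
      mR (R - n) < (univ.filter (fun i => c ^ (R - n) * (2 * k) ≤ (J.filter (fun u => π u = i)).card)).card := by
    intro n
    induction n with
    | zero =>
      intro _
      refine ⟨univ, fun ρ hρ => absurd hρ (by omega), ?_⟩
      have h3 : (univ.filter (fun i : Fin (mR R + 1) => c ^ (R - 0) * (2 * k) ≤
          ((univ : Finset (Fin m)).filter (fun u => π u = i)).card)) = univ := by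
        refine filter_true_of_mem fun i _ => ?_
        exact hπ i
      rw [h3, card_univ, Fintype.card_fin]
      show mR (R - 0) < mR R + 1
      rw [Nat.sub_zero]
      omega
    | succ n ih =>
      intro hn
      obtain ⟨J, hJ1, hJ2⟩ := ih (by omega)
      obtain ⟨a, ha⟩ : ∃ a, R - n = a + 1 := ⟨R - n - 1, by omega⟩
      have ha' : R - (n + 1) = a := by omega
      rw [ha] at hJ2
      rw [ha']
      set q := mR a with hq
      have hq2 : mR (a + 1) = 18 * q / 5 := rfl
      set w := mR (a + 1) + 1 with hw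
      set Ln := c ^ (a + 1) * (2 * k) with hLn
      set Lm := c ^ a * (2 * k) with hLm
      have hLL : Ln = c * Lm := by rw [hLn, hLm]; ring
      have hLm0 : 0 < Lm := by positivity
      obtain ⟨I, hI, hIc⟩ := exists_subset_card_eq (Nat.succ_le_of_lt hJ2)
      have hw1 : w ≤ mR R + 1 := by
        have := card_le_univ I
        rw [Fintype.card_fin] at this
        omega
      have hsub : ∀ i ∈ I, ∃ s ⊆ J.filter (fun u => π u = i), s.card = Ln := fun i hi =>
        exists_subset_card_eq (mem_filter.1 (hI hi)).2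
      choose! s hs hsc using hsub
      set t := I.biUnion s with ht
      have htc : t.card = w * Ln := by
        rw [ht, card_biUnion]
        · rw [sum_congr rfl hsc, sum_const, hIc, smul_eq_mul]
        · intro i hi j hj hij
          rw [Function.onFun, disjoint_left]
          intro u hu hu'
          exact hij ((mem_filter.1 (hs i hi hu)).2.symm.trans (mem_filter.1 (hs j hj hu')).2)
      have htJ : t ⊆ J := by
        intro u hu
        obtain ⟨i, hi, hui⟩ := mem_biUnion.1 hu
        exact (mem_filter.1 (hs i hi hui)).1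
      have hti : ∀ i, (t.filter (fun u => π u = i)).card ≤ Ln := by
        intro i
        by_cases hi : i ∈ I
        · rw [← hsc i hi]
          refine card_le_card ?_
          intro u hu
          obtain ⟨hu1, hu2⟩ := mem_filter.1 hu
          obtain ⟨j, hj, huj⟩ := mem_biUnion.1 hu1
          have : j = i := (mem_filter.1 (hs j hj huj)).2.symm.trans hu2
          rwa [this] at huj
        · have h3 : t.filter (fun u => π u = i) = ∅ := by
            rw [filter_eq_empty_iff]
            intro u hu hui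
            obtain ⟨j, hj, huj⟩ := mem_biUnion.1 hu
            have : j = i := (mem_filter.1 (hs j hj huj)).2.symm.trans hui
            exact hi (this ▸ hj)
          rw [h3, card_empty]
          exact Nat.zero_le _
      have hmaps : ∀ u ∈ t, π u ∈ I := by
        intro u hu
        obtain ⟨j, hj, huj⟩ := mem_biUnion.1 hu
        rw [(mem_filter.1 (hs j hj huj)).2]
        exact hj
      have htne : t.Nonempty := by
        rw [← card_pos, htc, hLL]
        positivity
      obtain ⟨S, hS, hSc, hSσ⟩ := h2 ⟨n, by omega⟩ t htne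
      refine ⟨S, ?_, ?_⟩
      · intro ρ hρ
        by_cases h3 : (ρ : ℕ) < n
        · exact hh ρ _ _ (image_subset_image (hS.trans htJ)) (hJ1 ρ h3)
        · have h4 : ρ = ⟨n, by omega⟩ := Fin.ext (by simp only; omega)
          rw [h4]
          exact h1 _ S hSσ
      · by_contra hcon
        push Not at hcon
        set E := univ.filter (fun i => Lm ≤ (S.filter (fun u => π u = i)).card) with hE
        have h3 : S.card = ∑ i ∈ I, (S.filter (fun u => π u = i)).card :=
          Finset.card_eq_sum_card_fiberwise fun u hu => hmaps u (hS hu)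
        have h4 : ∑ i ∈ I, (S.filter (fun u => π u = i)).card ≤ ∑ i ∈ I, ((if i ∈ E then Ln else 0) + Lm) := by
          refine sum_le_sum fun i _ => ?_
          by_cases hi : i ∈ E
          · rw [if_pos hi]
            have h5 := (card_le_card (filter_subset_filter (fun u => π u = i) hS)).trans (hti i)
            omega
          · rw [if_neg hi]
            have h5 : ¬ Lm ≤ (S.filter (fun u => π u = i)).card := fun h => hi (mem_filter.2 ⟨mem_univ _, h⟩)
            omega
        have h5 : ∑ i ∈ I, ((if i ∈ E then Ln else 0) + Lm) = (I.filter (fun i => i ∈ E)).card * Ln + w * Lm := by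
          rw [sum_add_distrib, sum_const, hIc, smul_eq_mul, ← sum_filter, sum_const, smul_eq_mul]
        have h6 : (I.filter (fun i => i ∈ E)).card ≤ q :=
          (card_le_card (fun i hi => (mem_filter.1 hi).2)).trans hcon
        have h7 : 18 * S.card ≤ 18 * (q * Ln + w * Lm) := by
          have h8 : (I.filter (fun i => i ∈ E)).card * Ln ≤ q * Ln := Nat.mul_le_mul_right _ h6
          omega
        have h8 : 18 * q + 1 ≤ 5 * w := by omega
        have h9 : (18 * q + 1) * Ln ≤ 5 * w * Ln := Nat.mul_le_mul_right _ h8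
        have h10 : 18 * w * Lm ≤ 18 * (mR R + 1) * Lm := Nat.mul_le_mul_right _ (Nat.mul_le_mul_left _ hw1)
        have h11 : Ln = 18 * (mR R + 1) * Lm + Lm := by rw [hLL, hc]; ring
        have h12 : 5 * t.card = 5 * w * Ln := by rw [htc]; ring
        have h13 : (18 * q + 1) * Ln = 18 * (q * Ln) + Ln := by ring
        have h14 : 18 * (q * Ln + w * Lm) = 18 * (q * Ln) + 18 * w * Lm := by ring
        omega
  obtain ⟨J, hJ1, hJ2⟩ := key R le_rfl
  rw [Nat.sub_self] at hJ2
  have h3 : 1 < (univ.filter (fun i => c ^ 0 * (2 * k) ≤ (J.filter (fun u => π u = i)).card)).card := hJ2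
  obtain ⟨i, hi, j, hj, hij⟩ := Finset.one_lt_card.1 h3
  refine ⟨J, fun ρ => hJ1 ρ ρ.2, i, j, hij, ?_, ?_⟩
  · have := (mem_filter.1 hi).2
    simpa using this
  · have := (mem_filter.1 hj).2
    simpa using this

end nested

/-- **Circles with windows which are good for `R` properties.** -/
theorem sys_circles (R k : ℕ) (hk : 1 ≤ k) (K : ℕ → ℕ) (hK : ∀ m, 1 ≤ K m) : ∃ m₁ m₂ C : ℕ,
    ∀ {α : Type} [DecidableEq α] (good : Fin R → Finset α → Prop),
    (∀ ρ (s t : Finset α), s ⊆ t → good ρ t → good ρ s) → ∀ V : Finset α,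
    (∀ ρ, MTc (good ρ) V m₁ (K m₁)) → (∀ ρ, MTc (good ρ) V m₂ (K m₂)) →
    ∃ e : Fin (mR R) → List α, (∀ i, (e i).Nodup) ∧ (∀ i j, i ≠ j → List.Disjoint (e i) (e j)) ∧
      (∀ i, ∀ v ∈ e i, v ∈ V) ∧ (V.filter (fun v => ∀ i, v ∉ e i)).card ≤ C ∧
      ∀ ρ i j, e i ≠ [] → good ρ ((((e i).rotate j).take k).toFinset) := by
  classical
  set D := mR R with hD
  set L : ℕ := (18 * (mR R + 1) + 1) ^ R * (2 * k) with hL
  have hL0 : 0 < L := by positivity
  set m₁ : ℕ := (D + 1) * L with hm₁
  obtain ⟨N₁, hN₁, hpat₁⟩ := pattern R m₁ (K m₁) (hK m₁)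
  set M : ℕ := L * N₁ with hM
  have hM0 : 0 < M := Nat.mul_pos hL0 hN₁
  set m₂ : ℕ := 18 ^ R * M with hm₂
  have hm20 : 1 ≤ m₂ := Nat.mul_pos (by positivity) hM0
  obtain ⟨N₂, hN₂, hpat₂⟩ := pattern R m₂ (K m₂) (hK m₂)
  refine ⟨m₁, m₂, m₂ * N₂, fun {α} _ good hh V hMT₁ hMT₂ => ?_⟩
  have hCl : ∀ Y ⊆ V, m₂ * N₂ + 1 ≤ Y.card → ∃ Q ⊆ Y, Q.card = M ∧ ∀ ρ, good ρ Q := by
      intro Y hYV hY
      obtain ⟨Y', hY', hY'c⟩ := exists_subset_card_eq (le_trans (Nat.le_succ _) hY)
      set ψ : Fin m₂ × Fin N₂ ≃ Y' := (finProdFinEquiv.trans (Y'.equivFinOfCardEq hY'c).symm) with hψ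
      set Z : Fin m₂ → Finset α := fun i => (univ : Finset (Fin N₂)).image (fun j => (ψ (i, j) : α)) with hZ
      have hinj : ∀ u u', (ψ u : α) = ψ u' → u = u' := fun u u' h => ψ.injective (Subtype.ext h)
      obtain ⟨x, σ, hx1, hx2, hx3⟩ := hpat₂ good V hMT₂ Z (by
        intro i v hv
        obtain ⟨j, -, rfl⟩ := mem_image.1 hv
        exact hYV (hY' (ψ _).2)) (by
        intro i
        show N₂ ≤ ((univ : Finset (Fin N₂)).image (fun j => (ψ (i, j) : α))).card
        rw [card_image_of_injective _ (fun j j' h => by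
          have := hinj _ _ h
          simpa using this), card_univ, Fintype.card_fin]) (by
        intro i i' hii
        rw [disjoint_left]
        intro v hv hv'
        obtain ⟨j, -, rfl⟩ := mem_image.1 hv
        obtain ⟨j', -, h⟩ := mem_image.1 hv'
        have := hinj _ _ h
        simp only [Prod.mk.injEq] at this
        exact hii this.1.symm)
      obtain ⟨J, hJ1, hJ2⟩ := nest_frac hh hx2 hx3 hm20
      have hxinj : Function.Injective x := by
        intro i i' h
        obtain ⟨j, -, h1⟩ := mem_image.1 (hx1 i)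
        obtain ⟨j', -, h2⟩ := mem_image.1 (hx1 i')
        have := hinj _ _ (h1.trans (h.trans h2.symm))
        simp only [Prod.mk.injEq] at this
        exact this.1
      have hMJ : M ≤ J.card := by
        have h3 : 5 ^ R * (18 ^ R * M) ≤ 18 ^ R * J.card := hJ2
        have h4 : 18 ^ R * (5 ^ R * M) ≤ 18 ^ R * J.card := by
          calc 18 ^ R * (5 ^ R * M) = 5 ^ R * (18 ^ R * M) := by ring
            _ ≤ _ := h3
        have h5 := Nat.le_of_mul_le_mul_left h4 (by positivity)
        have h6 : 1 * M ≤ 5 ^ R * M := Nat.mul_le_mul_right _ (Nat.one_le_pow _ _ (by norm_num))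
        omega
      obtain ⟨J', hJ', hJ'c⟩ := exists_subset_card_eq hMJ
      refine ⟨J'.image x, ?_, by rw [card_image_of_injective _ hxinj, hJ'c], fun ρ =>
        hh ρ _ _ (image_subset_image hJ') (hJ1 ρ)⟩
      intro v hv
      obtain ⟨i, -, rfl⟩ := mem_image.1 hv
      obtain ⟨j, -, h1⟩ := mem_image.1 (hx1 i)
      rw [← h1]
      exact hY' (ψ _).2
  by_cases hV : V.card < m₂ * N₂ + 1
  · exact ⟨fun _ => [], fun _ => List.nodup_nil, fun i j _ v hv => by simp at hv, fun i v hv => by simp at hv,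
      (card_le_card (filter_subset _ _)).trans (by omega), fun ρ i j h => absurd rfl h⟩
  have h0 : ∀ ρ, good ρ ∅ := by
    obtain ⟨Q, -, -, hQ⟩ := hCl V (Subset.refl _) (by omega)
    exact fun ρ => hh ρ _ _ (empty_subset _) (hQ ρ)
  obtain ⟨e, he1, he2, he3, he4, he5⟩ := win_circles (G := fun s => ∀ ρ, good ρ s) (V := V) (k := k) (M := M)
    (R₀ := m₂ * N₂ + 1) (D := D) (fun s t hst h ρ => hh ρ s t hst (h ρ)) h0 hM0 hCl (by
      intro Q hQ hQd
      -- the classes
      have hψe : ∀ i, ∃ ψ : Fin L × Fin N₁ → α, Function.Injective ψ ∧ ∀ u, ψ u ∈ Q i := by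
        intro i
        refine ⟨fun u => (((Q i).equivFinOfCardEq (hQ i).2.1).symm (finProdFinEquiv u) : α), ?_, fun u => Subtype.mem _⟩
        intro u u' h
        exact finProdFinEquiv.injective (((Q i).equivFinOfCardEq (hQ i).2.1).symm.injective (Subtype.ext h))
      choose ψ hψ1 hψ2 using hψe
      set ε : Fin m₁ ≃ Fin (D + 1) × Fin L := finProdFinEquiv.symm with hε
      set Z : Fin m₁ → Finset α := fun u => (univ : Finset (Fin N₁)).image (fun j => ψ (ε u).1 ((ε u).2, j)) with hZ
      have hZQ : ∀ u, ∀ v ∈ Z u, v ∈ Q (ε u).1 := by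
        intro u v hv
        obtain ⟨j, -, rfl⟩ := mem_image.1 hv
        exact hψ2 _ _
      have hZd : ∀ u u', u ≠ u' → Disjoint (Z u) (Z u') := by
        intro u u' huu
        rw [disjoint_left]
        intro v hv hv'
        have h1 : (ε u).1 = (ε u').1 := by
          by_contra hne
          exact disjoint_left.1 (hQd _ _ hne) (hZQ u v hv) (hZQ u' v hv')
        obtain ⟨j, -, h2⟩ := mem_image.1 hv
        obtain ⟨j', -, h3⟩ := mem_image.1 hv'
        rw [← h1] at h3
        have h4 := hψ1 _ (h2.trans h3.symm)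
        simp only [Prod.mk.injEq] at h4
        exact huu (ε.injective (Prod.ext h1 h4.1))
      obtain ⟨x, σ, hx1, hx2, hx3⟩ := hpat₁ good V hMT₁ Z (fun u v hv => (hQ _).1 (hZQ u v hv)) (by
        intro u
        show N₁ ≤ ((univ : Finset (Fin N₁)).image (fun j => ψ (ε u).1 ((ε u).2, j))).card
        rw [card_image_of_injective _ (fun j j' h => by
          have := hψ1 _ h
          simpa using this), card_univ, Fintype.card_fin]) hZd
      have hxinj : Function.Injective x := by
        intro u u' h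
        by_contra hne
        have h1 := hx1 u'
        rw [← h] at h1
        exact disjoint_left.1 (hZd u u' hne) (hx1 u) h1
      obtain ⟨J, hJ1, i, j, hij, hi, hj⟩ := nest_link hh hx2 hx3 hk (fun u => (ε u).1) (by
        intro i
        have h1 : (univ : Finset (Fin L)).card ≤ (univ.filter (fun u => (ε u).1 = i)).card := by
          refine Finset.card_le_card_of_injOn (fun l => ε.symm (i, l)) ?_ ?_
          · intro l _
            rw [mem_coe, mem_filter]
            refine ⟨mem_univ _, ?_⟩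
            rw [Equiv.apply_symm_apply]
          · intro l _ l' _ h
            have := ε.symm.injective h
            simpa using this
        rwa [card_univ, Fintype.card_fin] at h1)
      have hcount : ∀ i, (J.filter (fun u => (ε u).1 = i)).card ≤ ((J.image x) ∩ Q i).card := by
        intro i
        rw [← card_image_of_injective _ hxinj]
        refine card_le_card ?_
        intro v hv
        obtain ⟨u, hu, rfl⟩ := mem_image.1 hv
        obtain ⟨hu1, hu2⟩ := mem_filter.1 hu
        refine mem_inter.2 ⟨mem_image_of_mem _ hu1, ?_⟩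
        rw [← hu2]
        exact hZQ u _ (hx1 u)
      exact ⟨i, j, hij, J.image x, hJ1, hi.trans (hcount i), hj.trans (hcount j)⟩)
  exact ⟨e, he1, he2, he3, Nat.lt_succ_iff.1 he4, fun ρ i j _ => he5 i j ρ⟩

end Pool.Agent.Run7.h756.CC
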