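import Mathlib
import Pool.Agent.Y827.HN.Pat
import Pool.Agent.Run7.h756.CC.Sys

/-!
# Circles of linear forms all of whose windows have all patterns along narrow progressions

The coloured Maynard-Tao theorem with all patterns along narrow progressions (`Pool.Agent.Y827.HN.patRD`) is from
the starting files.
-/

set_option autoImplicit false
set_option linter.unusedSectionVars false

namespace Pool.Agent.Run7.h756.CC

open Finset Filter
open Pool.Agent.Y827.HN (AllP AllP_anti AllP_mono AllP_len patRD QX cntX)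
open Pool.Agent.R493.SI (mR mR_pos)

/-- for every finite set `U` of primitive forms outside `V` and every length `l` there is `C` such that for
arbitrarily large `N` all patterns on `F` occur along narrow progressions of length `l` -/
def Pats (V F : Finset (ℤ × ℤ)) : Prop :=
  ∀ U : Finset (ℤ × ℤ), (∀ u ∈ U, 0 < u.1 ∧ IsCoprime u.1 u.2 ∧ u ∉ V) → ∀ l : ℕ, ∃ C : ℕ,
    ∃ᶠ N : ℕ in atTop, AllP U l C N F

theorem pats_anti {V F F' : Finset (ℤ × ℤ)} (h : F' ⊆ F) (hF : Pats V F) : Pats V F' := by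
  intro U hU l
  obtain ⟨C, hC⟩ := hF U hU l
  exact ⟨C, hC.mono fun N hN => AllP_anti h hN⟩

open Classical in
/-- classes of forms -/
theorem classP (T : ℕ) : ∃ K : ℕ, 1 ≤ K ∧ (1 ≤ T → ∀ (V : Finset (ℤ × ℤ)) (H : Fin T → Fin K → ℤ × ℤ),
    Function.Injective (fun x : Fin T × Fin K => H x.1 x.2) → (∀ g i, H g i ∈ V) →
    (∀ g i, 0 < (H g i).1 ∧ IsCoprime (H g i).1 (H g i).2) →
    (∀ p : ℕ, p.Prime → p ≤ T * K → ∃ r : ℤ, ∀ g i, ¬ (p : ℤ) ∣ (H g i).1 * r + (H g i).2) →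
    ∃ (S : Finset (Fin T)) (c : Fin T → Fin K), 5 * T ≤ 18 * S.card ∧
      Pats V (S.image (fun g => H g (c g)))) := by
  obtain ⟨K, hK, h⟩ := patRD T
  refine ⟨K, hK, fun hT V H hinj hHV hpos hloc => ?_⟩
  set U : ℕ → Finset (ℤ × ℤ) := fun n => (((Icc (1 : ℤ) n) ×ˢ (Icc (-(n : ℤ)) n)).filter
      (fun z => IsCoprime z.1 z.2 ∧ z ∉ V)) with hU
  have h1 : ∀ n, ∃ P : Finset (Fin T) × (Fin T → Fin K), (T : ℝ) ≤ (18 / 5) * (P.1.card : ℝ) ∧ ∃ C : ℕ,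
      ∃ᶠ N : ℕ in atTop, AllP (U n) n C N (P.1.image (fun g => H g (P.2 g))) := by
    intro n
    obtain ⟨C, hC⟩ := h hT H hinj hpos hloc (U n) (by
      intro u hu
      obtain ⟨h1, h2, h3⟩ := mem_filter.1 hu
      have h4 := (mem_Icc.1 (mem_product.1 h1).1).1
      exact ⟨by omega, h2, fun g i he => h3 (he ▸ hHV g i)⟩) n
    by_contra hcon
    push Not at hcon
    have h2 : ∀ᶠ N : ℕ in atTop, ∀ P : Finset (Fin T) × (Fin T → Fin K), ¬ ((T : ℝ) ≤ (18 / 5) * (P.1.card : ℝ) ∧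
        AllP (U n) n C N (P.1.image (fun g => H g (P.2 g)))) := by
      rw [Filter.eventually_all]
      intro P
      by_cases hP : (T : ℝ) ≤ (18 / 5) * (P.1.card : ℝ)
      · filter_upwards [hcon P hP C] with N hN hA
        exact hN hA.2
      · exact Eventually.of_forall fun N hA => hP hA.1
    obtain ⟨N, ⟨S, c, h3, h4⟩, h5⟩ := (hC.and h2).exists
    exact h5 (S, c) ⟨h3, h4⟩
  choose P hP1 C hC using h1
  obtain ⟨P₀, hP₀⟩ := Finite.exists_infinite_fiber P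
  have hinf : (P ⁻¹' {P₀}).Infinite := Set.infinite_coe_iff.1 hP₀
  obtain ⟨n₀, hn₀⟩ := hinf.nonempty
  have hn₀' : P n₀ = P₀ := hn₀
  refine ⟨P₀.1, P₀.2, ?_, ?_⟩
  · have h2 := hP1 n₀
    rw [hn₀'] at h2
    have h3 : (5 * T : ℝ) ≤ 18 * P₀.1.card := by linarith
    exact_mod_cast h3
  · intro W hW l
    obtain ⟨n₁, hn₁⟩ : ∃ n₁ : ℕ, ∀ z ∈ W, z.1.natAbs + z.2.natAbs ≤ n₁ := by
      refine ⟨∑ z ∈ W, (z.1.natAbs + z.2.natAbs), fun z hz => ?_⟩
      exact Finset.single_le_sum (f := fun z : ℤ × ℤ => z.1.natAbs + z.2.natAbs) (fun _ _ => Nat.zero_le _) hz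
    obtain ⟨n, hn, hnl⟩ := hinf.exists_gt (n₁ + l)
    have hn' : P n = P₀ := hn
    refine ⟨C n, (hC n).mono fun N hN => ?_⟩
    rw [hn'] at hN
    refine AllP_len ?_ (by omega) hN
    intro z hz
    obtain ⟨h2, h3, h4⟩ := hW z hz
    have h5 := hn₁ z hz
    refine mem_filter.2 ⟨mem_product.2 ⟨mem_Icc.2 ⟨?_, ?_⟩, mem_Icc.2 ⟨?_, ?_⟩⟩, h3, h4⟩ <;> omega

open Classical in
/-- any `T ≤ r` classes of `K` linear forms -/
theorem classesP (r : ℕ) : ∃ K : ℕ, 1 ≤ K ∧ ∀ T : ℕ, 1 ≤ T → T ≤ r → ∀ (V : Finset (ℤ × ℤ))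
    (H : Fin T → Fin K → ℤ × ℤ), Function.Injective (fun x : Fin T × Fin K => H x.1 x.2) → (∀ g i, H g i ∈ V) →
    (∀ g i, 0 < (H g i).1 ∧ IsCoprime (H g i).1 (H g i).2) →
    (∀ p : ℕ, p.Prime → p ≤ r * K → ∃ r : ℤ, ∀ g i, ¬ (p : ℤ) ∣ (H g i).1 * r + (H g i).2) →
    ∃ (S : Finset (Fin T)) (c : Fin T → Fin K), 5 * T ≤ 18 * S.card ∧ Pats V (S.image (fun g => H g (c g))) := by
  choose Kf hKf1 hKf using classP
  set K : ℕ := ∑ T ∈ range (r + 1), Kf T with hK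
  have hle : ∀ T ≤ r, Kf T ≤ K := fun T hT =>
    Finset.single_le_sum (f := Kf) (fun _ _ => Nat.zero_le _) (mem_range.2 (by omega))
  refine ⟨K, (hKf1 0).trans (hle 0 (Nat.zero_le _)), fun T hT hTr V H hinj hHV hpos hloc => ?_⟩
  obtain ⟨S, c, h1, h2⟩ := hKf T hT V (fun g i => H g (Fin.castLE (hle T hTr) i)) (by
    intro x y hxy
    have h1 := hinj (a₁ := (x.1, Fin.castLE (hle T hTr) x.2)) (a₂ := (y.1, Fin.castLE (hle T hTr) y.2)) hxy
    rw [Prod.mk.injEq] at h1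
    exact Prod.ext h1.1 (Fin.castLE_injective _ h1.2)) (fun g i => hHV _ _) (fun g i => hpos _ _)
    (fun p hp hle' => by
      obtain ⟨r', hr'⟩ := hloc p hp (hle'.trans (Nat.mul_le_mul hTr (hle T hTr)))
      exact ⟨r', fun g i => hr' _ _⟩)
  exact ⟨S, fun g => Fin.castLE (hle T hTr) (c g), h1, h2⟩

/-- all patterns occur on `F`; at most `J` members of `V` are not known to be composite -/
def PatsJ (J : ℕ) (V F : Finset (ℤ × ℤ)) : Prop := ∃ T ⊆ V, F ⊆ T ∧ T.card ≤ J ∧ Pats T F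

theorem patsJ_anti {J : ℕ} {V F F' : Finset (ℤ × ℤ)} (h : F' ⊆ F) (hF : PatsJ J V F) : PatsJ J V F' := by
  obtain ⟨T, h1, h2, h3, h4⟩ := hF
  exact ⟨T, h1, h.trans h2, h3, pats_anti h h4⟩

theorem patsJ_mono {J J' : ℕ} {V F : Finset (ℤ × ℤ)} (h : J ≤ J') (hF : PatsJ J V F) : PatsJ J' V F := by
  obtain ⟨T, h1, h2, h3, h4⟩ := hF
  exact ⟨T, h1, h2, h3.trans h, h4⟩

theorem mtcP (m : ℕ) : ∃ K : ℕ, 1 ≤ K ∧ ∀ {α : Type} [DecidableEq α] (V : Finset α) (f : α → ℤ × ℤ) (J : ℕ),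
    m * K ≤ J → Set.InjOn f V → (∀ v ∈ V, 0 < (f v).1 ∧ IsCoprime (f v).1 (f v).2) →
    (∀ p : ℕ, p.Prime → p ≤ m * K → ∃ r : ℤ, ∀ v ∈ V, ¬ (p : ℤ) ∣ (f v).1 * r + (f v).2) →
    MTc (fun s => PatsJ J (V.image f) (s.image f)) V m K := by
  classical
  obtain ⟨K, hK, h⟩ := classesP m
  refine ⟨K, hK, fun {α} _ V f J hJ hf hpos hloc t ht A hA hAV => ?_⟩
  set e := t.orderEmbOfFin rfl with he
  have hemem : ∀ g, e g ∈ t := fun g => t.orderEmbOfFin_mem rfl g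
  have htm : t.card ≤ m := by
    have := card_le_univ t
    rwa [Fintype.card_fin] at this
  set Box : Finset (ℤ × ℤ) := (univ : Finset (Fin t.card × Fin K)).image (fun u => f (A (e u.1) u.2)) with hBox
  obtain ⟨S, c, hS, hP⟩ := h t.card (card_pos.2 ht) htm Box (fun g i => f (A (e g) i)) (by
    rintro ⟨g, i⟩ ⟨g', i'⟩ hxy
    have h1 : A (e g) i = A (e g') i' := hf (mem_coe.2 (hAV _ _)) (mem_coe.2 (hAV _ _)) hxy
    have h2 := hA (a₁ := (e g, i)) (a₂ := (e g', i')) h1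
    simp only [Prod.mk.injEq] at h2
    exact Prod.ext (e.injective h2.1) h2.2) (fun g i => mem_image_of_mem (fun u : Fin t.card × Fin K =>
      f (A (e u.1) u.2)) (mem_univ (g, i)))
    (fun g i => hpos _ (hAV _ _)) (fun p hp hle => by
      obtain ⟨r, hr⟩ := hloc p hp hle
      exact ⟨r, fun g i => hr _ (hAV _ _)⟩)
  refine ⟨S.map e.toEmbedding, ?_, ?_, Function.extend e c (fun _ => ⟨0, hK⟩), ?_⟩
  · intro i hi
    obtain ⟨g, _, rfl⟩ := Finset.mem_map.1 hi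
    exact hemem g
  · rw [card_map]
    exact hS
  · have e1 : ((S.map e.toEmbedding).image (fun i => A i (Function.extend e c (fun _ => ⟨0, hK⟩) i))).image f =
        S.image (fun g => f (A (e g) (c g))) := by
      ext z
      simp only [mem_image, Finset.mem_map]
      constructor
      · rintro ⟨a, ⟨i, ⟨g, hg, rfl⟩, rfl⟩, rfl⟩
        refine ⟨g, hg, ?_⟩
        have e2 : (e.toEmbedding : Fin t.card → Fin m) = e := rfl
        rw [e2, e.injective.extend_apply]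
      · rintro ⟨g, hg, rfl⟩
        refine ⟨_, ⟨e g, ⟨g, hg, rfl⟩, rfl⟩, ?_⟩
        rw [e.injective.extend_apply]
    show PatsJ J (V.image f) _
    rw [e1]
    refine ⟨Box, ?_, ?_, ?_, hP⟩
    · intro z hz
      obtain ⟨u, -, rfl⟩ := mem_image.1 hz
      exact mem_image_of_mem _ (hAV _ _)
    · intro z hz
      obtain ⟨g, -, rfl⟩ := mem_image.1 hz
      exact mem_image_of_mem (fun u : Fin t.card × Fin K => f (A (e u.1) u.2)) (mem_univ (g, c g))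
    · refine card_image_le.trans ?_
      rw [card_univ, Fintype.card_prod, Fintype.card_fin, Fintype.card_fin]
      exact (Nat.mul_le_mul_right K htm).trans hJ

/-- **Circles of linear forms.** -/
theorem pat_circles (R k : ℕ) (hk : 1 ≤ k) : ∃ C B : ℕ, ∀ {α : Type} [DecidableEq α] (V : Finset α)
    (f : Fin R → α → ℤ × ℤ), (∀ ρ, Set.InjOn (f ρ) V) →
    (∀ ρ, ∀ v ∈ V, 0 < (f ρ v).1 ∧ IsCoprime (f ρ v).1 (f ρ v).2) →
    (∀ ρ, ∀ p : ℕ, p.Prime → p ≤ B → ∃ r : ℤ, ∀ v ∈ V, ¬ (p : ℤ) ∣ (f ρ v).1 * r + (f ρ v).2) →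
    ∃ e : Fin (mR R) → List α, (∀ i, (e i).Nodup) ∧ (∀ i j, i ≠ j → List.Disjoint (e i) (e j)) ∧
      (∀ i, ∀ v ∈ e i, v ∈ V) ∧ (V.filter (fun v => ∀ i, v ∉ e i)).card ≤ C ∧
      ∀ ρ i j, e i ≠ [] → PatsJ B (V.image (f ρ)) (((((e i).rotate j).take k).toFinset).image (f ρ)) := by
  choose K hK hMT using mtcP
  obtain ⟨m₁, m₂, C, h⟩ := sys_circles R k hk K hK
  refine ⟨C, m₁ * K m₁ + m₂ * K m₂, fun {α} _ V f hf hpos hloc => ?_⟩
  exact h (fun ρ s => PatsJ (m₁ * K m₁ + m₂ * K m₂) (V.image (f ρ)) (s.image (f ρ)))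
    (fun ρ s t hst ht => patsJ_anti (image_subset_image hst) ht)
    V (fun ρ => hMT m₁ V (f ρ) _ (by omega) (hf ρ) (hpos ρ) (fun p hp hp2 => hloc ρ p hp (by omega)))
    (fun ρ => hMT m₂ V (f ρ) _ (by omega) (hf ρ) (hpos ρ) (fun p hp hp2 => hloc ρ p hp (by omega)))

end Pool.Agent.Run7.h756.CC
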