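import Mathlib
import Pool.Agent.R493.SC.Tup
import Pool.Agent.Run7.h756.CC.Sys

/-!
# Circles of linear forms at several scales

The theorem on classes of linear forms at every scale (`Pool.Agent.R493.SC.classesN`, from
`Pool.Agent.Y827.RO.lamRD`) is from the starting files.
-/

set_option autoImplicit false
set_option linter.unusedSectionVars false

namespace Pool.Agent.Run7.h756.CC

open Finset Filter
open Pool.Agent.Y827.GS (cntN cntN_anti Adf)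
open Pool.Agent.R493.SI (mR mR_pos)

/-- the forms in `F` are often prime together up to `N` -/
def Oft (C N : ℕ) (F : Finset (ℤ × ℤ)) : Prop := (N : ℝ) / (Real.log N) ^ C ≤ (cntN F N : ℝ)

theorem oft_anti {C N : ℕ} {F F' : Finset (ℤ × ℤ)} (h : F' ⊆ F) (hF : Oft C N F) : Oft C N F' := by
  unfold Oft at hF ⊢
  refine hF.trans ?_
  exact_mod_cast cntN_anti h N

theorem oft_mono {C C' N : ℕ} (hC : C ≤ C') (hN : 1 ≤ Real.log N) {F : Finset (ℤ × ℤ)} (hF : Oft C N F) :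
    Oft C' N F := by
  unfold Oft at hF ⊢
  refine le_trans ?_ hF
  have h1 : (Real.log N) ^ C ≤ (Real.log N) ^ C' := pow_le_pow_right₀ hN hC
  have h2 : 0 < (Real.log N) ^ C := by positivity
  exact div_le_div_of_nonneg_left (Nat.cast_nonneg _) h2 h1

theorem mtcN (m : ℕ) : ∃ K C : ℕ, 1 ≤ K ∧ ∀ A : ℕ, ∃ N₀ : ℕ, ∀ N : ℕ, N₀ ≤ N →
    ∀ {α : Type} [DecidableEq α] (V : Finset α) (f : α → ℤ × ℤ) (C' : ℕ), C ≤ C' →
    Set.InjOn f V → (∀ v ∈ V, Adf A N (f v)) →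
    (∀ p : ℕ, p.Prime → p ≤ m * K → ∃ r : ℤ, ∀ v ∈ V, ¬ (p : ℤ) ∣ (f v).1 * r + (f v).2) →
    MTc (fun s => Oft C' N (s.image f)) V m K := by
  classical
  obtain ⟨K, C, hK, h⟩ := Pool.Agent.R493.SC.classesN m
  refine ⟨K, C, hK, fun A => ?_⟩
  obtain ⟨N₀, hN₀⟩ := h A
  refine ⟨N₀ + 3, fun N hN {α} _ V f C' hC' hf had hloc t ht A' hA hAV => ?_⟩
  have hlog : 1 ≤ Real.log N := Pool.Agent.Y827.RO.log_ge_one (by omega)
  set e := t.orderEmbOfFin rfl with he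
  have hemem : ∀ g, e g ∈ t := fun g => t.orderEmbOfFin_mem rfl g
  have htm : t.card ≤ m := by
    have := card_le_univ t
    rwa [Fintype.card_fin] at this
  obtain ⟨S, c, hS, hP⟩ := hN₀ N (by omega) t.card htm (fun g i => f (A' (e g) i)) (by
    rintro ⟨g, i⟩ ⟨g', i'⟩ hxy
    have h1 : A' (e g) i = A' (e g') i' := hf (mem_coe.2 (hAV _ _)) (mem_coe.2 (hAV _ _)) hxy
    have h2 := hA (a₁ := (e g, i)) (a₂ := (e g', i')) h1
    simp only [Prod.mk.injEq] at h2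
    exact Prod.ext (e.injective h2.1) h2.2) (fun g i => had _ (hAV _ _)) (fun p hp hle => by
      obtain ⟨r, hr⟩ := hloc p hp hle
      exact ⟨r, fun g i => hr _ (hAV _ _)⟩)
  refine ⟨S.map e.toEmbedding, ?_, ?_, Function.extend e c (fun _ => ⟨0, hK⟩), ?_⟩
  · intro i hi
    obtain ⟨g, _, rfl⟩ := Finset.mem_map.1 hi
    exact hemem g
  · rw [card_map]
    exact hS
  · have e1 : ((S.map e.toEmbedding).image (fun i => A' i (Function.extend e c (fun _ => ⟨0, hK⟩) i))).image f =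
        S.image (fun g => f (A' (e g) (c g))) := by
      ext z
      simp only [mem_image, Finset.mem_map]
      constructor
      · rintro ⟨a, ⟨i, ⟨g, hg, rfl⟩, rfl⟩, rfl⟩
        refine ⟨g, hg, ?_⟩
        have e2 : (e.toEmbedding : Fin t.card → Fin m) = e := rfl
        rw [e2, e.injective.extend_apply]
      · rintro ⟨g, hg, rfl⟩
        refine ⟨_, ⟨e g, ⟨g, hg, rfl⟩, rfl⟩, ?_⟩
        rw [e.injective.extend_apply]
    show Oft C' N _
    rw [e1]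
    exact oft_mono hC' hlog hP

/-- **Circles of linear forms at several scales.** -/
theorem scale_circles (R k : ℕ) (hk : 1 ≤ k) : ∃ C B : ℕ, ∀ A : ℕ, ∃ N₀ : ℕ, ∀ N : Fin R → ℕ,
    (∀ ρ, N₀ ≤ N ρ) → ∀ {α : Type} [DecidableEq α] (V : Finset α) (f : Fin R → α → ℤ × ℤ),
    (∀ ρ, Set.InjOn (f ρ) V) → (∀ ρ, ∀ v ∈ V, Adf A (N ρ) (f ρ v)) →
    (∀ ρ, ∀ p : ℕ, p.Prime → p ≤ B → ∃ r : ℤ, ∀ v ∈ V, ¬ (p : ℤ) ∣ (f ρ v).1 * r + (f ρ v).2) →
    ∃ e : Fin (mR R) → List α, (∀ i, (e i).Nodup) ∧ (∀ i j, i ≠ j → List.Disjoint (e i) (e j)) ∧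
      (∀ i, ∀ v ∈ e i, v ∈ V) ∧ (V.filter (fun v => ∀ i, v ∉ e i)).card ≤ C ∧
      ∀ ρ i j, e i ≠ [] → Oft B (N ρ) (((((e i).rotate j).take k).toFinset).image (f ρ)) := by
  choose K Cf hK hMT using mtcN
  obtain ⟨m₁, m₂, C, h⟩ := sys_circles R k hk K hK
  refine ⟨C, m₁ * K m₁ + m₂ * K m₂ + Cf m₁ + Cf m₂, fun A => ?_⟩
  obtain ⟨N₁, hN₁⟩ := hMT m₁ A
  obtain ⟨N₂, hN₂⟩ := hMT m₂ A
  refine ⟨N₁ + N₂, fun N hN {α} _ V f hf had hloc => ?_⟩
  exact h (fun ρ s => Oft (m₁ * K m₁ + m₂ * K m₂ + Cf m₁ + Cf m₂) (N ρ) (s.image (f ρ)))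
    (fun ρ s t hst ht => oft_anti (image_subset_image hst) ht)
    V (fun ρ => hN₁ (N ρ) (by have := hN ρ; omega) V (f ρ) _ (by omega) (hf ρ) (had ρ)
      (fun p hp hp2 => hloc ρ p hp (by omega)))
    (fun ρ => hN₂ (N ρ) (by have := hN ρ; omega) V (f ρ) _ (by omega) (hf ρ) (had ρ)
      (fun p hp hp2 => hloc ρ p hp (by omega)))

end Pool.Agent.Run7.h756.CC
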