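import Mathlib
import Pool.Agent.R493.SC.Geo
import Pool.Agent.Run7.h756.CC.Scale

/-!
# Circles of fixed linear forms at several scales, in the intervals `[N, D N]`
-/

set_option autoImplicit false
set_option linter.unusedSectionVars false

namespace Pool.Agent.Run7.h756.CC

open Finset Filter
open Pool.Agent.Y827.GS (cntN cntN_anti Adf)
open Pool.Agent.R493.SI (mR mR_pos)
open Pool.Agent.R493.SC (log_loss)

/-- the number of the `n ∈ [N, D N]` for which all forms in `F` are prime -/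
def cntI (F : Finset (ℤ × ℤ)) (D N : ℕ) : ℕ :=
  ((Icc N (D * N)).filter (fun n : ℕ => ∀ f ∈ F, (f.1 * (n : ℤ) + f.2).toNat.Prime)).card

/-- the form in the variable `n - N - E` -/
def shf (E N : ℕ) (f : ℤ × ℤ) : ℤ × ℤ := (f.1, f.1 * (N + E) + f.2)

theorem shf_inj (E N : ℕ) : Function.Injective (shf E N) := by
  rintro ⟨a, b⟩ ⟨a', b'⟩ h
  simp only [shf, Prod.mk.injEq] at h
  obtain ⟨h1, h2⟩ := h
  subst h1
  exact Prod.ext rfl (by simpa using h2)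

theorem shf_adf {f : ℤ × ℤ} {E N : ℕ} (hs : 1 ≤ f.1) (hsE : f.1 ≤ E) (hcE : |f.2| ≤ E)
    (hc : IsCoprime f.1 f.2) (hN : E ≤ N) : Adf E (4 * E * N) (shf E N f) := by
  obtain ⟨s, c⟩ := f
  simp only at hs hsE hcE hc
  have hNz : (E : ℤ) ≤ N := by exact_mod_cast hN
  have hEz : (1 : ℤ) ≤ E := hs.trans hsE
  have hc1 := abs_le.1 hcE
  refine ⟨by show s ≠ 0; omega, ?_, ?_, ?_, ?_⟩
  · show |s| ≤ E
    rw [abs_of_pos (by omega)]
    exact hsE
  · show |s * (N + E) + c| ≤ ((4 * E * N : ℕ) : ℤ)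
    rw [abs_le]
    have h2 : (0 : ℤ) ≤ s * (N + E) := by positivity
    have h3 : s * (N + E) ≤ E * (N + E) := mul_le_mul_of_nonneg_right hsE (by positivity)
    push_cast
    constructor <;> nlinarith
  · show IsCoprime s (s * (N + E) + c)
    exact hc.mul_add_left_right _
  · intro t ht1 ht2
    have h1r : (1 : ℝ) ≤ (s : ℝ) := by exact_mod_cast hs
    have hcr : (-(E : ℝ)) ≤ ((c : ℤ) : ℝ) := by exact_mod_cast hc1.1
    have hNr : (E : ℝ) ≤ N := by exact_mod_cast hN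
    have hE0 : (0 : ℝ) ≤ E := Nat.cast_nonneg _
    have ht0 : 0 ≤ t := le_trans (by positivity) ht1
    have e1 : ((s * (N + E) + c : ℤ) : ℝ) = (s : ℝ) * (N + E) + (c : ℝ) := by
      push_cast; ring
    show ((4 * E * N : ℕ) : ℝ) / 24 ≤ (s : ℝ) * t + ((s * (N + E) + c : ℤ) : ℝ)
    rw [e1]
    have h4 : t ≤ (s : ℝ) * t := le_mul_of_one_le_left ht0 h1r
    have h5 : ((N : ℝ) + E) ≤ (s : ℝ) * (N + E) := le_mul_of_one_le_left (by positivity) h1r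
    have h6 : ((4 * E * N : ℕ) : ℝ) / 24 ≤ ((4 * E * N : ℕ) : ℝ) / 16 := by
      have : (0 : ℝ) ≤ ((4 * E * N : ℕ) : ℝ) := Nat.cast_nonneg _
      linarith
    linarith

theorem cntN_le_cntI {E N : ℕ} (hE1 : 1 ≤ E) (hEN : E ≤ N) (F : Finset (ℤ × ℤ)) :
    cntN (F.image (shf E N)) (4 * E * N) ≤ cntI F (6 * E) N := by
  unfold cntN cntI
  rw [← card_image_of_injective (f := fun n : ℕ => n + N + E) _ (by
    intro m m' hm
    simp only at hm
    omega)]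
  apply card_le_card
  intro x hx
  obtain ⟨n, hn, rfl⟩ := mem_image.1 hx
  obtain ⟨h1, h2⟩ := mem_filter.1 hn
  rw [mem_Icc] at h1
  refine mem_filter.2 ⟨mem_Icc.2 ⟨by omega, ?_⟩, fun f hf => ?_⟩
  · have h3 : N + E ≤ 2 * E * N := by nlinarith
    nlinarith
  · have h3 := h2 _ (mem_image_of_mem _ hf)
    simp only [shf] at h3
    have e : f.1 * ((n + N + E : ℕ) : ℤ) + f.2 = f.1 * (n : ℤ) + (f.1 * (N + E) + f.2) := by
      push_cast
      ring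
    rw [e]
    exact h3

/-- **Circles of fixed linear forms at several scales.** -/
theorem lin_circles (R k : ℕ) (hk : 1 ≤ k) : ∃ C B : ℕ, ∀ {α : Type} [DecidableEq α] (V : Finset α)
    (f : Fin R → α → ℤ × ℤ), (∀ ρ, Set.InjOn (f ρ) V) →
    (∀ ρ, ∀ v ∈ V, 0 < (f ρ v).1 ∧ IsCoprime (f ρ v).1 (f ρ v).2) →
    (∀ ρ, ∀ p : ℕ, p.Prime → p ≤ B → ∃ r : ℤ, ∀ v ∈ V, ¬ (p : ℤ) ∣ (f ρ v).1 * r + (f ρ v).2) →
    ∃ D N₀ : ℕ, ∀ N : Fin R → ℕ, (∀ ρ, N₀ ≤ N ρ) →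
    ∃ e : Fin (mR R) → List α, (∀ i, (e i).Nodup) ∧ (∀ i j, i ≠ j → List.Disjoint (e i) (e j)) ∧
      (∀ i, ∀ v ∈ e i, v ∈ V) ∧ (V.filter (fun v => ∀ i, v ∉ e i)).card ≤ C ∧
      ∀ ρ i j, e i ≠ [] → (N ρ : ℝ) / (Real.log (N ρ)) ^ B ≤
        (cntI (((((e i).rotate j).take k).toFinset).image (f ρ)) D (N ρ) : ℝ) := by
  classical
  obtain ⟨C, B, h⟩ := scale_circles R k hk
  refine ⟨C, B + 1, fun {α} _ V f hf hpos hloc => ?_⟩
  set E : ℕ := ∑ ρ, ∑ v ∈ V, ((f ρ v).1.natAbs + (f ρ v).2.natAbs) + 1 with hE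
  have hE0 : 1 ≤ E := Nat.le_add_left _ _
  have hE1 : ∀ ρ, ∀ v ∈ V, (f ρ v).1.natAbs + (f ρ v).2.natAbs ≤ E := by
    intro ρ v hv
    have h1 := Finset.single_le_sum (f := fun v => (f ρ v).1.natAbs + (f ρ v).2.natAbs)
      (fun _ _ => Nat.zero_le _) hv
    have h2 := Finset.single_le_sum (f := fun ρ => ∑ v ∈ V, ((f ρ v).1.natAbs + (f ρ v).2.natAbs))
      (fun _ _ => Nat.zero_le _) (mem_univ ρ)
    omega
  obtain ⟨N₀, hN₀⟩ := h E
  obtain ⟨N₁, hN₁⟩ := log_loss B (4 * E) (by omega)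
  refine ⟨6 * E, N₀ + N₁ + E, fun N hN => ?_⟩
  have hNE : ∀ ρ, E ≤ N ρ := fun ρ => (Nat.le_add_left _ _).trans (hN ρ)
  obtain ⟨e, he1, he2, he3, he4, he5⟩ := hN₀ (fun ρ => 4 * E * N ρ) (fun ρ => by
      have h2 := hN ρ
      have h3 : 1 * N ρ ≤ 4 * E * N ρ := Nat.mul_le_mul_right _ (by omega)
      show N₀ ≤ 4 * E * N ρ
      omega) V (fun ρ v => shf E (N ρ) (f ρ v))
    (fun ρ v hv w hw hvw => hf ρ hv hw (shf_inj _ _ hvw))
    (fun ρ v hv => by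
      have h1 := hE1 ρ v hv
      have h2 := (hpos ρ v hv).1
      refine shf_adf (by omega) (by omega) ?_ (hpos ρ v hv).2 (hNE ρ)
      rw [Int.abs_eq_natAbs]
      exact_mod_cast (by omega : (f ρ v).2.natAbs ≤ E))
    (fun ρ p hp hpB => by
      obtain ⟨r, hr⟩ := hloc ρ p hp (by omega)
      refine ⟨r - (N ρ + E), fun v hv hd => hr v hv ?_⟩
      have e1 : (shf E (N ρ) (f ρ v)).1 * (r - (N ρ + E)) + (shf E (N ρ) (f ρ v)).2 =
          (f ρ v).1 * r + (f ρ v).2 := by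
        simp only [shf]
        ring
      rwa [e1] at hd)
  refine ⟨e, he1, he2, he3, he4, fun ρ i j hne => ?_⟩
  have h1 := he5 ρ i j hne
  unfold Oft at h1
  refine (hN₁ (N ρ) (by have := hN ρ; omega)).trans (h1.trans ?_)
  rw [Nat.cast_le]
  refine le_trans (le_of_eq ?_) (cntN_le_cntI hE0 (hNE ρ) _)
  rw [image_image]
  rfl

end Pool.Agent.Run7.h756.CC
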