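import Mathlib
import Pool.Agent.Run7.h166.TS.Paths

/-!
# Graphs without `(r + 1)`-partite holes: all but a bounded number of the vertices on `r` circles

Suppose that among any `r + 1` disjoint sets of `K` vertices there are two with an edge between them. Then all
vertices, with a number of exceptions bounded in terms of `r` and `K`, are on at most `r` disjoint circles
(closed paths with at least three vertices).

Take a longest path. The neighbours of its first `K` vertices outside of the path start no path of length `K`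
outside of the path, so their number is bounded. Cut the path after the last neighbour of the first `K`
vertices: this gives a circle, and the remaining vertices have no neighbours among the first `K` vertices of
the path. So the remaining graph has no `r`-partite hole.
-/

set_option autoImplicit false
set_option linter.unusedSectionVars false

namespace Pool.Agent.Run7.h756.CC

open Finset
open Pool.Agent.Run7.h166.TS (NH Path long_path)

variable {α : Type} [DecidableEq α] {adj : α → α → Prop}

/-- a closed path: a list without repetitions, empty or with at least three members, such that neighbours, and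
the last and the first member, are adjacent -/
def Circ (adj : α → α → Prop) (l : List α) : Prop :=
  l.Nodup ∧ l.IsChain adj ∧ (l = [] ∨ 3 ≤ l.length) ∧ ∀ x ∈ l.head?, ∀ y ∈ l.getLast?, adj y x

theorem circ_nil : Circ adj ([] : List α) :=
  ⟨List.nodup_nil, List.isChain_nil, Or.inl rfl, fun x hx => by simp at hx⟩

theorem exists_longest (V : Finset α) : ∃ P : List α, Path adj P ∧ (∀ x ∈ P, x ∈ V) ∧
    ∀ Q : List α, Path adj Q → (∀ x ∈ Q, x ∈ V) → Q.length ≤ P.length := by
  classical
  set S : Set ℕ := {n | ∃ Q : List α, Path adj Q ∧ (∀ x ∈ Q, x ∈ V) ∧ Q.length = n} with hS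
  have hne : S.Nonempty := ⟨0, [], ⟨List.nodup_nil, List.isChain_nil⟩, by simp, rfl⟩
  have hb : BddAbove S := by
    refine ⟨V.card, ?_⟩
    rintro n ⟨Q, hQ, hQV, rfl⟩
    rw [← List.toFinset_card_of_nodup hQ.1]
    exact card_le_card fun x hx => hQV x (List.mem_toFinset.1 hx)
  obtain ⟨P, hP, hPV, hPn⟩ := Nat.sSup_mem hne hb
  refine ⟨P, hP, hPV, fun Q hQ hQV => ?_⟩
  rw [hPn]
  exact le_csSup hb ⟨Q, hQ, hQV, rfl⟩

theorem path_of_mono {rk : α → ℕ} {l : List α} (h : l.IsChain (fun x y => adj x y ∧ rk y < rk x)) :
    Path adj l := by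
  refine ⟨?_, h.imp fun x y hxy => hxy.1⟩
  have h2 : l.IsChain (fun x y => rk y < rk x) := h.imp fun x y hxy => hxy.2
  have : IsTrans α (fun x y => rk y < rk x) := ⟨fun a b c h1 h2 => lt_trans h2 h1⟩
  refine (List.isChain_iff_pairwise.1 h2).imp ?_
  intro x y hxy he
  rw [he] at hxy
  exact lt_irrefl _ hxy

theorem isChain_reverse_symm (hs : ∀ x y, adj x y → adj y x) {l : List α} (h : l.IsChain adj) :
    l.reverse.IsChain adj := by
  rw [List.isChain_reverse]
  exact h.imp fun x y hxy => hs _ _ hxy

theorem mem_take_of_getElem {l : List α} {i n : ℕ} (hi : i < l.length) (hin : i < n) :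
    l[i] ∈ l.take n := by
  rw [List.mem_take_iff_getElem]
  exact ⟨i, by omega, rfl⟩

/-- one step: a circle, and a set `S` of `K` vertices without neighbours in the rest `R` -/
theorem step (hs : ∀ x y, adj x y → adj y x) {V : Finset α} {r K : ℕ} (hK : 1 ≤ K)
    (h : NH adj V r K) (rk : α → ℕ) (hrk : Function.Injective rk) (hV : (r + 1) * K * K ≤ V.card) :
    ∃ (l : List α) (S R : Finset α), Circ adj l ∧ (∀ x ∈ l, x ∈ V) ∧ S ⊆ V ∧ S.card = K ∧ R ⊆ V ∧
      Disjoint S R ∧ (∀ x ∈ l, x ∉ R) ∧ (∀ s ∈ S, ∀ z ∈ R, ¬ adj s z) ∧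
      (V.filter (fun x => x ∉ l ∧ x ∉ R)).card ≤ (r + 1) * K * (K + 1) + 2 * K := by
  classical
  obtain ⟨P, hP, hPV, hmax⟩ := exists_longest (adj := adj) V
  have hPK : K ≤ P.length := by
    obtain ⟨l, hl1, hl2, hl3⟩ := long_path hs hK h rk hrk (K - 1) V (Subset.refl _) (by
      have : K - 1 + 1 = K := by omega
      rwa [this])
    have := hmax l (path_of_mono hl3) hl2
    omega
  set Z : Finset α := V.filter (fun z => z ∉ P ∧ ∃ s ∈ P.take K, adj s z) with hZ
  have hZc : Z.card < (r + 1) * K * (K + 1) := by
    by_contra hcon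
    push Not at hcon
    obtain ⟨l, hl1, hl2, hl3⟩ := long_path hs hK h rk hrk K Z (filter_subset _ _) hcon
    have hlp := path_of_mono hl3
    cases l with
    | nil => simp at hl1
    | cons z l =>
      have hz := hl2 z List.mem_cons_self
      obtain ⟨-, -, s, hsP, hsz⟩ := mem_filter.1 hz
      rw [List.mem_take_iff_getElem] at hsP
      obtain ⟨j, hj, rfl⟩ := hsP
      have hjK : j < K := by omega
      have hjP : j < P.length := by omega
      have hdrop : P.drop j = P[j] :: P.drop (j + 1) := List.drop_eq_getElem_cons hjP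
      have hQ : Path adj ((z :: l).reverse ++ P.drop j) := by
        refine ⟨?_, ?_⟩
        · rw [List.nodup_append']
          refine ⟨List.nodup_reverse.2 hlp.1, hP.1.sublist (List.drop_sublist _ _), ?_⟩
          intro x hx hx'
          have h1 := hl2 x (List.mem_reverse.1 hx)
          exact (mem_filter.1 h1).2.1 (List.mem_of_mem_drop hx')
        · rw [List.isChain_append]
          refine ⟨isChain_reverse_symm hs hlp.2, hP.2.drop j, ?_⟩
          intro x hx y hy
          rw [List.reverse_cons, List.getLast?_concat] at hx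
          rw [hdrop, List.head?_cons] at hy
          simp only [Option.mem_def, Option.some.injEq] at hx hy
          subst hx; subst hy
          exact hs _ _ hsz
      have h2 := hmax _ hQ (by
        intro x hx
        rcases List.mem_append.1 hx with hx | hx
        · exact (mem_filter.1 (hl2 x (List.mem_reverse.1 hx))).1
        · exact hPV x (List.mem_of_mem_drop hx))
      rw [List.length_append, List.length_reverse, List.length_drop, hl1] at h2
      omega
  set S : Finset α := (P.take K).toFinset with hS
  have hSc : S.card = K := by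
    rw [hS, List.toFinset_card_of_nodup (hP.1.sublist (List.take_sublist _ _)), List.length_take]
    omega
  have hSV : S ⊆ V := fun x hx => hPV x (List.mem_of_mem_take (List.mem_toFinset.1 hx))
  by_cases hT : ∃ i, ∃ hi : i < P.length, 2 * K ≤ i ∧ ∃ s ∈ P.take K, adj s P[i]
  · -- the last neighbour
    have hfin : ∃ i, (∃ hi : i < P.length, 2 * K ≤ i ∧ ∃ s ∈ P.take K, adj s P[i]) ∧
        ∀ i', (∃ hi : i' < P.length, 2 * K ≤ i' ∧ ∃ s ∈ P.take K, adj s P[i']) → i' ≤ i := by
      have hb : BddAbove {i | ∃ hi : i < P.length, 2 * K ≤ i ∧ ∃ s ∈ P.take K, adj s P[i]} :=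
        ⟨P.length, fun i hi => hi.1.le⟩
      obtain ⟨i₀, hi₀⟩ := hT
      exact ⟨sSup {i | ∃ hi : i < P.length, 2 * K ≤ i ∧ ∃ s ∈ P.take K, adj s P[i]},
        Nat.sSup_mem ⟨i₀, hi₀⟩ hb, fun i' hi' => le_csSup hb hi'⟩
    obtain ⟨i, ⟨hi, hiK, s, hsP, hsi⟩, himax⟩ := hfin
    rw [List.mem_take_iff_getElem] at hsP
    obtain ⟨j, hj, rfl⟩ := hsP
    have hjK : j < K := by omega
    set l : List α := (P.take (i + 1)).drop j with hl
    have hllen : l.length = i + 1 - j := by
      rw [hl, List.length_drop, List.length_take]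
      omega
    have hlsub : l.Sublist P := (List.drop_sublist _ _).trans (List.take_sublist _ _)
    refine ⟨l, S, V.filter (fun z => z ∉ Z ∧ z ∉ P.take (i + 1)), ?_, ?_, hSV, hSc,
      filter_subset _ _, ?_, ?_, ?_, ?_⟩
    · refine ⟨hP.1.sublist hlsub, (hP.2.take _).drop _, Or.inr (by omega), ?_⟩
      intro x hx y hy
      have hx' : x = P[j] := by
        rw [hl, List.head?_drop, List.getElem?_take_of_lt (by omega), List.getElem?_eq_getElem (by omega)] at hx
        simpa using hx.symm
      have hy' : y = P[i] := by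
        rw [List.getLast?_eq_getElem?, hllen, hl, List.getElem?_drop,
          List.getElem?_take_of_lt (by omega), List.getElem?_eq_getElem (by omega)] at hy
        simp only [Option.mem_def, Option.some.injEq] at hy
        rw [← hy]
        congr 1
        omega
      rw [hx', hy']
      exact hs _ _ hsi
    · intro x hx
      exact hPV x (hlsub.subset hx)
    · rw [Finset.disjoint_left]
      intro x hx hx'
      rw [hS, List.mem_toFinset, List.mem_take_iff_getElem] at hx
      obtain ⟨a, ha, rfl⟩ := hx
      exact (mem_filter.1 hx').2.2 (mem_take_of_getElem (by omega) (by omega))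
    · intro x hx hx'
      exact (mem_filter.1 hx').2.2 (List.mem_of_mem_drop hx)
    · intro s hs' z hz hsz
      obtain ⟨hz1, hz2, hz3⟩ := mem_filter.1 hz
      by_cases hzP : z ∈ P
      · obtain ⟨a, ha, rfl⟩ := List.mem_iff_getElem.1 hzP
        have h1 : i + 1 ≤ a := by
          by_contra hcon
          exact hz3 (mem_take_of_getElem ha (by omega))
        have h2 := himax a ⟨ha, by omega, s, List.mem_toFinset.1 hs', hsz⟩
        omega
      · exact hz2 (mem_filter.2 ⟨hz1, hzP, s, List.mem_toFinset.1 hs', hsz⟩)
    · have hsub : V.filter (fun x => x ∉ l ∧ x ∉ V.filter (fun z => z ∉ Z ∧ z ∉ P.take (i + 1))) ⊆ Z ∪ S := by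
        intro x hx
        obtain ⟨hx1, hx2, hx3⟩ := mem_filter.1 hx
        rw [mem_filter] at hx3
        push Not at hx3
        by_cases hxZ : x ∈ Z
        · exact mem_union_left _ hxZ
        · refine mem_union_right _ ?_
          have h1 := hx3 hx1 hxZ
          rw [List.mem_take_iff_getElem] at h1
          obtain ⟨a, ha, rfl⟩ := h1
          rw [hS, List.mem_toFinset]
          refine mem_take_of_getElem (by omega) ?_
          by_contra hcon
          apply hx2
          rw [hl, List.mem_iff_getElem]
          refine ⟨a - j, by rw [List.length_drop, List.length_take]; omega, ?_⟩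
          rw [List.getElem_drop, List.getElem_take]
          congr 1
          omega
      have h1 := (card_le_card hsub).trans (card_union_le _ _)
      rw [hSc] at h1
      omega
  · push Not at hT
    refine ⟨[], S, V.filter (fun z => z ∉ Z ∧ z ∉ P.take (2 * K)), circ_nil, by simp, hSV, hSc,
      filter_subset _ _, ?_, by simp, ?_, ?_⟩
    · rw [Finset.disjoint_left]
      intro x hx hx'
      rw [hS, List.mem_toFinset, List.mem_take_iff_getElem] at hx
      obtain ⟨a, ha, rfl⟩ := hx
      exact (mem_filter.1 hx').2.2 (mem_take_of_getElem (by omega) (by omega))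
    · intro s hs' z hz hsz
      obtain ⟨hz1, hz2, hz3⟩ := mem_filter.1 hz
      by_cases hzP : z ∈ P
      · obtain ⟨a, ha, rfl⟩ := List.mem_iff_getElem.1 hzP
        have h1 : 2 * K ≤ a := by
          by_contra hcon
          exact hz3 (mem_take_of_getElem ha (by omega))
        exact hT a ha h1 s (List.mem_toFinset.1 hs') hsz
      · exact hz2 (mem_filter.2 ⟨hz1, hzP, s, List.mem_toFinset.1 hs', hsz⟩)
    · have hsub : V.filter (fun x => x ∉ ([] : List α) ∧ x ∉ V.filter (fun z => z ∉ Z ∧ z ∉ P.take (2 * K))) ⊆
          Z ∪ (P.take (2 * K)).toFinset := by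
        intro x hx
        obtain ⟨hx1, -, hx3⟩ := mem_filter.1 hx
        rw [mem_filter] at hx3
        push Not at hx3
        by_cases hxZ : x ∈ Z
        · exact mem_union_left _ hxZ
        · exact mem_union_right _ (List.mem_toFinset.2 (hx3 hx1 hxZ))
      have h1 := (card_le_card hsub).trans (card_union_le _ _)
      have h2 : (P.take (2 * K)).toFinset.card ≤ 2 * K :=
        (List.toFinset_card_le _).trans (by rw [List.length_take]; omega)
      omega

/-- disjoint circles in `V` -/
def Circs {n : ℕ} (adj : α → α → Prop) (V : Finset α) (E : Fin n → List α) : Prop :=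
  (∀ i, Circ adj (E i)) ∧ (∀ i j, i ≠ j → List.Disjoint (E i) (E j)) ∧ ∀ i, ∀ x ∈ E i, x ∈ V

/-- removing a set of `K` vertices without neighbours in the rest -/
theorem nh_rest (hs : ∀ x y, adj x y → adj y x) {V S R : Finset α} {r K : ℕ}
    (h : NH adj V (r + 1) K) (hSV : S ⊆ V) (hSc : S.card = K) (hRV : R ⊆ V) (hd : Disjoint S R)
    (hno : ∀ s ∈ S, ∀ z ∈ R, ¬ adj s z) : NH adj R r K := by
  classical
  intro X hX hXR
  set ψ : Fin K ≃ S := (S.equivFinOfCardEq hSc).symm with hψ
  set X' : Fin (r + 1 + 1) × Fin K → α := fun u =>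
    Fin.cases (motive := fun _ => α) (ψ u.2 : α) (fun i => X (i, u.2)) u.1 with hX'
  have h0 : ∀ k, X' (0, k) = ψ k := fun k => rfl
  have h1 : ∀ i k, X' (Fin.succ i, k) = X (i, k) := fun i k => rfl
  have hinj : Function.Injective X' := by
    rintro ⟨i, k⟩ ⟨i', k'⟩ hh
    refine Fin.cases ?_ (fun i => ?_) i hh <;> intro hh <;>
      refine Fin.cases ?_ (fun i' => ?_) i' hh <;> intro hh
    · rw [h0, h0] at hh
      rw [ψ.injective (Subtype.ext hh)]
    · rw [h0, h1] at hh
      exact absurd (hXR (i', k')) (Finset.disjoint_left.1 hd (hh ▸ (ψ k).2))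
    · rw [h0, h1] at hh
      exact absurd (hXR (i, k)) (Finset.disjoint_left.1 hd (hh ▸ (ψ k').2))
    · rw [h1, h1] at hh
      have := hX hh
      simp only [Prod.mk.injEq] at this
      rw [this.1, this.2]
  obtain ⟨⟨i, k⟩, ⟨i', k'⟩, hne, hadj⟩ := h X' hinj (by
    rintro ⟨i, k⟩
    refine Fin.cases ?_ (fun i => ?_) i
    · rw [h0]; exact hSV (ψ k).2
    · rw [h1]; exact hRV (hXR _))
  refine Fin.cases ?_ (fun i => ?_) i hne hadj <;> intro hne hadj <;>
    refine Fin.cases ?_ (fun i' => ?_) i' hne hadj <;> intro hne hadj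
  · exact absurd rfl hne
  · rw [h0, h1] at hadj
    exact absurd hadj (hno _ (ψ k).2 _ (hXR _))
  · rw [h0, h1] at hadj
    exact absurd (hs _ _ hadj) (hno _ (ψ k').2 _ (hXR _))
  · rw [h1, h1] at hadj
    exact ⟨(i, k), (i', k'), fun h2 => hne (by simp only at h2; rw [h2]), hadj⟩

/-- **Circle covers.** -/
theorem circle_cover (hs : ∀ x y, adj x y → adj y x) {K : ℕ} (hK : 1 ≤ K) (rk : α → ℕ)
    (hrk : Function.Injective rk) (r : ℕ) : ∀ V : Finset α, NH adj V r K →
    ∃ e : Fin r → List α, Circs adj V e ∧
      (V.filter (fun x => ∀ i, x ∉ e i)).card ≤ (r + 1) * ((r + 1) * K * (K + 1) + 2 * K) := by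
  classical
  induction r with
  | zero =>
    intro V h
    refine ⟨fun i => i.elim0, ⟨fun i => i.elim0, fun i => i.elim0, fun i => i.elim0⟩, ?_⟩
    have h1 : V.card < K := by
      by_contra hcon
      push Not at hcon
      obtain ⟨V', hV', hVc⟩ := exists_subset_card_eq hcon
      set ψ : Fin K ≃ V' := (V'.equivFinOfCardEq hVc).symm with hψ
      obtain ⟨u, v, huv, -⟩ := h (fun u => (ψ u.2 : α)) (by
        rintro ⟨i, k⟩ ⟨i', k'⟩ hh
        have h2 := ψ.injective (Subtype.ext hh)
        simp only at h2
        rw [h2, show i = i' from Fin.ext (by omega)]) (fun u => hV' (ψ u.2).2)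
      exact huv (Fin.ext (by omega))
    have h2 : (V.filter (fun x => ∀ i : Fin 0, x ∉ (fun i : Fin 0 => (i.elim0 : List α)) i)).card ≤ V.card :=
      card_le_card (filter_subset _ _)
    refine h2.trans (h1.le.trans ?_)
    nlinarith
  | succ r ih =>
    intro V h
    by_cases hV : V.card < (r + 1 + 1) * K * K
    · refine ⟨fun _ => [], ⟨fun _ => circ_nil, fun i j _ x hx => by simp at hx, fun i x hx => by simp at hx⟩, ?_⟩
      refine (card_le_card (filter_subset _ _)).trans (hV.le.trans ?_)
      nlinarith [Nat.zero_le r, Nat.zero_le K, Nat.zero_le (K * K), Nat.zero_le (r * K), Nat.zero_le (r * K * K),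
        Nat.zero_le (r * r * K), Nat.zero_le (r * r * K * K)]
    · push Not at hV
      obtain ⟨l, S, R, hl, hlV, hSV, hSc, hRV, hd, hlR, hno, hloss⟩ := step hs hK h rk hrk hV
      obtain ⟨e, ⟨he1, he2, he3⟩, hc⟩ := ih R (nh_rest hs h hSV hSc hRV hd hno)
      refine ⟨Fin.cons l e, ⟨?_, ?_, ?_⟩, ?_⟩
      · intro i
        refine Fin.cases ?_ (fun i => ?_) i
        · exact hl
        · exact he1 i
      · intro i j
        refine Fin.cases ?_ (fun i => ?_) i <;> refine Fin.cases ?_ (fun j => ?_) j
        · exact fun h => absurd rfl h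
        · intro _ x hx hx'
          exact hlR x hx (he3 j x hx')
        · intro _ x hx hx'
          exact hlR x hx' (he3 i x hx)
        · intro hij
          exact he2 i j (fun h => hij (by rw [h]))
      · intro i
        refine Fin.cases ?_ (fun i => ?_) i
        · exact hlV
        · exact fun x hx => hRV (he3 i x hx)
      · have hsub : V.filter (fun x => ∀ i, x ∉ (Fin.cons l e : Fin (r + 1) → List α) i) ⊆
            V.filter (fun x => x ∉ l ∧ x ∉ R) ∪ R.filter (fun x => ∀ i, x ∉ e i) := by
          intro x hx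
          obtain ⟨hx1, hx2⟩ := mem_filter.1 hx
          have hxl : x ∉ l := hx2 0
          have hxe : ∀ i, x ∉ e i := fun i => hx2 i.succ
          by_cases hxR : x ∈ R
          · exact mem_union_right _ (mem_filter.2 ⟨hxR, hxe⟩)
          · exact mem_union_left _ (mem_filter.2 ⟨hx1, hxl, hxR⟩)
        have h1 := (card_le_card hsub).trans (card_union_le _ _)
        refine h1.trans ((add_le_add hloss hc).trans ?_)
        nlinarith [Nat.zero_le r, Nat.zero_le K, Nat.zero_le (K * K), Nat.zero_le (r * K), Nat.zero_le (r * K * K),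
          Nat.zero_le (r * r * K), Nat.zero_le (r * r * K * K)]

end Pool.Agent.Run7.h756.CC
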