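import Mathlib

/-!
# Ramsey numbers for several colours, and `R(4, 4) ≤ 18`
-/

set_option autoImplicit false

namespace Pool.Agent.Run7.h756.CC

open Finset

/-- every symmetric colouring of the pairs of `Fin R` with `m` colours has `r + 1` points all pairs of which
have the same colour -/
def RP (m r R : ℕ) : Prop :=
  ∀ c : Fin R → Fin R → Fin m, (∀ x y, c x y = c y x) →
    ∃ (T : Finset (Fin R)) (i : Fin m), T.card = r + 1 ∧ ∀ x ∈ T, ∀ y ∈ T, x ≠ y → c x y = i

theorem ends {m : ℕ} (L : ℕ) : ∃ N : ℕ, ∀ {α : Type} [DecidableEq α] (S : Finset α) (c : α → α → Fin m),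
    (∀ x y, c x y = c y x) → N ≤ S.card → ∃ (T : Finset α) (κ : α → Fin m), T ⊆ S ∧ T.card = L ∧
      ∀ x ∈ T, ∀ y ∈ T, x ≠ y → c x y = κ x ∨ c x y = κ y := by
  induction L with
  | zero =>
    refine ⟨1, fun S c hc hS => ?_⟩
    obtain ⟨x, -⟩ := card_pos.1 (by omega : 0 < S.card)
    exact ⟨∅, fun _ => c x x, empty_subset _, card_empty, fun x hx => by simp at hx⟩
  | succ L ih =>
    obtain ⟨N, hN⟩ := ih
    refine ⟨m * N + 1, fun {α} _ S c hc hS => ?_⟩
    obtain ⟨x, hx⟩ := card_pos.1 (by omega : 0 < S.card)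
    have h1 : (S.erase x).card = S.card - 1 := card_erase_of_mem hx
    obtain ⟨i, -, hi⟩ := Finset.exists_le_card_fiber_of_mul_le_card_of_maps_to
      (s := S.erase x) (t := (univ : Finset (Fin m))) (f := fun y => c x y) (n := N)
      (fun y _ => mem_univ _) ⟨c x x, mem_univ _⟩ (by rw [card_univ, Fintype.card_fin]; omega)
    obtain ⟨T, κ, hT, hTc, hTκ⟩ := hN _ c hc hi
    have hxT : x ∉ T := fun h => by
      have := (mem_filter.1 (hT h)).1
      exact notMem_erase x S this
    have hTS : ∀ y ∈ T, y ∈ S := fun y hy => mem_of_mem_erase (mem_filter.1 (hT hy)).1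
    have hTi : ∀ y ∈ T, c x y = i := fun y hy => (mem_filter.1 (hT hy)).2
    refine ⟨insert x T, Function.update κ x i, ?_, by rw [card_insert_of_notMem hxT, hTc], ?_⟩
    · intro y hy
      rcases mem_insert.1 hy with rfl | hy
      · exact hx
      · exact hTS y hy
    · intro y hy z hz hyz
      rcases mem_insert.1 hy with h1 | h1
      · rcases mem_insert.1 hz with h2 | h2
        · exact absurd (h1.trans h2.symm) hyz
        · left
          rw [h1, Function.update_self]
          exact hTi z h2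
      · rcases mem_insert.1 hz with h2 | h2
        · right
          rw [h2, Function.update_self, hc]
          exact hTi y h1
        · have h3 : y ≠ x := fun h => by rw [h] at h1; exact hxT h1
          have h4 : z ≠ x := fun h => by rw [h] at h2; exact hxT h2
          rw [Function.update_of_ne h3, Function.update_of_ne h4]
          exact hTκ y h1 z h2 hyz

/-- **Ramsey's theorem for pairs and `m` colours.** -/
theorem rp_exists (m r : ℕ) : ∃ R : ℕ, 1 ≤ R ∧ RP m r R := by
  obtain ⟨N, hN⟩ := ends (m := m) (m * r + 1)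
  refine ⟨N + 1, by omega, fun c hc => ?_⟩
  obtain ⟨T, κ, -, hTc, hT⟩ := hN (univ : Finset (Fin (N + 1))) c hc (by rw [card_univ, Fintype.card_fin]; omega)
  obtain ⟨i, -, hi⟩ := Finset.exists_lt_card_fiber_of_mul_lt_card_of_maps_to
    (s := T) (t := (univ : Finset (Fin m))) (f := κ) (n := r)
    (fun y _ => mem_univ _) (by rw [card_univ, Fintype.card_fin, hTc]; omega)
  obtain ⟨T', hT', hT'c⟩ := exists_subset_card_eq (Nat.succ_le_of_lt hi)
  refine ⟨T', i, hT'c, fun x hx y hy hxy => ?_⟩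
  obtain ⟨hx1, hx2⟩ := mem_filter.1 (hT' hx)
  obtain ⟨hy1, hy2⟩ := mem_filter.1 (hT' hy)
  rcases hT x hx1 y hy1 hxy with h | h
  · rw [h, hx2]
  · rw [h, hy2]

theorem rp_one (r : ℕ) : RP 1 r (r + 1) := by
  intro c _
  exact ⟨univ, 0, by rw [card_univ, Fintype.card_fin], fun x _ y _ _ => Subsingleton.elim _ _⟩

/-! ### two colours -/

/-- `s` points all pairs of which are red, or `t` points no pair of which is red -/
def Hom {α : Type} (c : α → α → Prop) (s t : ℕ) (S : Finset α) : Prop :=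
  (∃ A ⊆ S, A.card = s ∧ ∀ x ∈ A, ∀ y ∈ A, x ≠ y → c x y) ∨
    ∃ B ⊆ S, B.card = t ∧ ∀ x ∈ B, ∀ y ∈ B, x ≠ y → ¬ c x y

/-- `R(s, t) ≤ n` -/
def Rst (s t n : ℕ) : Prop := ∀ {α : Type} [DecidableEq α] (c : α → α → Prop), (∀ x y, c x y → c y x) →
  ∀ S : Finset α, n ≤ S.card → Hom c s t S

theorem rst_symm {s t n : ℕ} (h : Rst s t n) : Rst t s n := by
  intro α _ c hc S hS
  rcases h (fun x y => ¬ c x y) (fun x y hxy h2 => hxy (hc _ _ h2)) S hS with ⟨A, hA, hAc, hA2⟩ | ⟨B, hB, hBc, hB2⟩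
  · exact Or.inr ⟨A, hA, hAc, hA2⟩
  · exact Or.inl ⟨B, hB, hBc, fun x hx y hy hxy => not_not.1 (hB2 x hx y hy hxy)⟩

theorem rst_two (t : ℕ) : Rst 2 t t := by
  intro α _ c hc S hS
  obtain ⟨B, hB, hBc⟩ := exists_subset_card_eq hS
  by_cases h : ∃ x ∈ B, ∃ y ∈ B, x ≠ y ∧ c x y
  · obtain ⟨x, hx, y, hy, hxy, hcxy⟩ := h
    left
    refine ⟨{x, y}, ?_, card_pair hxy, ?_⟩
    · intro z hz
      rcases mem_insert.1 hz with rfl | hz
      · exact hB hx
      · rw [mem_singleton.1 hz]; exact hB hy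
    · intro a ha b hb hab
      rw [mem_insert, mem_singleton] at ha hb
      rcases ha with rfl | rfl <;> rcases hb with rfl | rfl
      · exact absurd rfl hab
      · exact hcxy
      · exact hc _ _ hcxy
      · exact absurd rfl hab
  · right
    refine ⟨B, hB, hBc, fun x hx y hy hxy hcxy => h ⟨x, hx, y, hy, hxy, hcxy⟩⟩

/-- a vertex with many red neighbours -/
theorem red_case {α : Type} [DecidableEq α] {c : α → α → Prop} (hc : ∀ x y, c x y → c y x) {s t a : ℕ}
    (h : Rst s t a) {S N : Finset α} {x : α} (hx : x ∈ S) (hN : N ⊆ S) (hxN : x ∉ N)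
    (hNc : ∀ y ∈ N, c x y) (ha : a ≤ N.card) : Hom c (s + 1) t S := by
  rcases h c hc N ha with ⟨A, hA, hAc, hA2⟩ | ⟨B, hB, hBc, hB2⟩
  · left
    refine ⟨insert x A, ?_, by rw [card_insert_of_notMem (fun h => hxN (hA h)), hAc], ?_⟩
    · intro y hy
      rcases mem_insert.1 hy with rfl | hy
      · exact hx
      · exact hN (hA hy)
    · intro y hy z hz hyz
      rcases mem_insert.1 hy with h1 | h1
      · rcases mem_insert.1 hz with h2 | h2
        · exact absurd (h1.trans h2.symm) hyz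
        · rw [h1]; exact hNc z (hA h2)
      · rcases mem_insert.1 hz with h2 | h2
        · rw [h2]; exact hc _ _ (hNc y (hA h1))
        · exact hA2 y h1 z h2 hyz
  · exact Or.inr ⟨B, hB.trans hN, hBc, hB2⟩

theorem blue_case {α : Type} [DecidableEq α] {c : α → α → Prop} (hc : ∀ x y, c x y → c y x) {s t a : ℕ}
    (h : Rst s t a) {S N : Finset α} {x : α} (hx : x ∈ S) (hN : N ⊆ S) (hxN : x ∉ N)
    (hNc : ∀ y ∈ N, ¬ c x y) (ha : a ≤ N.card) : Hom c s (t + 1) S := by
  rcases red_case (c := fun x y => ¬ c x y) (fun x y hxy h2 => hxy (hc _ _ h2)) (rst_symm h) hx hN hxN hNc ha with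
    ⟨A, hA, hAc, hA2⟩ | ⟨B, hB, hBc, hB2⟩
  · exact Or.inr ⟨A, hA, hAc, hA2⟩
  · exact Or.inl ⟨B, hB, hBc, fun x hx y hy hxy => not_not.1 (hB2 x hx y hy hxy)⟩

theorem rst_step {s t a b : ℕ} (ha : 1 ≤ a + b) (h1 : Rst s (t + 1) a) (h2 : Rst (s + 1) t b) :
    Rst (s + 1) (t + 1) (a + b) := by
  classical
  intro α _ c hc S hS
  obtain ⟨x, hx⟩ := card_pos.1 (by omega : 0 < S.card)
  have h3 := card_filter_add_card_filter_not (s := S.erase x) (fun y => c x y)
  have h4 : (S.erase x).card = S.card - 1 := card_erase_of_mem hx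
  by_cases h5 : a ≤ ((S.erase x).filter (fun y => c x y)).card
  · exact red_case hc h1 hx ((filter_subset _ _).trans (erase_subset _ _))
      (fun h => notMem_erase x S (mem_filter.1 h).1) (fun y hy => (mem_filter.1 hy).2) h5
  · exact blue_case hc h2 hx ((filter_subset _ _).trans (erase_subset _ _))
      (fun h => notMem_erase x S (mem_filter.1 h).1) (fun y hy => (mem_filter.1 hy).2)
      (show b ≤ ((S.erase x).filter (fun y => ¬ c x y)).card by omega)

theorem rst33 : Rst 3 3 6 := rst_step (a := 3) (b := 3) (by norm_num) (rst_two 3) (rst_symm (rst_two 3))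

/-- `R(3, 4) ≤ 9`, by parity -/
theorem rst34 : Rst 3 4 9 := by
  classical
  intro α _ c hc S₀ hS₀
  obtain ⟨S, hSS, hS⟩ := exists_subset_card_eq hS₀
  suffices h : Hom c 3 4 S by
    rcases h with ⟨A, hA, hA2⟩ | ⟨B, hB, hB2⟩
    · exact Or.inl ⟨A, hA.trans hSS, hA2⟩
    · exact Or.inr ⟨B, hB.trans hSS, hB2⟩
  by_contra hcon
  have hdeg : ∀ x ∈ S, ((S.erase x).filter (fun y => c x y)).card = 3 := by
    intro x hx
    have h3 := card_filter_add_card_filter_not (s := S.erase x) (fun y => c x y)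
    have h4 : (S.erase x).card = S.card - 1 := card_erase_of_mem hx
    by_contra h5
    by_cases h6 : 4 ≤ ((S.erase x).filter (fun y => c x y)).card
    · exact hcon (red_case hc (rst_two 4) hx ((filter_subset _ _).trans (erase_subset _ _))
        (fun h => notMem_erase x S (mem_filter.1 h).1) (fun y hy => (mem_filter.1 hy).2) h6)
    · exact hcon (blue_case hc rst33 hx ((filter_subset _ _).trans (erase_subset _ _))
        (fun h => notMem_erase x S (mem_filter.1 h).1) (fun y hy => (mem_filter.1 hy).2)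
        (show 6 ≤ ((S.erase x).filter (fun y => ¬ c x y)).card by omega))
  let G : SimpleGraph S := { Adj := fun x y => x ≠ y ∧ c x y
                             symm := ⟨fun x y h => ⟨h.1.symm, hc _ _ h.2⟩⟩
                             loopless := ⟨fun x h => h.1 rfl⟩ }
  have hG : ∀ x : S, G.degree x = 3 := by
    intro x
    rw [← hdeg x x.2, ← SimpleGraph.card_neighborFinset_eq_degree]
    refine Finset.card_bij (fun y _ => (y : α)) ?_ ?_ ?_
    · intro y hy
      rw [SimpleGraph.mem_neighborFinset] at hy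
      exact mem_filter.2 ⟨mem_erase.2 ⟨fun h => hy.1 (Subtype.ext h.symm), y.2⟩, hy.2⟩
    · intro y _ z _ h
      exact Subtype.ext h
    · intro y hy
      obtain ⟨h1, h2⟩ := mem_filter.1 hy
      obtain ⟨h3, h4⟩ := mem_erase.1 h1
      refine ⟨⟨y, h4⟩, ?_, rfl⟩
      rw [SimpleGraph.mem_neighborFinset]
      exact ⟨fun h => h3 (congrArg Subtype.val h).symm, h2⟩
  have h1 := G.sum_degrees_eq_twice_card_edges
  rw [Finset.sum_congr rfl (fun x _ => hG x), sum_const, card_univ, Fintype.card_coe, hS] at h1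
  simp only [smul_eq_mul] at h1
  omega

/-- `R(4, 4) ≤ 18` -/
theorem rst44 : Rst 4 4 18 := rst_step (a := 9) (b := 9) (by norm_num) rst34 (rst_symm rst34)

theorem rp_two : RP 2 3 18 := by
  intro c hc
  rcases rst44 (fun x y => c x y = 0) (fun x y h => by rw [hc y x]; exact h) (univ : Finset (Fin 18)) (by simp) with
    ⟨A, -, hAc, hA⟩ | ⟨B, -, hBc, hB⟩
  · exact ⟨A, 0, hAc, hA⟩
  · refine ⟨B, 1, hBc, fun x hx y hy hxy => ?_⟩
    have h1 := hB x hx y hy hxy
    have h2 : (c x y).val ≠ 0 := fun h => h1 (Fin.ext h)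
    have h3 := (c x y).isLt
    exact Fin.ext (by show (c x y).val = 1; omega)

end Pool.Agent.Run7.h756.CC
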