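import Mathlib
import Pool.Agent.Run7.h756.CC.Ram
import Pool.Agent.Run7.h756.CC.Circ

/-!
# Several graphs without four-partite holes at once

If `m` graphs on the same vertices have no `(r + 1)`-partite holes, then their intersection has no `R`-partite
holes, where `R` is the Ramsey number of `m` complete graphs with `r + 1` vertices.
-/

set_option autoImplicit false
set_option linter.unusedSectionVars false

namespace Pool.Agent.Run7.h756.CC

open Finset
open Pool.Agent.Run7.h166.TS (NH)

/-- **Bipartite pigeonhole.** -/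
theorem bip {α : Type} [DecidableEq α] {m K : ℕ} (col : α → α → Fin m) {A B : Finset α}
    (hA : m * K ≤ A.card) (hB : m ^ (m * K) * K ≤ B.card) (hm : 1 ≤ m) (hK : 1 ≤ K) :
    ∃ A' ⊆ A, ∃ B' ⊆ B, A'.card = K ∧ B'.card = K ∧ ∃ i, ∀ x ∈ A', ∀ y ∈ B', col x y = i := by
  classical
  obtain ⟨A₀, hA₀, hA₀c⟩ := exists_subset_card_eq hA
  have : Nonempty (Fin m) := ⟨⟨0, hm⟩⟩
  obtain ⟨φ, -, hφ⟩ := Finset.exists_le_card_fiber_of_mul_le_card_of_maps_to
    (s := B) (t := (univ : Finset (A₀ → Fin m))) (f := fun y => fun x : A₀ => col x y) (n := K)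
    (fun y _ => mem_univ _) ⟨fun _ => Classical.arbitrary _, mem_univ _⟩ (by
      rw [card_univ, Fintype.card_fun, Fintype.card_coe, Fintype.card_fin, hA₀c]
      exact hB)
  obtain ⟨B', hB', hB'c⟩ := exists_subset_card_eq hφ
  obtain ⟨i, -, hi⟩ := Finset.exists_le_card_fiber_of_mul_le_card_of_maps_to
    (s := (univ : Finset A₀)) (t := (univ : Finset (Fin m))) (f := φ) (n := K)
    (fun y _ => mem_univ _) ⟨Classical.arbitrary _, mem_univ _⟩ (by
      rw [card_univ, card_univ, Fintype.card_coe, Fintype.card_fin, hA₀c])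
  obtain ⟨A'', hA'', hA''c⟩ := exists_subset_card_eq hi
  refine ⟨A''.map ⟨Subtype.val, Subtype.val_injective⟩, ?_, B', ?_, ?_, hB'c, i, ?_⟩
  · intro x hx
    obtain ⟨y, -, rfl⟩ := mem_map.1 hx
    exact hA₀ y.2
  · exact fun y hy => (mem_filter.1 (hB' hy)).1
  · rw [card_map, hA''c]
  · intro x hx y hy
    obtain ⟨z, hz, rfl⟩ := mem_map.1 hx
    have h1 := (mem_filter.1 (hA'' hz)).2
    have h2 := (mem_filter.1 (hB' hy)).2
    rw [← h1, ← h2]
    rfl

/-- large blocks contain blocks such that the colour of a cross pair depends on the pair of blocks only -/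
theorem blocks {m K R : ℕ} (hm : 1 ≤ m) (hK : 1 ≤ K) (P : Finset (Fin R × Fin R)) : ∃ K' : ℕ, K ≤ K' ∧
    ∀ {α : Type} [DecidableEq α] (col : α → α → Fin m) (Y : Fin R → Finset α), (∀ g, K' ≤ (Y g).card) →
      ∃ Z : Fin R → Finset α, (∀ g, Z g ⊆ Y g) ∧ (∀ g, (Z g).card = K) ∧
        ∀ p ∈ P, p.1 ≠ p.2 → ∃ i, ∀ x ∈ Z p.1, ∀ y ∈ Z p.2, col x y = i := by
  classical
  induction P using Finset.induction_on with
  | empty =>
    refine ⟨K, le_rfl, fun {α} _ col Y hY => ?_⟩
    choose Z hZ hZc using fun g => exists_subset_card_eq (hY g)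
    exact ⟨Z, hZ, hZc, fun p hp => by simp at hp⟩
  | insert p P hp ih =>
    obtain ⟨K₁, hK₁, h⟩ := ih
    have hK1 : 1 ≤ K₁ := hK.trans hK₁
    refine ⟨m * K₁ + m ^ (m * K₁) * K₁ + K₁, by omega, fun {α} _ col Y hY => ?_⟩
    by_cases hpp : p.1 = p.2
    · obtain ⟨Z, hZ, hZc, hZ2⟩ := h col Y (fun g => by have := hY g; omega)
      refine ⟨Z, hZ, hZc, fun q hq hne => ?_⟩
      rcases mem_insert.1 hq with rfl | hq
      · exact absurd hpp hne
      · exact hZ2 q hq hne
    · obtain ⟨A', hA', B', hB', hA'c, hB'c, i, hi⟩ := bip (K := K₁) col (A := Y p.1) (B := Y p.2)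
        (by have := hY p.1; omega) (by have := hY p.2; omega) hm hK1
      obtain ⟨Z, hZ, hZc, hZ2⟩ := h col (Function.update (Function.update Y p.1 A') p.2 B') (fun g => by
        by_cases h2 : g = p.2
        · subst h2
          rw [Function.update_self, hB'c]
        · rw [Function.update_of_ne h2]
          by_cases h1 : g = p.1
          · subst h1
            rw [Function.update_self, hA'c]
          · rw [Function.update_of_ne h1]
            have := hY g
            omega)
      have e1 : Function.update (Function.update Y p.1 A') p.2 B' p.1 = A' := by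
        rw [Function.update_of_ne hpp, Function.update_self]
      have e2 : Function.update (Function.update Y p.1 A') p.2 B' p.2 = B' := Function.update_self _ _ _
      refine ⟨Z, fun g => ?_, hZc, fun q hq hne => ?_⟩
      · refine (hZ g).trans ?_
        by_cases h2 : g = p.2
        · subst h2
          rw [Function.update_self]
          exact hB'
        · rw [Function.update_of_ne h2]
          by_cases h1 : g = p.1
          · subst h1
            rw [Function.update_self]
            exact hA'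
          · rw [Function.update_of_ne h1]
      · rcases mem_insert.1 hq with h1 | h1
        · subst h1
          refine ⟨i, fun x hx y hy => hi x ?_ y ?_⟩
          · rw [← e1]; exact hZ _ hx
          · rw [← e2]; exact hZ _ hy
        · exact hZ2 q h1 hne

/-- **The intersection of several graphs without `(r + 1)`-partite holes.** -/
theorem nh_inter {m r D : ℕ} (hm : 1 ≤ m) (hR : RP m r (D + 1)) {K : ℕ} (hK : 1 ≤ K) :
    ∃ K' : ℕ, 1 ≤ K' ∧ ∀ {α : Type} [DecidableEq α] (adj : Fin m → α → α → Prop),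
      (∀ i x y, adj i x y → adj i y x) → ∀ V : Finset α, (∀ i, NH (adj i) V r K) →
      NH (fun x y => ∀ i, adj i x y) V D K' := by
  classical
  obtain ⟨K', hK', hb⟩ := blocks (R := D + 1) hm hK univ
  refine ⟨K', hK.trans hK', fun {α} _ adj hs V hV X hX hXV => ?_⟩
  by_contra hcon
  push Not at hcon
  -- the colour of a cross pair
  have : Nonempty (Fin m) := ⟨⟨0, hm⟩⟩
  set col : α → α → Fin m := fun x y => if h : ∃ i, ¬ adj i x y then h.choose else Classical.arbitrary _ with hcol
  have hcol' : ∀ x y, (∃ i, ¬ adj i x y) → ¬ adj (col x y) x y := by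
    intro x y h
    simp only [hcol]
    rw [dif_pos h]
    exact h.choose_spec
  set Y : Fin (D + 1) → Finset α := fun g => (univ : Finset (Fin K')).image (fun k => X (g, k)) with hY
  have hYc : ∀ g, (Y g).card = K' := by
    intro g
    rw [hY]
    show (image (fun k => X (g, k)) univ).card = K'
    rw [card_image_of_injective, card_univ, Fintype.card_fin]
    intro k k' h
    have := hX h
    simpa using this
  obtain ⟨Z, hZY, hZc, hZ⟩ := hb col Y (fun g => (hYc g).ge)
  have hZne : ∀ g, (Z g).Nonempty := fun g => by rw [← card_pos, hZc]; omega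
  have hdisj : ∀ g g', g ≠ g' → ∀ x ∈ Z g, ∀ y ∈ Z g', ∃ i, ¬ adj i x y := by
    intro g g' hg x hx y hy
    obtain ⟨k, -, rfl⟩ := mem_image.1 (hZY g hx)
    obtain ⟨k', -, rfl⟩ := mem_image.1 (hZY g' hy)
    exact hcon (g, k) (g', k') hg
  have hi : ∀ g g' : Fin (D + 1), ∃ i : Fin m, g < g' → ∀ x ∈ Z g, ∀ y ∈ Z g', ¬ adj i x y := by
    intro g g'
    by_cases hg : g < g'
    · obtain ⟨i, hi⟩ := hZ (g, g') (mem_univ _) hg.ne
      refine ⟨i, fun _ x hx y hy => ?_⟩
      have h1 := hcol' x y (hdisj g g' hg.ne x hx y hy)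
      rwa [hi x hx y hy] at h1
    · exact ⟨Classical.arbitrary _, fun h => absurd h hg⟩
  choose ι hι using hi
  obtain ⟨T, i, hTc, hT⟩ := hR (fun g g' => ι (min g g') (max g g')) (fun g g' => by
    rw [min_comm, max_comm])
  have hno : ∀ g ∈ T, ∀ g' ∈ T, g ≠ g' → ∀ x ∈ Z g, ∀ y ∈ Z g', ¬ adj i x y := by
    intro g hg g' hg' hne x hx y hy
    have h1 := hT g hg g' hg' hne
    rcases lt_or_gt_of_ne hne with h | h
    · rw [min_eq_left h.le, max_eq_right h.le] at h1
      rw [← h1]
      exact hι g g' h x hx y hy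
    · rw [min_eq_right h.le, max_eq_left h.le] at h1
      intro h2
      refine hι g' g h y hy x hx ?_
      rw [h1]
      exact hs i _ _ h2
  set τ : Fin (r + 1) ↪o Fin (D + 1) := T.orderEmbOfFin hTc with hτ
  have hτT : ∀ a, τ a ∈ T := fun a => Finset.orderEmbOfFin_mem _ _ _
  set ζ : ∀ g, Fin K ≃ Z g := fun g => ((Z g).equivFinOfCardEq (hZc g)).symm with hζ
  have hζm : ∀ g k, (ζ g k : α) ∈ Z g := fun g k => (ζ g k).2
  have hZd : ∀ g g' x, x ∈ Z g → x ∈ Z g' → g = g' := by
    intro g g' x hx hx'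
    obtain ⟨k, -, h1⟩ := mem_image.1 (hZY g hx)
    obtain ⟨k', -, h2⟩ := mem_image.1 (hZY g' hx')
    have := hX (h1.trans h2.symm)
    simp only [Prod.mk.injEq] at this
    exact this.1
  obtain ⟨u, v, huv, hadj⟩ := hV i (fun u => (ζ (τ u.1) u.2 : α)) (by
    rintro ⟨a, k⟩ ⟨b, l⟩ h
    simp only at h
    have h1 : τ a = τ b := hZd _ _ _ (hζm (τ a) k) (by rw [h]; exact hζm (τ b) l)
    have h2 : a = b := τ.injective h1
    subst h2
    have h3 := (ζ (τ a)).injective (Subtype.ext h)
    rw [h3]) (fun u => by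
    obtain ⟨k, -, h1⟩ := mem_image.1 (hZY _ (hζm (τ u.1) u.2))
    rw [← h1]
    exact hXV _)
  exact hno (τ u.1) (hτT _) (τ v.1) (hτT _) (fun h => huv (τ.injective h)) _ (hζm _ _) _ (hζm _ _) hadj

/-- **Circle covers for several graphs at once.** -/
theorem circles_inter {m r D : ℕ} (hm : 1 ≤ m) (hR : RP m r (D + 1)) {K : ℕ} (hK : 1 ≤ K) :
    ∃ C : ℕ, ∀ {α : Type} [DecidableEq α] (adj : Fin m → α → α → Prop),
      (∀ i x y, adj i x y → adj i y x) → ∀ (rk : α → ℕ), Function.Injective rk → ∀ V : Finset α,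
      (∀ i, NH (adj i) V r K) →
      ∃ e : Fin D → List α, Circs (fun x y => ∀ i, adj i x y) V e ∧
        (V.filter (fun x => ∀ i, x ∉ e i)).card ≤ C := by
  obtain ⟨K', hK', h⟩ := nh_inter hm hR hK
  refine ⟨(D + 1) * ((D + 1) * K' * (K' + 1) + 2 * K'), fun adj hs rk hrk V hV => ?_⟩
  exact circle_cover (fun x y hxy i => hs i _ _ (hxy i)) hK' rk hrk D V (h adj hs V hV)

end Pool.Agent.Run7.h756.CC
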