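import Mathlib
import Pool.Agent.Run7.h166.TS.Aff
import Pool.Agent.Run7.h756.CC.Inter

/-!
# Exact pairs in ordered families of linear forms at every scale

Scale versions of `Pool.Agent.Run7.h166.TS.nhF` and `gap_of_adj` (helper166).
-/

set_option autoImplicit false

namespace Pool.Agent.Run7.h756.CC

open Finset Filter
open Pool.Agent.Run7.h166.TS

open Classical in
/-- `f s` and `f t` are prime and no other form in the range is, for many `n ≤ N` -/
def AdjN (f : ℕ → ℤ × ℤ) (R : ℕ) (η : ℝ) (N s t : ℕ) : Prop :=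
  (N : ℝ) ^ (1 - η) ≤ (((Icc 1 N).filter (fun n : ℕ => Pr (f s) n ∧ Pr (f t) n ∧
    ∀ j, j ≠ s → j ≠ t → min s t ≤ j + R → j ≤ max s t + R → ¬ Pr (f j) n)).card : ℝ)

theorem adjN_symm (f : ℕ → ℤ × ℤ) (R : ℕ) (η : ℝ) (N s t : ℕ) (h : AdjN f R η N s t) : AdjN f R η N t s := by
  unfold AdjN at *
  refine h.trans (le_of_eq ?_)
  congr 2
  ext n
  simp only [mem_filter]
  constructor
  · rintro ⟨h1, h2, h3, h4⟩
    exact ⟨h1, h3, h2, fun j hj hj' h5 h6 => h4 j hj' hj (by rwa [min_comm] at h5) (by rwa [max_comm] at h6)⟩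
  · rintro ⟨h1, h2, h3, h4⟩
    exact ⟨h1, h3, h2, fun j hj hj' h5 h6 => h4 j hj' hj (by rwa [min_comm] at h5) (by rwa [max_comm] at h6)⟩

/-- **No four-partite holes at any large scale.** -/
theorem nhN : ∃ K : ℕ, 1 ≤ K ∧ ∀ f : ℕ → ℤ × ℤ, Function.Injective f →
    (∀ j, 1 ≤ (f j).1 ∧ IsCoprime (f j).1 (f j).2) → ∀ R : ℕ, ∀ X₀ : Fin 4 × Fin K → ℕ,
    Function.Injective X₀ → (∀ u v, u ≠ v → X₀ u ≤ X₀ v → R < X₀ v - X₀ u) →
    (∀ p : ℕ, p.Prime → p ≤ 4 → ∃ r : ℤ, ∀ u, ¬ (p : ℤ) ∣ (f (X₀ u)).1 * r + (f (X₀ u)).2) →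
    ∀ η : ℝ, 0 < η → ∀ᶠ N : ℕ in atTop,
    ∃ u v : Fin 4 × Fin K, u.1 ≠ v.1 ∧ AdjN f R η N (X₀ u) (X₀ v) := by
  classical
  obtain ⟨c, hc, hc1, hU⟩ := exactE
  obtain ⟨K, hK, hU⟩ := hU 4 1 (by norm_num) (by push_cast; linarith)
  set Q : ℕ := (4 * K).factorial with hQ
  have hQ0 : 0 < Q := Nat.factorial_pos _
  refine ⟨Q * Q * K, Nat.mul_pos (Nat.mul_pos hQ0 hQ0) hK, fun f hf hf1 R X₀ hX₀ hsep hloc₀ η hη => ?_⟩
  set X : Fin 4 × Fin (Q * Q * K) → ℤ × ℤ := fun u => f (X₀ u) with hX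
  have hXinj : Function.Injective X := hf.comp hX₀
  obtain ⟨c, hcinj, hc1, hc2⟩ := const_blocks (K := K) hQ0 X
  set Y : Fin 4 × Fin K → ℤ × ℤ := fun u => X (c u) with hY
  set y : Fin 4 × Fin K → ℕ := fun u => X₀ (c u) with hy
  have hyinj : Function.Injective y := hX₀.comp hcinj
  have hysep : ∀ u v, u ≠ v → y u ≤ y v → R < y v - y u := fun u v huv h =>
    hsep _ _ (fun h' => huv (hcinj h')) h
  have hloc' := local_ok Y (fun u => (hf1 _).2) hc2 (fun p hp hp4 => by
    obtain ⟨r, hr⟩ := hloc₀ p hp hp4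
    exact ⟨r, fun u => hr (c u)⟩) (fun p hp hpK => Nat.dvd_factorial hp.pos hpK)
  set M := ∑ u, y u with hM
  have hyM : ∀ u, y u ≤ M := fun u => Finset.single_le_sum (fun _ _ => Nat.zero_le _) (mem_univ u)
  have hfin := hU Y (hXinj.comp hcinj) (fun u => (hf1 _).1) (fun u => (hf1 _).2) hloc'
    (((range (M + R + 1)).filter (fun z => ∀ u, y u ≠ z)).image f) (by
    intro z hz
    obtain ⟨z', hz', rfl⟩ := mem_image.1 hz
    refine ⟨(hf1 _).1, fun u h => ?_⟩
    exact (mem_filter.1 hz').2 u (hf h).symm) η hη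
  filter_upwards [hfin] with N hN
  obtain ⟨W, hW, hW2⟩ := hN
  -- two consecutive hits in different blocks
  obtain ⟨u₁, hu₁, v₁, hv₁, huv₁⟩ := two_blocks W hW
  obtain ⟨u₀, hu₀, hmin⟩ := Finset.exists_min_image W y ⟨u₁, hu₁⟩
  have hne : (W.filter (fun v => v.1 ≠ u₀.1)).Nonempty := by
    by_contra hcon
    rw [not_nonempty_iff_eq_empty, filter_eq_empty_iff] at hcon
    have h1 := hcon hu₁
    have h2 := hcon hv₁
    push Not at h1 h2
    exact huv₁ (h1.trans h2.symm)
  obtain ⟨v, hv, hvmin⟩ := Finset.exists_min_image _ y hne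
  obtain ⟨hvW, hvu⟩ := mem_filter.1 hv
  have hne2 : (W.filter (fun w => y w < y v)).Nonempty := by
    refine ⟨u₀, mem_filter.2 ⟨hu₀, ?_⟩⟩
    refine lt_of_le_of_ne (hmin v hvW) ?_
    intro h
    exact hvu (by rw [hyinj h])
  obtain ⟨u, hu, humax⟩ := Finset.exists_max_image _ y hne2
  obtain ⟨huW, huv⟩ := mem_filter.1 hu
  have hu1 : u.1 = u₀.1 := by
    by_contra hcon
    exact absurd (hvmin u (mem_filter.2 ⟨huW, hcon⟩)) (not_le.2 huv)
  refine ⟨c u, c v, ?_, ?_⟩
  · rw [hc1, hc1, hu1]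
    exact Ne.symm hvu
  · show AdjN f R η N (y u) (y v)
    unfold AdjN
    refine hW2.trans ?_
    rw [Nat.cast_le]
    refine Finset.card_le_card ?_
    intro n hn
    rw [mem_filter] at hn
    obtain ⟨hn1, hn3, hn4⟩ := hn
    refine mem_filter.2 ⟨hn1, (hn3 u).2 huW, (hn3 v).2 hvW, ?_⟩
    rw [min_eq_left huv.le, max_eq_right huv.le]
    intro j hju hjv hj1 hj2 hjp
    by_cases hz : ∃ w, y w = j
    · obtain ⟨w, rfl⟩ := hz
      have h5 : w ∈ W := (hn3 w).1 hjp
      have hwu : w ≠ u := fun h => hju (by rw [h])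
      have hwv : w ≠ v := fun h => hjv (by rw [h])
      rcases lt_or_ge (y w) (y v) with h6 | h6
      · have h7 := humax w (mem_filter.2 ⟨h5, h6⟩)
        have h8 := hysep w u hwu h7
        omega
      · have h8 := hysep v w hwv.symm h6
        omega
    · push Not at hz
      refine hn4 (f j) ?_ hjp
      refine mem_image.2 ⟨j, mem_filter.2 ⟨mem_range.2 ?_, hz⟩, rfl⟩
      have := hyM v
      omega

open Classical in
/-- the primes `p ≤ N` with an `R`-isolated gap `d` -/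
noncomputable def OG (a b : ℤ) (R d N : ℕ) : Finset ℕ :=
  (Icc 1 N).filter (fun p : ℕ => p.Prime ∧ (It a b d p).toNat.Prime ∧
    (∀ j, 0 < j → j < d → ¬ (It a b j p).toNat.Prime) ∧
    (∀ j, d < j → j ≤ d + R → ¬ (It a b j p).toNat.Prime) ∧
    ∀ (q j : ℕ), q.Prime → 0 < j → j ≤ R → It a b j q ≠ p)

theorem OG_mono (a b : ℤ) (R d : ℕ) {N M : ℕ} (h : N ≤ M) : OG a b R d N ⊆ OG a b R d M := by
  classical
  intro p hp
  obtain ⟨h1, h2⟩ := mem_filter.1 hp
  rw [mem_Icc] at h1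
  exact mem_filter.2 ⟨mem_Icc.2 ⟨h1.1, h1.2.trans h⟩, h2⟩

/-- a bound for the growth of the first `s` iterates -/
def bnd (a b : ℤ) (s : ℕ) : ℕ := (a ^ s + |b| * ∑ i ∈ range s, a ^ i).toNat

theorem bnd_cast {a b : ℤ} (ha : 2 ≤ a) (s : ℕ) : (bnd a b s : ℤ) = a ^ s + |b| * ∑ i ∈ range s, a ^ i := by
  unfold bnd
  rw [Int.toNat_of_nonneg]
  have : 0 ≤ ∑ i ∈ range s, a ^ i := sum_nonneg fun i _ => pow_nonneg (by omega) _
  have := mul_nonneg (abs_nonneg b) this
  have : 0 ≤ a ^ s := pow_nonneg (by omega) _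
  omega

theorem bnd_pos {a b : ℤ} (ha : 2 ≤ a) (s : ℕ) : 1 ≤ bnd a b s := by
  have hc := bnd_cast (b := b) ha s
  have h1 : 1 ≤ a ^ s := one_le_pow₀ (by omega)
  have h2 : 0 ≤ ∑ i ∈ range s, a ^ i := sum_nonneg fun i _ => pow_nonneg (by omega) _
  have := mul_nonneg (abs_nonneg b) h2
  omega

theorem adjN_gap {a b : ℤ} (ha : 2 ≤ a) {R s t N : ℕ} {η : ℝ} (hst : s < t) (hN : 1 ≤ N)
    (h : AdjN (Fo a b) R η N (s + R) (t + R)) :
    (N : ℝ) ^ (1 - η) ≤ ((OG a b R (t - s) (bnd a b (s + R) * N)).card : ℝ) := by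
  classical
  set D : ℕ := bnd a b (s + R) with hD
  have hDz : (D : ℤ) = a ^ (s + R) + |b| * ∑ i ∈ range (s + R), a ^ i := bnd_cast ha _
  refine le_trans h ?_
  rw [Nat.cast_le]
  unfold OG
  refine Finset.card_le_card_of_injOn (fun n => (It a b (s + R) n).toNat) ?_ ?_
  · intro n hn
    rw [mem_coe, mem_filter, mem_Icc] at hn
    obtain ⟨⟨hn1, hn2⟩, hn3, hn4, hn5⟩ := hn
    have hPr : ∀ j, Pr (Fo a b j) n ↔ (It a b j n).toNat.Prime := fun j => Iff.rfl
    have hp : (It a b (s + R) n).toNat.Prime := (hPr _).1 hn3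
    have hpos : 0 ≤ It a b (s + R) n := by
      by_contra hcon
      rw [Int.toNat_of_nonpos (by omega)] at hp
      exact Nat.not_prime_zero hp
    have hcast : (((It a b (s + R) n).toNat : ℕ) : ℤ) = It a b (s + R) n := Int.toNat_of_nonneg hpos
    rw [mem_coe, mem_filter, mem_Icc]
    refine ⟨⟨hp.one_le, ?_⟩, hp, ?_, ?_, ?_, ?_⟩
    · have h3 : It a b (s + R) n ≤ D * N := by
        rw [hDz]
        unfold It
        have h4 : 0 ≤ ∑ i ∈ range (s + R), a ^ i := sum_nonneg fun i _ => pow_nonneg (by omega) _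
        have h5 : b * ∑ i ∈ range (s + R), a ^ i ≤ |b| * ∑ i ∈ range (s + R), a ^ i :=
          mul_le_mul_of_nonneg_right (le_abs_self b) h4
        have h6 : (|b| * ∑ i ∈ range (s + R), a ^ i) * 1 ≤ (|b| * ∑ i ∈ range (s + R), a ^ i) * N :=
          mul_le_mul_of_nonneg_left (by exact_mod_cast hN) (mul_nonneg (abs_nonneg b) h4)
        have h7 : a ^ (s + R) * n ≤ a ^ (s + R) * N :=
          mul_le_mul_of_nonneg_left (by exact_mod_cast hn2) (pow_nonneg (by omega) _)
        rw [add_mul]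
        linarith
      have h4 : (((It a b (s + R) n).toNat : ℕ) : ℤ) ≤ ((D * N : ℕ) : ℤ) := by
        rw [hcast]
        push_cast
        exact h3
      exact_mod_cast h4
    · show (It a b (t - s) ((It a b (s + R) n).toNat : ℕ)).toNat.Prime
      rw [hcast, ← It_add]
      have : s + R + (t - s) = t + R := by omega
      rw [this]
      exact (hPr _).1 hn4
    · intro j hj1 hj2
      show ¬ (It a b j ((It a b (s + R) n).toNat : ℕ)).toNat.Prime
      rw [hcast, ← It_add]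
      refine fun hp' => hn5 (s + R + j) (by omega) (by omega) ?_ ?_ ((hPr _).2 hp')
      · rw [min_eq_left (by omega)]
        omega
      · rw [max_eq_right (by omega)]
        omega
    · intro j hj1 hj2
      show ¬ (It a b j ((It a b (s + R) n).toNat : ℕ)).toNat.Prime
      rw [hcast, ← It_add]
      refine fun hp' => hn5 (s + R + j) (by omega) (by omega) ?_ ?_ ((hPr _).2 hp')
      · rw [min_eq_left (by omega)]
        omega
      · rw [max_eq_right (by omega)]
        omega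
    · intro q j hq hj1 hj2 hqj
      have h3 : It a b j q = It a b j (It a b (s + R - j) n) := by
        rw [hqj, hcast, ← It_add]
        congr 1
        omega
      have h4 := It_inj ha b j h3
      refine hn5 (s + R - j) (by omega) (by omega) ?_ ?_ ((hPr _).2 ?_)
      · rw [min_eq_left (by omega)]
        omega
      · rw [max_eq_right (by omega)]
        omega
      · rw [← h4, Int.toNat_natCast]
        exact hq
  · intro n hn n' hn' hnn
    rw [mem_coe, mem_filter] at hn hn'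
    have hp : (It a b (s + R) n).toNat.Prime := hn.2.1
    have hp' : (It a b (s + R) n').toNat.Prime := hn'.2.1
    have hpos : ∀ m : ℕ, (It a b (s + R) m).toNat.Prime → 0 ≤ It a b (s + R) m := by
      intro m hm
      by_contra hcon
      rw [Int.toNat_of_nonpos (by omega)] at hm
      exact Nat.not_prime_zero hm
    have h3 : It a b (s + R) n = It a b (s + R) n' := by
      have h4 := Int.toNat_of_nonneg (hpos _ hp)
      have h5 := Int.toNat_of_nonneg (hpos _ hp')
      have h6 : (It a b (s + R) n).toNat = (It a b (s + R) n').toNat := hnn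
      rw [← h4, ← h5, h6]
    exact_mod_cast It_inj ha b _ h3

/-- the change of the scale by a constant factor -/
theorem scale_change {η : ℝ} (hη : 0 < η) (hη1 : η ≤ 1) (D : ℕ) (hD : 1 ≤ D) : ∀ᶠ N : ℕ in atTop,
    (N : ℝ) ^ (1 - η) ≤ ((N / D : ℕ) : ℝ) ^ (1 - η / 2) := by
  have h1 := pow_shift' hη (2 * D) (by omega)
  have h2 : Tendsto (fun N : ℕ => N / D) atTop atTop := Nat.tendsto_div_const_atTop (by omega)
  filter_upwards [h2.eventually h1, eventually_ge_atTop D] with N hN hND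
  refine le_trans ?_ hN
  refine Real.rpow_le_rpow (Nat.cast_nonneg _) ?_ (by linarith)
  have h3 : 1 ≤ N / D := (Nat.one_le_div_iff (by omega)).2 hND
  have h4 := Nat.lt_div_mul_add (a := N) (b := D) (by omega)
  have h5 : N ≤ 2 * D * (N / D) := by
    have h6 : D ≤ D * (N / D) := Nat.le_mul_of_pos_right _ h3
    have h7 : N / D * D = D * (N / D) := Nat.mul_comm _ _
    have h8 : 2 * D * (N / D) = D * (N / D) + D * (N / D) := by ring
    omega
  exact_mod_cast h5

end Pool.Agent.Run7.h756.CC
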