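import Mathlib
import Pool.Agent.Run7.h166.TS.ThreeP

/-!
# Pairs of consecutive primes in residue classes

Among four blocks of `K` shifts (with local conditions modulo the modulus `q`, and modulo `2` and `3`) there
are two shifts `x`, `y` from different blocks such that `n + x` and `n + y` are consecutive primes for many
`n ≡ r (mod q)`.
-/

set_option autoImplicit false

namespace Pool.Agent.Run7.h756.CC

open Filter Finset
open Pool.Agent.Run7.h166.TS (NH exactInf Pts Pr const_blocks local_ok two_blocks pow_comp)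

open Classical in
/-- for every `η > 0` and arbitrarily large `N` at least `N ^ (1 - η)` of the numbers `1 ≤ n ≤ N` are such that
`n ≡ r (mod q)`, `n + x` and `n + y` are primes and no prime lies between them -/
def PairP (q r x y : ℕ) : Prop := ∀ η : ℝ, 0 < η → ∃ᶠ N : ℕ in atTop, (N : ℝ) ^ (1 - η) ≤
  (((Icc 1 N).filter (fun n : ℕ => n ≡ r [MOD q] ∧ (n + min x y).Prime ∧ (n + max x y).Prime ∧
    ∀ l, n + min x y < l → l < n + max x y → ¬ l.Prime)).card : ℝ)

theorem pairP_symm (q r x y : ℕ) (h : PairP q r x y) : PairP q r y x := by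
  unfold PairP at *
  rwa [max_comm, min_comm]

theorem pow_shift' (P : ℕ) (hP : 1 ≤ P) {η : ℝ} (hη : 0 < η) : ∀ᶠ N : ℕ in atTop,
    ((P * N : ℕ) : ℝ) ^ (1 - η) ≤ (N : ℝ) ^ (1 - η / 2) := by
  have h1 : ∀ᶠ N : ℕ in atTop, (P : ℝ) ≤ (N : ℝ) ^ (η / 2) :=
    ((tendsto_rpow_atTop (by positivity)).comp tendsto_natCast_atTop_atTop).eventually_ge_atTop _
  filter_upwards [h1, eventually_ge_atTop 1] with N hN1 hN2
  have hNr : (1 : ℝ) ≤ N := by exact_mod_cast hN2
  have hPr : (1 : ℝ) ≤ P := by exact_mod_cast hP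
  have h2 : (N : ℝ) ^ (1 - η / 2) = (N : ℝ) ^ (1 - η) * (N : ℝ) ^ (η / 2) := by
    rw [← Real.rpow_add (by linarith)]
    congr 1
    ring
  rw [h2]
  push_cast
  rw [Real.mul_rpow (by linarith) (by linarith), mul_comm]
  refine mul_le_mul_of_nonneg_left ?_ (Real.rpow_nonneg (by linarith) _)
  refine le_trans ?_ hN1
  calc (P : ℝ) ^ (1 - η) ≤ (P : ℝ) ^ (1 : ℝ) := Real.rpow_le_rpow_of_exponent_le hPr (by linarith)
    _ = P := Real.rpow_one _

theorem solve_mod {p q : ℕ} (hp : p.Prime) (hpq : ¬ p ∣ q) (s r : ℤ) :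
    ∃ ρ : ℤ, (p : ℤ) ∣ (q : ℤ) * ρ + r - s := by
  have h1 : IsCoprime (q : ℤ) (p : ℤ) := by
    rw [Nat.isCoprime_iff_coprime]
    exact ((Nat.Prime.coprime_iff_not_dvd hp).2 hpq).symm
  obtain ⟨a, b, hab⟩ := h1
  refine ⟨a * (s - r), ?_⟩
  have e : (q : ℤ) * (a * (s - r)) + r - s = (p : ℤ) * (-(b * (s - r))) := by
    have : a * (q : ℤ) = 1 - b * p := by linarith
    calc (q : ℤ) * (a * (s - r)) + r - s = (a * q) * (s - r) + r - s := by ring
      _ = (1 - b * p) * (s - r) + r - s := by rw [this]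
      _ = (p : ℤ) * (-(b * (s - r))) := by ring
  rw [e]
  exact dvd_mul_right _ _

/-- **Four blocks of shifts.** -/
theorem nhP : ∃ K : ℕ, 1 ≤ K ∧ ∀ q r : ℕ, 1 ≤ q → ∀ X : Fin 4 × Fin K → ℕ, Function.Injective X →
    (∀ u, Nat.Coprime (r + X u) q) →
    (∀ p : ℕ, p.Prime → p ≤ 4 → ∃ s : ℤ, ∀ u, ¬ (p : ℤ) ∣ s + X u) →
    ∃ u v : Fin 4 × Fin K, u.1 ≠ v.1 ∧ PairP q r (X u) (X v) := by
  classical
  obtain ⟨c, hc, hc1, hU⟩ := exactInf
  obtain ⟨K, hK, hU⟩ := hU 4 1 (by norm_num) (by push_cast; linarith)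
  set Q : ℕ := (4 * K).factorial with hQ
  have hQ0 : 0 < Q := Nat.factorial_pos _
  refine ⟨Q * Q * K, Nat.mul_pos (Nat.mul_pos hQ0 hQ0) hK, fun q r hq X₀ hX₀ hcop₀ hloc₀ => ?_⟩
  set X : Fin 4 × Fin (Q * Q * K) → ℤ × ℤ := fun u => ((q : ℤ), ((r + X₀ u : ℕ) : ℤ)) with hX
  have hXinj : Function.Injective X := by
    intro u v h
    simp only [hX, Prod.mk.injEq, Nat.cast_inj, true_and] at h
    exact hX₀ (by omega)
  have hXcop : ∀ u, IsCoprime (X u).1 (X u).2 := by
    intro u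
    show IsCoprime (q : ℤ) ((r + X₀ u : ℕ) : ℤ)
    rw [Nat.isCoprime_iff_coprime]
    exact (hcop₀ u).symm
  obtain ⟨c, hcinj, hc1, hc2⟩ := const_blocks (K := K) hQ0 X
  set Y : Fin 4 × Fin K → ℤ × ℤ := fun u => X (c u) with hY
  set y : Fin 4 × Fin K → ℕ := fun u => X₀ (c u) with hy
  have hyinj : Function.Injective y := hX₀.comp hcinj
  have hloc' := local_ok Y (fun u => hXcop _) hc2 (fun p hp hp4 => by
    by_cases hpq : p ∣ q
    · refine ⟨0, fun u hd => ?_⟩
      have e : (Y u).1 * 0 + (Y u).2 = ((r + X₀ (c u) : ℕ) : ℤ) := by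
        show (q : ℤ) * 0 + ((r + X₀ (c u) : ℕ) : ℤ) = _
        ring
      rw [e, Int.natCast_dvd_natCast] at hd
      have h1 := Nat.dvd_gcd hd hpq
      rw [(hcop₀ (c u)).gcd_eq_one] at h1
      exact hp.one_lt.ne' (Nat.dvd_one.1 h1)
    · obtain ⟨s, hs⟩ := hloc₀ p hp hp4
      obtain ⟨ρ, hρ⟩ := solve_mod hp hpq s r
      refine ⟨ρ, fun u hd => hs (c u) ?_⟩
      have e : s + (X₀ (c u) : ℤ) = ((Y u).1 * ρ + (Y u).2) - ((q : ℤ) * ρ + r - s) := by
        show s + (X₀ (c u) : ℤ) = ((q : ℤ) * ρ + ((r + X₀ (c u) : ℕ) : ℤ)) - ((q : ℤ) * ρ + r - s)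
        push_cast
        ring
      rw [e]
      exact dvd_sub hd hρ) (fun p hp hpK => Nat.dvd_factorial hp.pos hpK)
  set M := ∑ u, y u with hM
  have hyM : ∀ u, y u ≤ M := fun u => Finset.single_le_sum (fun _ _ => Nat.zero_le _) (mem_univ u)
  obtain ⟨W, hW, hW2⟩ := hU Y (hXinj.comp hcinj) (fun u => by
      show (1 : ℤ) ≤ (q : ℤ)
      exact_mod_cast hq) (fun u => hXcop _) hloc'
    (fun _ => ((range (M + 1)).filter (fun z => ∀ u, y u ≠ z)).image (fun z : ℕ => ((q : ℤ), ((r + z : ℕ) : ℤ)))) (by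
    intro m z hz
    obtain ⟨z', hz', rfl⟩ := mem_image.1 hz
    refine ⟨by show (1 : ℤ) ≤ (q : ℤ); exact_mod_cast hq, fun u h => ?_⟩
    have h1 : ((q : ℤ), ((r + z' : ℕ) : ℤ)) = ((q : ℤ), ((r + y u : ℕ) : ℤ)) := h
    simp only [Prod.mk.injEq, Nat.cast_inj, true_and] at h1
    exact (mem_filter.1 hz').2 u (by omega))
  -- two consecutive hits in different blocks
  obtain ⟨u₁, hu₁, v₁, hv₁, huv₁⟩ := two_blocks W hW
  obtain ⟨u₀, hu₀, hmin⟩ := Finset.exists_min_image W y ⟨u₁, hu₁⟩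
  have hne : (W.filter (fun v => v.1 ≠ u₀.1)).Nonempty := by
    by_contra hcon
    rw [not_nonempty_iff_eq_empty, filter_eq_empty_iff] at hcon
    have h1 := hcon hu₁
    have h2 := hcon hv₁
    push Not at h1 h2
    exact huv₁ (h1.trans h2.symm)
  obtain ⟨v, hv, hvmin⟩ := Finset.exists_min_image _ y hne
  obtain ⟨hvW, hvu⟩ := mem_filter.1 hv
  have hne2 : (W.filter (fun w => y w < y v)).Nonempty := by
    refine ⟨u₀, mem_filter.2 ⟨hu₀, ?_⟩⟩
    refine lt_of_le_of_ne (hmin v hvW) ?_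
    intro h
    exact hvu (by rw [hyinj h])
  obtain ⟨u, hu, humax⟩ := Finset.exists_max_image _ y hne2
  obtain ⟨huW, huv⟩ := mem_filter.1 hu
  have hu1 : u.1 = u₀.1 := by
    by_contra hcon
    exact absurd (hvmin u (mem_filter.2 ⟨huW, hcon⟩)) (not_le.2 huv)
  refine ⟨c u, c v, ?_, ?_⟩
  · rw [hc1, hc1, hu1]
    exact Ne.symm hvu
  · show PairP q r (y u) (y v)
    unfold PairP
    rw [max_eq_right huv.le, min_eq_left huv.le]
    intro η hη
    obtain ⟨m, hm1, hm2⟩ := (hW2.and_eventually (pow_comp (half_pos hη))).exists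
    have hfr := hm1.and_eventually ((eventually_ge_atTop 1).and (pow_shift' (q + r) (by omega) hη))
    have h2 : ∃ᶠ N : ℕ in atTop, (((q + r) * N : ℕ) : ℝ) ^ (1 - η) ≤
        (((Icc 1 ((q + r) * N)).filter (fun n : ℕ => n ≡ r [MOD q] ∧ (n + y u).Prime ∧ (n + y v).Prime ∧
          ∀ l, n + y u < l → l < n + y v → ¬ l.Prime)).card : ℝ) := by
      refine hfr.mono ?_
      rintro N ⟨hN1, hN2, hN4⟩
      refine hN4.trans ((hm2 N hN2).trans (hN1.trans ?_))
      rw [Nat.cast_le]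
      refine Finset.card_le_card_of_injOn (fun n => q * n + r) ?_ (fun a _ b _ h => by
        have h3 : q * a = q * b := by
          have : q * a + r = q * b + r := h
          omega
        exact Nat.eq_of_mul_eq_mul_left hq h3)
      intro n hn
      unfold Pts at hn
      rw [mem_coe, mem_filter, mem_Icc] at hn
      obtain ⟨⟨hn1, hn2⟩, hn3, hn4⟩ := hn
      have hPr : ∀ z : ℕ, Pr ((q : ℤ), ((r + z : ℕ) : ℤ)) n ↔ (q * n + r + z).Prime := by
        intro z
        unfold Pr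
        have : ((q : ℤ) * (n : ℤ) + ((r + z : ℕ) : ℤ)).toNat = q * n + r + z := by
          have h5 : (q : ℤ) * (n : ℤ) + ((r + z : ℕ) : ℤ) = ((q * n + r + z : ℕ) : ℤ) := by
            push_cast; ring
          rw [h5, Int.toNat_natCast]
        simp only [this]
      rw [mem_coe, mem_filter, mem_Icc]
      show (1 ≤ q * n + r ∧ q * n + r ≤ (q + r) * N) ∧ q * n + r ≡ r [MOD q] ∧ (q * n + r + y u).Prime ∧
        (q * n + r + y v).Prime ∧ ∀ l, q * n + r + y u < l → l < q * n + r + y v → ¬ l.Prime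
      refine ⟨⟨?_, ?_⟩, ?_, ?_, ?_, ?_⟩
      · have : 1 * 1 ≤ q * n := Nat.mul_le_mul hq hn1
        omega
      · have h5 : q * n ≤ q * N := Nat.mul_le_mul_left _ hn2
        have h6 : r * 1 ≤ r * N := Nat.mul_le_mul_left _ hN2
        have h7 : (q + r) * N = q * N + r * N := by ring
        omega
      · show (q * n + r) % q = r % q
        rw [Nat.mul_add_mod]
      · exact (hPr _).1 ((hn3 u).2 huW)
      · exact (hPr _).1 ((hn3 v).2 hvW)
      · intro l hl1 hl2 hlp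
        obtain ⟨z, rfl⟩ : ∃ z, l = q * n + r + z := ⟨l - (q * n + r), by omega⟩
        by_cases hz : ∃ w, y w = z
        · obtain ⟨w, rfl⟩ := hz
          have h5 : w ∈ W := (hn3 w).1 ((hPr _).2 hlp)
          have h6 := humax w (mem_filter.2 ⟨h5, by omega⟩)
          omega
        · push Not at hz
          refine hn4 ((q : ℤ), ((r + z : ℕ) : ℤ)) ?_ ((hPr z).2 hlp)
          refine mem_image.2 ⟨z, mem_filter.2 ⟨mem_range.2 ?_, hz⟩, rfl⟩
          have h5 := hyM v
          omega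
    have htend : Tendsto (fun N : ℕ => (q + r) * N) atTop atTop := by
      refine tendsto_atTop_mono (fun N => ?_) tendsto_id
      show N ≤ (q + r) * N
      have : 1 * N ≤ (q + r) * N := Nat.mul_le_mul_right _ (by omega)
      omega
    exact htend.frequently h2

end Pool.Agent.Run7.h756.CC
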