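import Mathlib
import Pool.Agent.N914.IX.Main
import Pool.Agent.N914.CP.Final
import Pool.Agent.Run7.h756.CC.Win
import Pool.Agent.Run7.h756.CC.Inter

/-!
# Powers of circles in graphs with small independence number, and gaps at indices in every class

A graph in which any `K₂` vertices contain an edge and any `R₀` vertices contain a large clique has all its
vertices but `R₀` on `K₂` circles on which any two vertices at distance less than `k` are adjacent.
-/

set_option autoImplicit false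
set_option linter.unusedSectionVars false

namespace Pool.Agent.Run7.h756.CC

open Finset Filter
open Pool.Agent.N914.IX (GoodI index)

/-- **Powers of circles.** -/
theorem pow_circles (K₂ k : ℕ) (hk : 1 ≤ k) : ∃ M : ℕ, ∀ R₀ : ℕ, ∀ {α : Type} [DecidableEq α] (adj : α → α → Prop),
    (∀ x y, adj x y → adj y x) → ∀ V : Finset α,
    (∀ Y ⊆ V, K₂ ≤ Y.card → ∃ x ∈ Y, ∃ y ∈ Y, x ≠ y ∧ adj x y) →
    (∀ Y ⊆ V, R₀ ≤ Y.card → ∃ W ⊆ Y, W.card = M ∧ ∀ x ∈ W, ∀ y ∈ W, x ≠ y → adj x y) →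
    ∃ e : Fin K₂ → List α, (∀ i, (e i).Nodup) ∧ (∀ i j, i ≠ j → List.Disjoint (e i) (e j)) ∧
      (∀ i, ∀ x ∈ e i, x ∈ V) ∧ (V.filter (fun x => ∀ i, x ∉ e i)).card < R₀ ∧
      ∀ i j, ∀ x ∈ ((e i).rotate j).take k, ∀ y ∈ ((e i).rotate j).take k, x ≠ y → adj x y := by
  classical
  obtain ⟨M, hM, hbl⟩ := blocks (m := 2) (K := 2 * k) (R := K₂ + 1) (by norm_num) (by omega) univ
  refine ⟨M, fun R₀ {α} _ adj hs V h1 h2 => ?_⟩
  obtain ⟨e, he1, he2, he3, he4, he5⟩ := win_circles (G := fun s => ∀ x ∈ s, ∀ y ∈ s, x ≠ y → adj x y) (V := V)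
    (k := k) (M := M) (R₀ := R₀) (D := K₂) (fun s t hst h x hx y hy hxy => h x (hst hx) y (hst hy) hxy)
    (by simp) (by omega) h2 (by
      intro Q hQ hQd
      obtain ⟨Z, hZ, hZc, hcol⟩ := hbl (fun x y => if adj x y then (1 : Fin 2) else 0) Q
        (fun g => (hQ g).2.1.ge)
      by_contra hcon
      push Not at hcon
      -- no edges between different parts
      have hno : ∀ i j, i ≠ j → ∀ x ∈ Z i, ∀ y ∈ Z j, ¬ adj x y := by
        intro i j hij x hx y hy hxy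
        obtain ⟨c, hc⟩ := hcol (i, j) (mem_univ _) hij
        have hc1 : c = 1 := by
          have := hc x hx y hy
          rw [if_pos hxy] at this
          exact this.symm
        have hall : ∀ x ∈ Z i, ∀ y ∈ Z j, adj x y := by
          intro x' hx' y' hy'
          by_contra hna
          have := hc x' hx' y' hy'
          rw [if_neg hna, hc1] at this
          exact absurd this (by decide)
        refine hcon i j hij ⟨Z i ∪ Z j, ?_, ?_, ?_⟩
        · intro u hu v hv huv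
          rcases mem_union.1 hu with hu | hu <;> rcases mem_union.1 hv with hv | hv
          · exact (hQ i).2.2 u (hZ i hu) v (hZ i hv) huv
          · exact hall u hu v hv
          · exact hs _ _ (hall v hv u hu)
          · exact (hQ j).2.2 u (hZ j hu) v (hZ j hv) huv
        · rw [← hZc i]
          exact card_le_card (fun u hu => mem_inter.2 ⟨mem_union_left _ hu, hZ i hu⟩)
        · rw [← hZc j]
          exact card_le_card (fun u hu => mem_inter.2 ⟨mem_union_right _ hu, hZ j hu⟩)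
      have hne : ∀ i, (Z i).Nonempty := fun i => card_pos.1 (by rw [hZc i]; omega)
      choose z hz using hne
      have hzinj : Function.Injective z := by
        intro i j hij
        by_contra hne'
        have h3 := hZ i (hz i)
        have h4 := hZ j (hz j)
        rw [← hij] at h4
        exact disjoint_left.1 (hQd i j hne') h3 h4
      obtain ⟨x, hx, y, hy, hxy, hadj⟩ := h1 (univ.image z) (by
        intro v hv
        obtain ⟨i, -, rfl⟩ := mem_image.1 hv
        exact (hQ i).1 (hZ i (hz i))) (by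
        rw [card_image_of_injective _ hzinj, card_univ, Fintype.card_fin]
        omega)
      obtain ⟨i, -, rfl⟩ := mem_image.1 hx
      obtain ⟨j, -, rfl⟩ := mem_image.1 hy
      exact hno i j (fun h => hxy (by rw [h])) _ (hz i) _ (hz j) hadj)
  exact ⟨e, he1, he2, he3, he4, fun i j x hx y hy hxy =>
    he5 i j x (List.mem_toFinset.2 hx) y (List.mem_toFinset.2 hy) hxy⟩

/-- **Gaps at indices in every class on powers of circles.** -/
theorem gap_pow (m : ℕ) (hm : 1 ≤ m) : ∃ B : ℕ, ∀ R M : ℕ, ∃ D : ℕ, ∀ k : ℕ, 1 ≤ k → ∃ C : ℕ,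
    ∀ (V : Finset ℕ) (Q : ℕ), ∃ x₀ : ℝ, ∀ (q a : Fin R → ℕ) (x : Fin R → ℝ),
      (∀ ρ, 1 ≤ q ρ ∧ q ρ ≤ Q ∧ (∀ v ∈ V, (a ρ + v).Coprime (q ρ)) ∧ x₀ ≤ x ρ) →
      ∃ e : Fin D → List ℕ, (∀ i, (e i).Nodup) ∧ (∀ i j, i ≠ j → List.Disjoint (e i) (e j)) ∧
        (∀ i, ∀ v ∈ e i, v ∈ V) ∧ (V.filter (fun v => ∀ i, v ∉ e i)).card ≤ C ∧
        ∀ i j, ∀ u ∈ ((e i).rotate j).take k, ∀ v ∈ ((e i).rotate j).take k, u ≠ v →
          GoodI 1 B m R M q a x {u, v} := by
  classical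
  obtain ⟨B, hB⟩ := Pool.Agent.N914.CP.str (1 + m - 1)
  refine ⟨B + 1, fun R M => ?_⟩
  choose K hK using fun L => index 1 m B hm hB L R M
  choose! x0 hx0 using hK
  refine ⟨K 2, fun k hk => ?_⟩
  obtain ⟨M₁, hM₁⟩ := pow_circles (K 2) k hk
  refine ⟨K M₁, fun V Q => ⟨∑ Y ∈ V.powerset, (|x0 2 Y Q| + |x0 M₁ Y Q|), fun q a x h => ?_⟩⟩
  have hle : ∀ Y ⊆ V, |x0 2 Y Q| + |x0 M₁ Y Q| ≤ ∑ Y ∈ V.powerset, (|x0 2 Y Q| + |x0 M₁ Y Q|) := by
    intro Y hY
    exact single_le_sum (f := fun Y => |x0 2 Y Q| + |x0 M₁ Y Q|) (fun Y _ => by positivity) (mem_powerset.2 hY)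
  have hcl : ∀ L, (∀ Y ⊆ V, x0 L Y Q ≤ |x0 2 Y Q| + |x0 M₁ Y Q|) → ∀ Y ⊆ V, K L ≤ Y.card →
      ∃ W ⊆ Y, W.card = L ∧ GoodI 1 (B + 1) m R M q a x W := by
    intro L hL Y hY hYc
    refine hx0 L Y hYc Q q a x fun ρ => ?_
    obtain ⟨e1, e2, e3, e4⟩ := h ρ
    exact ⟨e1, e2, fun v hv => e3 v (hY hv), (hL Y hY).trans ((hle Y hY).trans e4)⟩
  have hpair : ∀ W : Finset ℕ, GoodI 1 (B + 1) m R M q a x W → ∀ u ∈ W, ∀ v ∈ W,
      GoodI 1 (B + 1) m R M q a x {u, v} := by
    intro W hW u hu v hv ρ T hT h1 h2 r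
    refine hW ρ T (hT.trans ?_) h1 h2 r
    intro w hw
    rcases mem_insert.1 hw with rfl | hw
    · exact hu
    · rw [mem_singleton.1 hw]
      exact hv
  obtain ⟨e, he1, he2, he3, he4, he5⟩ := hM₁ (K M₁) (fun u v => GoodI 1 (B + 1) m R M q a x {u, v})
    (fun u v huv => by rw [pair_comm]; exact huv) V (by
      intro Y hY hYc
      obtain ⟨W, hW, hWc, hG⟩ := hcl 2 (fun Y _ => (le_abs_self _).trans (by linarith [abs_nonneg (x0 M₁ Y Q)])) Y hY hYc
      obtain ⟨u, v, huv, rfl⟩ := card_eq_two.1 hWc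
      exact ⟨u, hW (by simp), v, hW (by simp), huv, hG⟩) (by
      intro Y hY hYc
      obtain ⟨W, hW, hWc, hG⟩ := hcl M₁ (fun Y _ => (le_abs_self _).trans (by linarith [abs_nonneg (x0 2 Y Q)])) Y hY hYc
      exact ⟨W, hW, hWc, fun u hu v hv _ => hpair W hG u hu v hv⟩)
  exact ⟨e, he1, he2, he3, he4.le, he5⟩

end Pool.Agent.Run7.h756.CC
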