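import Mathlib
import Pool.Agent.Run7.h756.CC.Lin

/-!
# Dense sets between consecutive powers
-/

set_option autoImplicit false

namespace Pool.Agent.Run7.h756.CC

open Finset Filter

/-- the block of a number -/
theorem block {e N x : ℕ} (_he : 1 ≤ e) (hN : 1 ≤ N) (hx : 1 ≤ x) (hxN : x < N ^ e) :
    ∃ n, 1 ≤ n ∧ n ≤ N ∧ n ^ e ≤ x ∧ x < (n + 1) ^ e := by
  set n := Nat.findGreatest (fun n => n ^ e ≤ x) N with hn
  have h1 : n ^ e ≤ x := by
    have := Nat.findGreatest_spec (P := fun n => n ^ e ≤ x) (n := N) (m := 1) hN (by simpa using hx)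
    exact this
  have h2 : 1 ≤ n := Nat.le_findGreatest hN (by simpa using hx)
  have h3 : n ≤ N := Nat.findGreatest_le N
  refine ⟨n, h2, h3, h1, ?_⟩
  by_contra hcon
  push Not at hcon
  rcases Nat.lt_or_ge n N with h4 | h4
  · have := Nat.findGreatest_is_greatest (P := fun n => n ^ e ≤ x) (n := N) (k := n + 1) (by omega) (by omega)
    exact this hcon
  · have h5 : n = N := by omega
    rw [h5] at h1
    omega

/-- the members of `S` in the interval between `n ^ e` and `(n + 1) ^ e`, with a margin `D` -/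
def bet (S : Finset ℕ) (e D n : ℕ) : Finset ℕ := S.filter (fun x => n ^ e < x ∧ x + D < (n + 1) ^ e)

theorem bet_card {S : Finset ℕ} {e D n N : ℕ} (hn : n ≤ N) (hN : 1 ≤ N) :
    (bet S e D n).card ≤ e * 2 ^ (e - 1) * N ^ (e - 1) := by
  have h1 : bet S e D n ⊆ Ioo (n ^ e) ((n + 1) ^ e) := by
    intro x hx
    obtain ⟨-, h2, h3⟩ := mem_filter.1 hx
    exact mem_Ioo.2 ⟨h2, by omega⟩
  have h2 := card_le_card h1
  rw [Nat.card_Ioo] at h2
  have h3 : (n + 1) ^ e ≤ n ^ e + e * (n + 1) ^ (e - 1) := by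
    rcases Nat.eq_zero_or_pos e with rfl | he
    · simp
    · have h4 : ((n : ℤ) + 1) ^ e - (n : ℤ) ^ e ≤ e * ((n : ℤ) + 1) ^ (e - 1) := by
        have h5 := (Commute.all ((n : ℤ) + 1) (n : ℤ)).mul_geom_sum₂ e
        have h6 : ((n : ℤ) + 1 - n) = 1 := by ring
        rw [h6, one_mul] at h5
        rw [← h5]
        have h7 : ∀ i ∈ range e, ((n : ℤ) + 1) ^ i * (n : ℤ) ^ (e - 1 - i) ≤ ((n : ℤ) + 1) ^ (e - 1) := by
          intro i hi
          have hi' := mem_range.1 hi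
          have h8 : (n : ℤ) ^ (e - 1 - i) ≤ ((n : ℤ) + 1) ^ (e - 1 - i) :=
            pow_le_pow_left₀ (by positivity) (by linarith) _
          calc ((n : ℤ) + 1) ^ i * (n : ℤ) ^ (e - 1 - i) ≤ ((n : ℤ) + 1) ^ i * ((n : ℤ) + 1) ^ (e - 1 - i) :=
                mul_le_mul_of_nonneg_left h8 (by positivity)
            _ = ((n : ℤ) + 1) ^ (e - 1) := by
                rw [← pow_add]
                congr 1
                omega
        calc ∑ i ∈ range e, ((n : ℤ) + 1) ^ i * (n : ℤ) ^ (e - 1 - i) ≤ ∑ i ∈ range e, ((n : ℤ) + 1) ^ (e - 1) :=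
              sum_le_sum h7
          _ = e * ((n : ℤ) + 1) ^ (e - 1) := by rw [sum_const, card_range, nsmul_eq_mul]
      have h5 : (((n + 1) ^ e : ℕ) : ℤ) ≤ ((n ^ e + e * (n + 1) ^ (e - 1) : ℕ) : ℤ) := by
        push_cast
        linarith
      exact_mod_cast h5
  have h4 : (n + 1) ^ (e - 1) ≤ (2 * N) ^ (e - 1) := Nat.pow_le_pow_left (by omega) _
  have h5 : e * (n + 1) ^ (e - 1) ≤ e * (2 * N) ^ (e - 1) := Nat.mul_le_mul_left _ h4
  rw [mul_pow] at h5
  have h6 : e * (2 ^ (e - 1) * N ^ (e - 1)) = e * 2 ^ (e - 1) * N ^ (e - 1) := by ring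
  omega

/-- the counting inequality -/
theorem count_blocks {S : Finset ℕ} {e D N : ℕ} (he : 1 ≤ e) (hN : 1 ≤ N) (hS : ∀ x ∈ S, 1 ≤ x ∧ x < N ^ e) :
    S.card ≤ ∑ n ∈ Icc 1 N, (bet S e D n).card + N * (D + 1) := by
  classical
  have h1 : S ⊆ (Icc 1 N).biUnion (fun n => bet S e D n ∪ ({n ^ e} ∪ Ico ((n + 1) ^ e - D) ((n + 1) ^ e))) := by
    intro x hx
    obtain ⟨hx1, hx2⟩ := hS x hx
    obtain ⟨n, hn1, hn2, hn3, hn4⟩ := block he hN hx1 hx2
    refine mem_biUnion.2 ⟨n, mem_Icc.2 ⟨hn1, hn2⟩, ?_⟩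
    rw [mem_union]
    by_cases hb : n ^ e < x ∧ x + D < (n + 1) ^ e
    · exact Or.inl (mem_filter.2 ⟨hx, hb⟩)
    · right
      rw [mem_union, mem_singleton, mem_Ico]
      by_cases h2 : n ^ e < x
      · right
        have : ¬ x + D < (n + 1) ^ e := fun h => hb ⟨h2, h⟩
        omega
      · left
        omega
  refine (card_le_card h1).trans (card_biUnion_le.trans ?_)
  have h2 : ∀ n ∈ Icc 1 N, (bet S e D n ∪ ({n ^ e} ∪ Ico ((n + 1) ^ e - D) ((n + 1) ^ e))).card ≤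
      (bet S e D n).card + (D + 1) := by
    intro n _
    refine (card_union_le _ _).trans ?_
    have h3 := card_union_le ({n ^ e} : Finset ℕ) (Ico ((n + 1) ^ e - D) ((n + 1) ^ e))
    rw [card_singleton, Nat.card_Ico] at h3
    omega
  refine (sum_le_sum h2).trans ?_
  rw [sum_add_distrib, sum_const, Nat.card_Icc, smul_eq_mul]
  simp

/-- **Many intervals between consecutive powers contain many members of a dense set.** -/
theorem many_blocks (e B : ℕ) (he : 2 ≤ e) : ∀ᶠ N : ℕ in atTop, ∀ S : Finset ℕ,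
    (∀ x ∈ S, 1 ≤ x ∧ x < N ^ e) →
    (((N ^ e / 4 : ℕ) : ℝ)) / Real.log ((N ^ e / 4 : ℕ) : ℝ) ^ B ≤ (S.card : ℝ) →
    ∀ D : ℕ, (D : ℝ) ≤ (N : ℝ) ^ (e - 1) / Real.log N ^ (B + 3) →
    (N : ℝ) / Real.log N ^ (B + 3) ≤ (((Icc 1 N).filter (fun n =>
      (N : ℝ) ^ (e - 1) / Real.log N ^ (B + 3) ≤ ((bet S e D n).card : ℝ))).card : ℝ) := by
  have hlog : Tendsto (fun N : ℕ => Real.log N) atTop atTop := Real.tendsto_log_atTop.comp tendsto_natCast_atTop_atTop
  have hsm := (Real.isLittleO_pow_log_id_atTop (n := B + 3)).comp_tendsto tendsto_natCast_atTop_atTop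
  have hsm2 := hsm.def (c := 1) one_pos
  filter_upwards [hlog.eventually_ge_atTop (8 * (e : ℝ) ^ B + 4 + e * 2 ^ (e - 1)), hsm2, eventually_ge_atTop 8]
    with N hL hsmall hN8 S hS hcard D hD
  simp only [Function.comp_apply, id_eq, one_mul] at hsmall
  set L : ℝ := Real.log N with hLdef
  have hNr : (8 : ℝ) ≤ N := by exact_mod_cast hN8
  have hN0 : (0 : ℝ) < N := by linarith
  have heB : (0 : ℝ) ≤ (e : ℝ) ^ B := by positivity
  have hce : (0 : ℝ) ≤ (e : ℝ) * 2 ^ (e - 1) := by positivity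
  have hL4 : 4 ≤ L := by linarith
  have hL0 : 0 < L := by linarith
  have hL1 : 1 ≤ L := by linarith
  have hLN : L ^ (B + 3) ≤ N := by
    rw [Real.norm_of_nonneg (by positivity), Real.norm_of_nonneg (by positivity)] at hsmall
    exact hsmall
  obtain ⟨M, hM⟩ : ∃ M : ℕ, M = N ^ e / 4 := ⟨_, rfl⟩
  rw [← hM] at hcard
  have hNe : N ≤ N ^ e := Nat.le_self_pow (by omega) N
  have hM1 : 4 * M ≤ N ^ e := by omega
  have hM2 : N ^ e ≤ 8 * M := by omega
  have hM0 : 2 ≤ M := by omega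
  have hMr : (N : ℝ) ^ e / 8 ≤ M := by
    have : ((N ^ e : ℕ) : ℝ) ≤ ((8 * M : ℕ) : ℝ) := by exact_mod_cast hM2
    push_cast at this
    linarith
  have hMle : (M : ℝ) ≤ (N : ℝ) ^ e := by
    have : ((4 * M : ℕ) : ℝ) ≤ ((N ^ e : ℕ) : ℝ) := by exact_mod_cast hM1
    push_cast at this
    have h0 : (0 : ℝ) ≤ M := Nat.cast_nonneg _
    linarith
  have hMpos : (0 : ℝ) < M := by
    have : (2 : ℝ) ≤ M := by exact_mod_cast hM0
    linarith
  have hM1r : (1 : ℝ) < M := by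
    have : (2 : ℝ) ≤ M := by exact_mod_cast hM0
    linarith
  have hlM : Real.log M ≤ e * L := by
    have h1 := Real.log_le_log hMpos hMle
    rwa [Real.log_pow] at h1
  have hlM0 : 0 < Real.log M := Real.log_pos hM1r
  have he1 : (1 : ℝ) ≤ e := by exact_mod_cast (by omega : 1 ≤ e)
  -- the lower bound for the cardinality
  have hlow : (N : ℝ) ^ e / L ^ (B + 1) ≤ (S.card : ℝ) := by
    refine le_trans ?_ hcard
    rw [div_le_div_iff₀ (by positivity) (by positivity)]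
    have h1 : Real.log M ^ B ≤ (e * L) ^ B := pow_le_pow_left₀ hlM0.le hlM B
    have h2 : (8 : ℝ) * (e : ℝ) ^ B ≤ L := by linarith
    calc (N : ℝ) ^ e * Real.log M ^ B ≤ (N : ℝ) ^ e * (e * L) ^ B := mul_le_mul_of_nonneg_left h1 (by positivity)
      _ = ((N : ℝ) ^ e / 8) * (8 * (e : ℝ) ^ B * L ^ B) := by rw [mul_pow]; ring
      _ ≤ ((N : ℝ) ^ e / 8) * (L * L ^ B) := by
          refine mul_le_mul_of_nonneg_left ?_ (by positivity)
          exact mul_le_mul_of_nonneg_right h2 (by positivity)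
      _ ≤ (M : ℝ) * (L * L ^ B) := mul_le_mul_of_nonneg_right hMr (by positivity)
      _ = (M : ℝ) * L ^ (B + 1) := by rw [pow_succ]; ring
  -- the upper bound
  have hup := count_blocks (D := D) (by omega : 1 ≤ e) (by omega : 1 ≤ N) hS
  set T : ℝ := (N : ℝ) ^ (e - 1) / L ^ (B + 3) with hT
  set G := (Icc 1 N).filter (fun n => T ≤ ((bet S e D n).card : ℝ)) with hG
  have hNpow : (N : ℝ) * (N : ℝ) ^ (e - 1) = (N : ℝ) ^ e := by
    rw [mul_comm, ← pow_succ]
    congr 1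
    omega
  have hsum : ((∑ n ∈ Icc 1 N, (bet S e D n).card : ℕ) : ℝ) ≤
      (G.card : ℝ) * (e * 2 ^ (e - 1) * (N : ℝ) ^ (e - 1)) + N * T := by
    push_cast
    have h1 : ∀ n ∈ Icc 1 N, ((bet S e D n).card : ℝ) ≤
        (if T ≤ ((bet S e D n).card : ℝ) then ((e : ℝ) * 2 ^ (e - 1) * (N : ℝ) ^ (e - 1)) else 0) + T := by
      intro n hn
      have hn' := mem_Icc.1 hn
      have hT0 : 0 ≤ T := by positivity
      split_ifs with h
      · have h2 := bet_card (S := S) (e := e) (D := D) hn'.2 (by omega)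
        have h3 : ((bet S e D n).card : ℝ) ≤ (e : ℝ) * 2 ^ (e - 1) * (N : ℝ) ^ (e - 1) := by exact_mod_cast h2
        linarith
      · push Not at h
        linarith
    refine (sum_le_sum h1).trans ?_
    rw [sum_add_distrib, ← sum_filter, sum_const, sum_const, Nat.card_Icc, nsmul_eq_mul, nsmul_eq_mul]
    simp only [Nat.add_sub_cancel]
    exact le_refl _
  have hupr : (S.card : ℝ) ≤ (G.card : ℝ) * (e * 2 ^ (e - 1) * (N : ℝ) ^ (e - 1)) + N * T + N * (D + 1) := by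
    have h1 : (S.card : ℝ) ≤ ((∑ n ∈ Icc 1 N, (bet S e D n).card + N * (D + 1) : ℕ) : ℝ) := by exact_mod_cast hup
    push_cast at h1 hsum
    linarith
  have hND : (N : ℝ) * D ≤ (N : ℝ) ^ e / L ^ (B + 3) := by
    calc (N : ℝ) * D ≤ N * ((N : ℝ) ^ (e - 1) / L ^ (B + 3)) := mul_le_mul_of_nonneg_left hD hN0.le
      _ = _ := by rw [← mul_div_assoc, hNpow]
  have hNT : (N : ℝ) * T = (N : ℝ) ^ e / L ^ (B + 3) := by rw [hT, ← mul_div_assoc, hNpow]
  have hN1 : (N : ℝ) ≤ (N : ℝ) ^ e / L ^ (B + 3) := by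
    rw [le_div_iff₀ (by positivity)]
    have h2 : (N : ℝ) * L ^ (B + 3) ≤ N * N := mul_le_mul_of_nonneg_left hLN hN0.le
    refine h2.trans ?_
    rw [← sq]
    exact pow_le_pow_right₀ (by linarith) he
  have hmain : (N : ℝ) ^ e / L ^ (B + 2) ≤ (G.card : ℝ) * (e * 2 ^ (e - 1) * (N : ℝ) ^ (e - 1)) := by
    have h1 : (N : ℝ) ^ e / L ^ (B + 1) ≤ (G.card : ℝ) * (e * 2 ^ (e - 1) * (N : ℝ) ^ (e - 1)) +
        3 * ((N : ℝ) ^ e / L ^ (B + 3)) := by
      have := hlow.trans hupr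
      rw [hNT] at this
      linarith
    have h2 : (N : ℝ) ^ e / L ^ (B + 2) + 3 * ((N : ℝ) ^ e / L ^ (B + 3)) ≤ (N : ℝ) ^ e / L ^ (B + 1) := by
      have e1 : (N : ℝ) ^ e / L ^ (B + 2) = ((N : ℝ) ^ e / L ^ (B + 3)) * L := by
        rw [div_mul_eq_mul_div, div_eq_div_iff (by positivity) (by positivity)]
        ring
      have e2 : (N : ℝ) ^ e / L ^ (B + 1) = ((N : ℝ) ^ e / L ^ (B + 3)) * (L * L) := by
        rw [div_mul_eq_mul_div, div_eq_div_iff (by positivity) (by positivity)]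
        ring
      rw [e1, e2]
      have h0 : (0 : ℝ) ≤ (N : ℝ) ^ e / L ^ (B + 3) := by positivity
      have h3 : L + 3 ≤ L * L := by nlinarith
      calc ((N : ℝ) ^ e / L ^ (B + 3)) * L + 3 * ((N : ℝ) ^ e / L ^ (B + 3)) =
          ((N : ℝ) ^ e / L ^ (B + 3)) * (L + 3) := by ring
        _ ≤ _ := mul_le_mul_of_nonneg_left h3 h0
    linarith
  rw [div_le_iff₀ (by positivity)] at hmain
  rw [div_le_iff₀ (by positivity)]
  have hNe1 : (0 : ℝ) < (N : ℝ) ^ (e - 1) := by positivity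
  have hc : (e : ℝ) * 2 ^ (e - 1) ≤ L := by linarith
  have h5 : (N : ℝ) * (N : ℝ) ^ (e - 1) ≤ (G.card : ℝ) * L ^ (B + 3) * (N : ℝ) ^ (e - 1) := by
    rw [hNpow]
    refine hmain.trans ?_
    calc (G.card : ℝ) * (e * 2 ^ (e - 1) * (N : ℝ) ^ (e - 1)) * L ^ (B + 2) =
        ((G.card : ℝ) * (N : ℝ) ^ (e - 1) * L ^ (B + 2)) * (e * 2 ^ (e - 1)) := by ring
      _ ≤ ((G.card : ℝ) * (N : ℝ) ^ (e - 1) * L ^ (B + 2)) * L := mul_le_mul_of_nonneg_left hc (by positivity)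
      _ = _ := by rw [pow_succ L (B + 2)]; ring
  exact le_of_mul_le_mul_right h5 hNe1

end Pool.Agent.Run7.h756.CC
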