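import Mathlib
import Pool.Agent.Run7.h756.CC.Pow
import Pool.Agent.Run7.h756.CC.OrbS

/-!
# Isolated pairs of consecutive primes between consecutive powers at every scale
-/

set_option autoImplicit false

namespace Pool.Agent.Run7.h756.CC

open Finset Filter
open Pool.Agent.Run7.h166.TS

/-- **Sets of power-saving density between consecutive powers.** -/
theorem many_blocks' (e : ℕ) (he : 2 ≤ e) (D : ℕ) {η : ℝ} (hη : 0 < η) (hη1 : η ≤ 1) :
    ∀ᶠ N : ℕ in atTop, ∀ S : Finset ℕ, (∀ x ∈ S, 1 ≤ x ∧ x < N ^ e) →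
    (((N ^ e / 4 : ℕ) : ℝ)) ^ (1 - η / (2 * e)) ≤ (S.card : ℝ) →
    (N : ℝ) ^ (1 - η) ≤ (((Icc 1 N).filter (fun n =>
      (N : ℝ) ^ (((e - 1 : ℕ) : ℝ) - η) ≤ ((bet S e D n).card : ℝ))).card : ℝ) := by
  have hη2 : 0 < η / 2 := by linarith
  have h1 := ((tendsto_rpow_atTop hη2).comp tendsto_natCast_atTop_atTop).eventually_ge_atTop
    (16 * ((D : ℝ) + 2) + 16 * ((e : ℝ) * 2 ^ (e - 1)))
  filter_upwards [h1, eventually_ge_atTop 8] with N hy hN8 S hS hcard
  simp only [Function.comp_apply] at hy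
  set y : ℝ := (N : ℝ) ^ (η / 2) with hydef
  set c : ℝ := (e : ℝ) * 2 ^ (e - 1) with hc
  have hNr : (8 : ℝ) ≤ N := by exact_mod_cast hN8
  have hN0 : (0 : ℝ) < N := by linarith
  have he1 : (2 : ℝ) ≤ e := by exact_mod_cast he
  have hc0 : 0 < c := by positivity
  have hD0 : (0 : ℝ) ≤ D := Nat.cast_nonneg _
  have hy0 : 0 < y := Real.rpow_pos_of_pos hN0 _
  have hy16D : 16 * ((D : ℝ) + 2) ≤ y := by linarith
  have hy16c : 16 * c ≤ y := by linarith
  have hyy : y * y = (N : ℝ) ^ η := by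
    rw [hydef, ← Real.rpow_add hN0]
    congr 1
    ring
  have hyN : y * y ≤ N := by
    rw [hyy]
    calc (N : ℝ) ^ η ≤ (N : ℝ) ^ (1 : ℝ) := Real.rpow_le_rpow_of_exponent_le (by linarith) hη1
      _ = N := Real.rpow_one _
  -- lower bound
  have hlow : (N : ℝ) ^ e / (8 * y) ≤ (S.card : ℝ) := by
    refine le_trans ?_ hcard
    obtain ⟨M, hM⟩ : ∃ M : ℕ, M = N ^ e / 4 := ⟨_, rfl⟩
    rw [← hM]
    have hNe : N ≤ N ^ e := Nat.le_self_pow (by omega) N
    have hM2 : N ^ e ≤ 8 * M := by omega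
    have hMr : (N : ℝ) ^ e / 8 ≤ M := by
      have : ((N ^ e : ℕ) : ℝ) ≤ ((8 * M : ℕ) : ℝ) := by exact_mod_cast hM2
      push_cast at this
      linarith
    have hq : 0 ≤ 1 - η / (2 * e) := by
      have : η / (2 * e) ≤ 1 := by
        rw [div_le_one (by positivity)]
        linarith
      linarith
    refine le_trans ?_ (Real.rpow_le_rpow (by positivity) hMr hq)
    rw [Real.div_rpow (by positivity) (by norm_num)]
    have h3 : ((N : ℝ) ^ e) ^ (1 - η / (2 * e)) = (N : ℝ) ^ e / y := by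
      rw [← Real.rpow_natCast, ← Real.rpow_mul hN0.le, hydef, ← Real.rpow_sub hN0]
      congr 1
      field_simp
    rw [h3]
    have h4 : (8 : ℝ) ^ (1 - η / (2 * e)) ≤ 8 := by
      calc (8 : ℝ) ^ (1 - η / (2 * e)) ≤ (8 : ℝ) ^ (1 : ℝ) := by
            refine Real.rpow_le_rpow_of_exponent_le (by norm_num) ?_
            have : 0 ≤ η / (2 * e) := by positivity
            linarith
        _ = 8 := Real.rpow_one _
    have h5 : (0 : ℝ) < (8 : ℝ) ^ (1 - η / (2 * e)) := Real.rpow_pos_of_pos (by norm_num) _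
    rw [div_div, div_le_div_iff₀ (by positivity) (by positivity)]
    have h6 : (N : ℝ) ^ e * (y * (8 : ℝ) ^ (1 - η / (2 * e))) ≤ (N : ℝ) ^ e * (y * 8) :=
      mul_le_mul_of_nonneg_left (mul_le_mul_of_nonneg_left h4 hy0.le) (by positivity)
    calc (N : ℝ) ^ e * (y * (8 : ℝ) ^ (1 - η / (2 * e))) ≤ (N : ℝ) ^ e * (y * 8) := h6
      _ = (N : ℝ) ^ e * (8 * y) := by ring
  have hup := count_blocks (D := D) (by omega : 1 ≤ e) (by omega : 1 ≤ N) hS
  have hT : (N : ℝ) ^ (((e - 1 : ℕ) : ℝ) - η) = (N : ℝ) ^ (e - 1) / (y * y) := by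
    rw [Real.rpow_sub hN0, hyy, Real.rpow_natCast]
  rw [hT]
  set T : ℝ := (N : ℝ) ^ (e - 1) / (y * y) with hTdef
  have hT0 : 0 ≤ T := by positivity
  set G := (Icc 1 N).filter (fun n => T ≤ ((bet S e D n).card : ℝ)) with hG
  have hNpow : (N : ℝ) * (N : ℝ) ^ (e - 1) = (N : ℝ) ^ e := by
    rw [mul_comm, ← pow_succ]
    congr 1
    omega
  have hsum : ((∑ n ∈ Icc 1 N, (bet S e D n).card : ℕ) : ℝ) ≤
      (G.card : ℝ) * (c * (N : ℝ) ^ (e - 1)) + N * T := by
    push_cast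
    have h1 : ∀ n ∈ Icc 1 N, ((bet S e D n).card : ℝ) ≤
        (if T ≤ ((bet S e D n).card : ℝ) then (c * (N : ℝ) ^ (e - 1)) else 0) + T := by
      intro n hn
      have hn' := mem_Icc.1 hn
      split_ifs with h
      · have h2 := bet_card (S := S) (e := e) (D := D) hn'.2 (by omega)
        have h3 : ((bet S e D n).card : ℝ) ≤ (e : ℝ) * 2 ^ (e - 1) * (N : ℝ) ^ (e - 1) := by exact_mod_cast h2
        linarith
      · push Not at h
        linarith
    refine (sum_le_sum h1).trans ?_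
    rw [sum_add_distrib, ← sum_filter, sum_const, sum_const, Nat.card_Icc, nsmul_eq_mul, nsmul_eq_mul]
    simp only [Nat.add_sub_cancel]
    exact le_refl _
  have hupr : (S.card : ℝ) ≤ (G.card : ℝ) * (c * (N : ℝ) ^ (e - 1)) + N * T + N * (D + 1) := by
    have h1 : (S.card : ℝ) ≤ ((∑ n ∈ Icc 1 N, (bet S e D n).card + N * (D + 1) : ℕ) : ℝ) := by exact_mod_cast hup
    push_cast at h1 hsum
    linarith
  have hNT : (N : ℝ) * T = (N : ℝ) ^ e / (y * y) := by rw [hTdef, ← mul_div_assoc, hNpow]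
  have hND : (N : ℝ) * (D + 1) ≤ (D + 1) * ((N : ℝ) ^ e / (y * y)) := by
    have h2 : (N : ℝ) ≤ (N : ℝ) ^ e / (y * y) := by
      rw [le_div_iff₀ (by positivity)]
      have h3 : (N : ℝ) * (y * y) ≤ N * N := mul_le_mul_of_nonneg_left hyN hN0.le
      refine h3.trans ?_
      rw [← sq]
      exact pow_le_pow_right₀ (by linarith) he
    calc (N : ℝ) * (D + 1) = (D + 1) * N := by ring
      _ ≤ _ := mul_le_mul_of_nonneg_left h2 (by positivity)
  -- put together
  have hz : (N : ℝ) ^ e / (8 * y) = ((N : ℝ) ^ e / (y * y)) * (y / 8) := by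
    rw [div_mul_div_comm, div_eq_div_iff (by positivity) (by positivity)]
    ring
  have hZ0 : 0 < (N : ℝ) ^ e / (y * y) := by positivity
  have hmain : ((N : ℝ) ^ e / (y * y)) * (y / 16) ≤ (G.card : ℝ) * (c * (N : ℝ) ^ (e - 1)) := by
    have h1 : ((N : ℝ) ^ e / (y * y)) * (y / 8) ≤ (G.card : ℝ) * (c * (N : ℝ) ^ (e - 1)) +
        (D + 2) * ((N : ℝ) ^ e / (y * y)) := by
      have := hlow.trans hupr
      rw [hNT, hz] at this
      linarith
    have h2 : (D + 2) * ((N : ℝ) ^ e / (y * y)) ≤ (y / 16) * ((N : ℝ) ^ e / (y * y)) :=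
      mul_le_mul_of_nonneg_right (by linarith) hZ0.le
    linarith
  have hfin : (N : ℝ) / (y * y) * (c * (N : ℝ) ^ (e - 1)) ≤ (G.card : ℝ) * (c * (N : ℝ) ^ (e - 1)) := by
    refine le_trans ?_ hmain
    calc (N : ℝ) / (y * y) * (c * (N : ℝ) ^ (e - 1)) = ((N : ℝ) * (N : ℝ) ^ (e - 1)) / (y * y) * c := by ring
      _ = ((N : ℝ) ^ e / (y * y)) * c := by rw [hNpow]
      _ ≤ _ := mul_le_mul_of_nonneg_left (by linarith) hZ0.le
  have hlast := le_of_mul_le_mul_right hfin (by positivity)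
  rw [Real.rpow_sub hN0, Real.rpow_one, ← hyy]
  exact hlast

/-- the forms `n ↦ n + j` -/
def Sh (j : ℕ) : ℤ × ℤ := (1, j)

theorem Sh_inj : Function.Injective Sh := by
  intro a b h
  unfold Sh at h
  simpa using h

/-- no four-partite holes in a finite set of shifts, at all large scales -/
theorem nh_shift (K : ℕ) (hK : ∀ f : ℕ → ℤ × ℤ, Function.Injective f →
    (∀ j, 1 ≤ (f j).1 ∧ IsCoprime (f j).1 (f j).2) → ∀ R : ℕ, ∀ X₀ : Fin 4 × Fin K → ℕ,
    Function.Injective X₀ → (∀ u v, u ≠ v → X₀ u ≤ X₀ v → R < X₀ v - X₀ u) →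
    (∀ p : ℕ, p.Prime → p ≤ 4 → ∃ r : ℤ, ∀ u, ¬ (p : ℤ) ∣ (f (X₀ u)).1 * r + (f (X₀ u)).2) →
    ∀ η : ℝ, 0 < η → ∀ᶠ N : ℕ in atTop,
    ∃ u v : Fin 4 × Fin K, u.1 ≠ v.1 ∧ AdjN f R η N (X₀ u) (X₀ v))
    {R : ℕ} {V : Finset ℕ} {f : ℕ → ℕ}
    (hsep : ∀ s ∈ V, ∀ t ∈ V, s ≠ t → R < max (f s) (f t) - min (f s) (f t))
    (hloc : ∀ p : ℕ, p = 2 ∨ p = 3 → ∃ c : ℕ, ∀ v ∈ V, ¬ f v ≡ c [MOD p])
    {η : ℝ} (hη : 0 < η) :
    ∀ᶠ N : ℕ in atTop, NH (fun x y => AdjN Sh R η N (f x + R) (f y + R)) V 3 K := by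
  have h1 : ∀ᶠ N : ℕ in atTop, ∀ X : Fin 4 × Fin K → V, Function.Injective X →
      ∃ u v : Fin 4 × Fin K, u.1 ≠ v.1 ∧ AdjN Sh R η N (f (X u) + R) (f (X v) + R) := by
    rw [Filter.eventually_all]
    intro X
    by_cases hX : Function.Injective X
    · have h2 := hK Sh Sh_inj (fun j => ⟨le_rfl, isCoprime_one_left⟩) R (fun u => f (X u) + R) ?_ ?_ ?_ η hη
      · filter_upwards [h2] with N hN _
        exact hN
      · intro u v huv
        by_contra hne
        have h1 := hsep _ (X u).2 _ (X v).2 (fun h => hne (hX (Subtype.ext h)))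
        have h2 : f (X u) = f (X v) := by simpa using huv
        rw [h2] at h1
        simp at h1
      · intro u v huv h'
        have h1 : f (X u) ≤ f (X v) := by simpa using h'
        have h2 := hsep _ (X u).2 _ (X v).2 (fun h => huv (hX (Subtype.ext h)))
        rw [max_eq_right h1, min_eq_left h1] at h2
        show R < f (X v) + R - (f (X u) + R)
        omega
      · intro p hp hp4
        obtain ⟨c, hc⟩ := hloc p (by
          have := hp.two_le
          interval_cases p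
          · exact Or.inl rfl
          · exact Or.inr rfl
          · exact absurd hp (by norm_num))
        refine ⟨-((c : ℤ) + R), fun u hd => hc _ (X u).2 ?_⟩
        have h3 : (p : ℤ) ∣ (f (X u) : ℤ) - c := by
          have : (Sh (f (X u) + R)).1 * (-((c : ℤ) + R)) + (Sh (f (X u) + R)).2 = (f (X u) : ℤ) - c := by
            unfold Sh
            push_cast
            ring
          rwa [this] at hd
        exact (Nat.modEq_iff_dvd.2 h3).symm
    · exact Eventually.of_forall fun N h => absurd h hX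
  filter_upwards [h1] with N hN X hX hXV
  exact hN (fun u => ⟨X u, hXV u⟩) (fun u v h => hX (congrArg Subtype.val h))

open Classical in
/-- the `p ≤ N` such that `p` and `p + d` are prime and there are no other primes in `[p - R, p + d + R]` -/
noncomputable def IG (R d N : ℕ) : Finset ℕ := (Icc 1 N).filter (fun p : ℕ => p.Prime ∧ (p + d).Prime ∧
    ∀ q : ℕ, q.Prime → p ≤ q + R → q ≤ p + d + R → q = p ∨ q = p + d)

theorem adjN_shift {R s t N M : ℕ} {η : ℝ} (hst : s < t) (hM : N + s + R ≤ M)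
    (h : AdjN Sh R η N (s + R) (t + R)) : (N : ℝ) ^ (1 - η) ≤ ((IG R (t - s) M).card : ℝ) := by
  classical
  refine le_trans h ?_
  rw [Nat.cast_le]
  have hPr : ∀ j n : ℕ, Pr (Sh j) n ↔ (n + j).Prime := by
    intro j n
    unfold Pr Sh
    have : ((1 : ℤ) * (n : ℤ) + (j : ℤ)).toNat = n + j := by omega
    simp only [this]
  unfold IG
  refine Finset.card_le_card_of_injOn (fun n => n + (s + R)) ?_ ?_
  · intro n hn
    rw [mem_coe, mem_filter, mem_Icc] at hn
    obtain ⟨⟨hn1, hn2⟩, hn3, hn4, hn5⟩ := hn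
    rw [hPr] at hn3 hn4
    beta_reduce
    rw [mem_coe, mem_filter, mem_Icc]
    have e1 : n + (s + R) + (t - s) = n + (t + R) := by omega
    refine ⟨⟨by omega, by omega⟩, hn3, by rw [e1]; exact hn4, fun q hqp hq1 hq => ?_⟩
    rw [e1] at hq
    rw [e1]
    by_contra hcon
    push Not at hcon
    refine hn5 (q - n) (by omega) (by omega) ?_ ?_ ?_
    · rw [min_eq_left (by omega)]
      omega
    · rw [max_eq_right (by omega)]
      omega
    · rw [hPr]
      have e2 : n + (q - n) = q := by omega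
      rwa [e2]
  · intro a _ b _ hab
    simp only at hab
    omega

end Pool.Agent.Run7.h756.CC
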