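import Mathlib
import Pool.Agent.Run7.h756.CC.Pow

/-!
# Circles of shifts whose patterns are frequent between consecutive powers
-/

set_option autoImplicit false

namespace Pool.Agent.Run7.h756.CC

open Finset Filter
open Pool.Agent.Y827.GS (cntN Adf)

/-- the numbers `x` in `[N, 3 N]` such that `x + v` is prime for all `v` in `F` -/
def starts3 (F : Finset ℕ) (N : ℕ) : Finset ℕ := (Icc N (3 * N)).filter (fun x : ℕ => ∀ v ∈ F, (x + v).Prime)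

theorem cnt_starts3 (F : Finset ℕ) (g : ℕ → ℕ) (N : ℕ) :
    cntN (F.image (fun v => ((1 : ℤ), (g v : ℤ) + N))) (2 * N) ≤ (starts3 (F.image g) N).card := by
  unfold cntN starts3
  rw [← card_image_of_injective (f := fun n : ℕ => n + N) _ (by
    intro a b hab
    simp only at hab
    omega)]
  apply card_le_card
  intro x hx
  obtain ⟨n, hn, rfl⟩ := mem_image.1 hx
  obtain ⟨h1, h2⟩ := mem_filter.1 hn
  rw [mem_Icc] at h1
  refine mem_filter.2 ⟨mem_Icc.2 ⟨by omega, by omega⟩, fun u hu => ?_⟩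
  obtain ⟨v, hv, rfl⟩ := mem_image.1 hu
  have h3 := h2 _ (mem_image_of_mem _ hv)
  have e : ((1 : ℤ) * (n : ℤ) + ((g v : ℤ) + N)).toNat = n + N + g v := by omega
  simp only at h3
  rwa [e] at h3

/-- circles at several scales, for shifts -/
theorem shift_circles (R k : ℕ) (hk : 1 ≤ k) : ∃ C B N₀ : ℕ, ∀ N : Fin R → ℕ, (∀ i, N₀ ≤ N i) →
      ∀ (V : Finset ℕ) (f : Fin R → ℕ → ℕ),
      (∀ i, Set.InjOn (f i) V) → (∀ i, ∀ v ∈ V, f i v ≤ N i) →
      (∀ i, ∀ p : ℕ, p.Prime → p ≤ B → ∃ s : ℕ, ∀ v ∈ V, ¬ f i v ≡ s [MOD p]) →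
      ∃ e : Fin (Pool.Agent.R493.SI.mR R) → List ℕ, (∀ i, (e i).Nodup) ∧
        (∀ i j, i ≠ j → List.Disjoint (e i) (e j)) ∧ (∀ i, ∀ v ∈ e i, v ∈ V) ∧
        (V.filter (fun v => ∀ i, v ∉ e i)).card ≤ C ∧
        ∀ i j, e i ≠ [] → ∀ ρ, (N ρ : ℝ) / (Real.log (N ρ)) ^ B ≤
          ((starts3 (((((e i).rotate j).take k).toFinset).image (f ρ)) (N ρ)).card : ℝ) := by
  obtain ⟨C, B, h⟩ := scale_circles R k hk
  obtain ⟨N₀, hN₀⟩ := h 1
  obtain ⟨N₁, hN₁⟩ := Pool.Agent.R493.SC.log_loss B 2 (by omega)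
  refine ⟨C, B + 1, N₀ + N₁, fun N hN V f hf hle hloc => ?_⟩
  obtain ⟨e, he1, he2, he3, he4, he5⟩ := hN₀ (fun i => 2 * N i) (fun i => by
      have h2 := hN i
      show N₀ ≤ 2 * N i
      omega) V (fun i v => ((1 : ℤ), (f i v : ℤ) + N i))
    (fun i v hv w hw hvw => by
      simp only [Prod.mk.injEq, true_and] at hvw
      exact hf i hv hw (by omega))
    (fun i v hv => by
      have h1 := hle i v hv
      refine ⟨by norm_num, by norm_num, ?_, isCoprime_one_left, ?_⟩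
      · show |(f i v : ℤ) + N i| ≤ ((2 * N i : ℕ) : ℤ)
        rw [abs_of_nonneg (by positivity)]
        push_cast
        omega
      · intro t ht1 ht2
        have h3 : (0 : ℝ) ≤ (f i v : ℝ) := Nat.cast_nonneg _
        have h4 : (0 : ℝ) ≤ (N i : ℝ) := Nat.cast_nonneg _
        push_cast at ht1 ⊢
        linarith)
    (fun i p hp hpB => by
      obtain ⟨s, hs⟩ := hloc i p hp (by omega)
      refine ⟨-(s : ℤ) - N i, fun v hv hd => hs v hv ?_⟩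
      have h1 : (p : ℤ) ∣ (f i v : ℤ) - s := by
        have : (1 : ℤ) * (-(s : ℤ) - N i) + ((f i v : ℤ) + N i) = (f i v : ℤ) - s := by ring
        rwa [this] at hd
      exact (Nat.modEq_iff_dvd.2 h1).symm)
  refine ⟨e, he1, he2, he3, he4, fun j l hne i => ?_⟩
  have h1 := he5 i j l hne
  unfold Oft at h1
  refine (hN₁ (N i) (by have := hN i; omega)).trans (h1.trans ?_)
  rw [Nat.cast_le]
  exact cnt_starts3 _ (f i) (N i)

/-- the numbers `x > n ^ e` such that `x + v` is a prime less than `(n + 1) ^ e` for all `v ∈ F` -/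
def inside (F : Finset ℕ) (e n : ℕ) : Finset ℕ :=
  (Ioo (n ^ e) ((n + 1) ^ e)).filter (fun x : ℕ => ∀ v ∈ F, (x + v).Prime ∧ x + v < (n + 1) ^ e)

/-- **Circles between consecutive powers.** -/
theorem pow_circles (R k : ℕ) (hk : 1 ≤ k) : ∃ C B : ℕ, ∀ d : Fin R → ℕ, (∀ i, 2 ≤ d i) → ∃ N₀ : ℕ,
      ∀ N : Fin R → ℕ, (∀ i, N₀ ≤ N i) → ∀ (V : Finset ℕ) (f : Fin R → ℕ → ℕ),
      (∀ i, Set.InjOn (f i) V) →
      (∀ i, ∀ v ∈ V, (f i v : ℝ) ≤ (N i : ℝ) ^ (d i - 1) / (Real.log (N i)) ^ B) →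
      (∀ i, ∀ p : ℕ, p.Prime → p ≤ B → ∃ s : ℕ, ∀ v ∈ V, ¬ f i v ≡ s [MOD p]) →
      ∃ e : Fin (Pool.Agent.R493.SI.mR R) → List ℕ, (∀ i, (e i).Nodup) ∧
        (∀ i j, i ≠ j → List.Disjoint (e i) (e j)) ∧ (∀ i, ∀ v ∈ e i, v ∈ V) ∧
        (V.filter (fun v => ∀ i, v ∉ e i)).card ≤ C ∧
        ∀ i j, e i ≠ [] → ∀ ρ, (N ρ : ℝ) / (Real.log (N ρ)) ^ B ≤
          (((Icc 1 (N ρ)).filter (fun n => (N ρ : ℝ) ^ (d ρ - 1) / (Real.log (N ρ)) ^ B ≤
            ((inside (((((e i).rotate j).take k).toFinset).image (f ρ)) (d ρ) n).card : ℝ))).card : ℝ) := by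
  classical
  obtain ⟨C, B, N₀, h⟩ := shift_circles R k hk
  refine ⟨C, B + 3, fun d hd => ?_⟩
  have hlog : Tendsto (fun N : ℕ => Real.log N) atTop atTop := Real.tendsto_log_atTop.comp tendsto_natCast_atTop_atTop
  have hev : ∀ i, ∀ᶠ N : ℕ in atTop, (∀ S : Finset ℕ,
    (∀ x ∈ S, 1 ≤ x ∧ x < N ^ d i) →
    (((N ^ d i / 4 : ℕ) : ℝ)) / Real.log ((N ^ d i / 4 : ℕ) : ℝ) ^ B ≤ (S.card : ℝ) →
    ∀ D : ℕ, (D : ℝ) ≤ (N : ℝ) ^ (d i - 1) / Real.log N ^ (B + 3) →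
    (N : ℝ) / Real.log N ^ (B + 3) ≤ (((Icc 1 N).filter (fun n =>
      (N : ℝ) ^ (d i - 1) / Real.log N ^ (B + 3) ≤ ((bet S (d i) D n).card : ℝ))).card : ℝ)) ∧
      (4 * N₀ + 8 ≤ N ∧ 1 ≤ Real.log N) := fun i =>
    (many_blocks (d i) B (hd i)).and ((eventually_ge_atTop _).and (hlog.eventually_ge_atTop 1))
  obtain ⟨N₁, hN₁⟩ := eventually_atTop.1 (eventually_all.2 hev)
  refine ⟨N₁, fun N hN V f hf hle hloc => ?_⟩
  have hN' : ∀ i, _ := fun i => hN₁ (N i) (hN i) i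
  have hpow : ∀ i, N i * N i ^ (d i - 1) = N i ^ d i := by
    intro i
    rw [mul_comm, ← pow_succ]
    congr 1
    have := hd i
    omega
  have hself : ∀ i, N i ≤ N i ^ d i := fun i => Nat.le_self_pow (by have := hd i; omega) _
  have hfl : ∀ i, ∀ v ∈ V, f i v ≤ N i ^ (d i - 1) := by
    intro i v hv
    have h1 := hle i v hv
    have h2 : (1 : ℝ) ≤ Real.log (N i) ^ (B + 3) := one_le_pow₀ (hN' i).2.2
    have h3 : (f i v : ℝ) ≤ (N i : ℝ) ^ (d i - 1) := h1.trans (div_le_self (by positivity) h2)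
    exact_mod_cast h3
  have hM : ∀ i, N₀ ≤ N i ^ d i / 4 ∧ N i ^ (d i - 1) ≤ N i ^ d i / 4 ∧ 1 ≤ N i ^ d i / 4 ∧
      3 * (N i ^ d i / 4) < N i ^ d i := by
    intro i
    have h1 := (hN' i).2.1
    have h2 := hself i
    have h3 : 4 * N i ^ (d i - 1) ≤ N i ^ d i := by
      rw [← hpow i]
      exact Nat.mul_le_mul_right _ (by omega)
    omega
  obtain ⟨e, he1, he2, he3, he4, he5⟩ := h (fun i => N i ^ d i / 4) (fun i => (hM i).1) V f hf
    (fun i v hv => (hfl i v hv).trans (hM i).2.1) (fun i p hp hpB => hloc i p hp (by omega))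
  refine ⟨e, he1, he2, he3, he4, fun i j hne ρ => ?_⟩
  set F : Finset ℕ := ((((e i).rotate j).take k).toFinset).image (f ρ) with hF
  set S := starts3 F (N ρ ^ d ρ / 4) with hS
  have hSmem : ∀ x ∈ S, 1 ≤ x ∧ x < N ρ ^ d ρ := by
    intro x hx
    have h1 := mem_Icc.1 (mem_filter.1 hx).1
    have := hM ρ
    omega
  set D : ℕ := ⌊(N ρ : ℝ) ^ (d ρ - 1) / Real.log (N ρ) ^ (B + 3)⌋₊ with hD
  have hpos : (0 : ℝ) ≤ (N ρ : ℝ) ^ (d ρ - 1) / Real.log (N ρ) ^ (B + 3) := by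
    have := (hN' ρ).2.2
    positivity
  have h1 := (hN' ρ).1 S hSmem (he5 i j hne ρ) D (Nat.floor_le hpos)
  refine h1.trans ?_
  rw [Nat.cast_le]
  apply card_le_card
  intro n hn
  obtain ⟨h2, h3⟩ := mem_filter.1 hn
  refine mem_filter.2 ⟨h2, h3.trans ?_⟩
  rw [Nat.cast_le]
  apply card_le_card
  intro x hx
  obtain ⟨h4, h5, h6⟩ := mem_filter.1 hx
  have hFD : ∀ v ∈ F, v ≤ D := by
    intro v hv
    obtain ⟨u, hu, rfl⟩ := mem_image.1 hv
    have huV : u ∈ V := by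
      rw [List.mem_toFinset] at hu
      exact he3 i u (List.mem_rotate.1 (List.mem_of_mem_take hu))
    exact Nat.le_floor (hle ρ u huV)
  refine mem_filter.2 ⟨mem_Ioo.2 ⟨h5, by omega⟩, fun v hv => ⟨(mem_filter.1 h4).2 v hv, ?_⟩⟩
  have := hFD v hv
  omega

end Pool.Agent.Run7.h756.CC
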